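import Mathlib
import Pool.Agent.H510R2.Maier.MB5

/-! The Maier matrix for an arbitrary set of shifts, with a modulus which is the product of the primes up to `z`. -/

set_option autoImplicit false

open Finset Filter Topology
open Pool.Agent.H378R2
open Pool.Agent.H510R2.Maier

namespace Pool.Agent.T2H52.MG

/-- the primes `≤ z` of the big modulus -/
noncomputable def PZ (X : ℝ) (z : ℕ) (S : Finset ℕ) (ps : ℕ) : Finset ℕ :=
  (PW X S ps).filter (fun p => p ≤ z)

theorem mem_PZ {X : ℝ} {z : ℕ} {S : Finset ℕ} {ps p : ℕ} (hz : z ≤ yy X) : p ∈ PZ X z S ps ↔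
    p ≤ z ∧ p.Prime ∧ p ∉ S ∧ p ≠ ps := by
  unfold PZ
  rw [Finset.mem_filter, mem_PW]
  constructor
  · rintro ⟨⟨_, h2, h3, h4⟩, h5⟩
    exact ⟨h5, h2, h3, h4⟩
  · rintro ⟨h1, h2, h3, h4⟩
    exact ⟨⟨h1.trans hz, h2, h3, h4⟩, h1⟩

/-- the modulus -/
noncomputable def WZ (X : ℝ) (z : ℕ) (S : Finset ℕ) (ps : ℕ) : ℕ := ∏ p ∈ PZ X z S ps, p

theorem PZ_prime {X : ℝ} {z : ℕ} {S : Finset ℕ} {ps p : ℕ} (h : p ∈ PZ X z S ps) : p.Prime :=
  (mem_PW.1 (Finset.mem_filter.1 h).1).2.1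

theorem PZ_le {X : ℝ} {z : ℕ} {S : Finset ℕ} {ps p : ℕ} (h : p ∈ PZ X z S ps) : p ≤ z :=
  (Finset.mem_filter.1 h).2

theorem WZ_pos (X : ℝ) (z : ℕ) (S : Finset ℕ) (ps : ℕ) : 0 < WZ X z S ps :=
  Finset.prod_pos fun p hp => (PZ_prime hp).pos

theorem WZ_le (X : ℝ) (z : ℕ) (S : Finset ℕ) (ps : ℕ) :
    (WZ X z S ps : ℝ) ≤ Real.exp (3 / 2 * z) := by
  have h1 : WZ X z S ps ≤ primorial z := by
    unfold WZ primorial
    apply Finset.prod_le_prod_of_subset_of_one_le'
    · intro p hp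
      rw [Finset.mem_filter, Finset.mem_range]
      exact ⟨Nat.lt_succ_of_le (Finset.mem_filter.1 hp).2, PZ_prime hp⟩
    · intro i hi _
      exact (Finset.mem_filter.1 hi).2.one_lt.le
  have h2 : (WZ X z S ps : ℝ) ≤ (4 : ℝ) ^ z := by
    exact_mod_cast h1.trans (primorial_le_four_pow _)
  refine h2.trans ?_
  rw [← Real.rpow_natCast, Real.rpow_def_of_pos (by norm_num)]
  apply Real.exp_le_exp.2
  have h4 : Real.log 4 ≤ 3 / 2 := by
    rw [show (4 : ℝ) = 2 ^ 2 by norm_num, Real.log_pow]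
    have := Real.log_two_lt_d9
    push_cast; linarith
  exact mul_le_mul_of_nonneg_right h4 (Nat.cast_nonneg _)

theorem prime_dvd_WZ {X : ℝ} {z : ℕ} {S : Finset ℕ} {ps p : ℕ} (h : p ∈ PZ X z S ps) : p ∣ WZ X z S ps :=
  Finset.dvd_prod_of_mem _ h

theorem dvd_WZ_iff {X : ℝ} {z : ℕ} {S : Finset ℕ} {ps p : ℕ} (hp : p.Prime) :
    p ∣ WZ X z S ps ↔ p ∈ PZ X z S ps := by
  constructor
  · intro h
    unfold WZ at h
    obtain ⟨q, hq, hd⟩ := (Prime.dvd_finset_prod_iff hp.prime _).1 h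
    have := (Nat.prime_dvd_prime_iff_eq hp (PZ_prime hq)).1 hd
    rwa [this]
  · exact prime_dvd_WZ

theorem totient_WZ (X : ℝ) (z : ℕ) (S : Finset ℕ) (ps : ℕ) :
    ((WZ X z S ps).totient : ℝ) = WZ X z S ps * BE (PZ X z S ps) :=
  totient_prod _ (fun _ hp => PZ_prime hp)

theorem pz_decomp (X : ℝ) (z : ℕ) (S : Finset ℕ) (ps : ℕ) : ∃ W2 : ℕ, 0 < W2 ∧ (WZ X z S ps).Coprime W2 ∧
    WZ X z S ps * W2 = WW X S ps ∧ (WZ X z S ps : ℝ) ≤ WW X S ps := by
  classical
  set B := (PW X S ps).filter (fun p => ¬ p ≤ z) with hB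
  have hBp : ∀ p ∈ B, p.Prime := fun p hp => (mem_PW.1 (Finset.mem_filter.1 hp).1).2.1
  have hAp : ∀ p ∈ PZ X z S ps, p.Prime := fun p hp => PZ_prime hp
  have hdis : Disjoint (PZ X z S ps) B := Finset.disjoint_filter_filter_not _ _ _
  have hprod : WZ X z S ps * ∏ p ∈ B, p = WW X S ps := by
    unfold WZ WW
    rw [← Finset.prod_union hdis]
    congr 1
    exact Finset.filter_union_filter_not_eq _ _
  have hpos : 0 < ∏ p ∈ B, p := Finset.prod_pos fun p hp => (hBp p hp).pos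
  refine ⟨∏ p ∈ B, p, hpos, prod_coprime_of_disjoint hAp hBp hdis, hprod, ?_⟩
  have : WZ X z S ps ≤ WW X S ps := by
    rw [← hprod]
    exact Nat.le_mul_of_pos_right _ hpos
  exact_mod_cast this

/-- `∑ log p` over the primes among `n + h`, `h ∈ H` -/
noncomputable def thH (H : Finset ℕ) (n : ℕ) : ℝ := ∑ h ∈ H, th (n + h)

theorem thH_nonneg (H : Finset ℕ) (n : ℕ) : 0 ≤ thH H n := Finset.sum_nonneg fun _ _ => th_nonneg _

/-- number of `h ∈ H` with `r + h` prime to `W` -/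
noncomputable def VH (W r : ℕ) (H : Finset ℕ) : ℕ := (H.filter (fun h => (r + h).Coprime W)).card

theorem matrix_sumH (X : ℝ) (hX : 4 ≤ X) (W r Y : ℕ) (H : Finset ℕ) (hH : H ⊆ Icc 1 Y) (hY : (Y : ℝ) ≤ X / 2)
    (hW : ∀ p : ℕ, p.Prime → p ∣ W → (p : ℝ) ≤ X) (E : ℝ)
    (hE : ∀ b : ℕ, b.Coprime W → |EPhi X W b| ≤ E) :
    |∑ n ∈ Icc 1 ⌊3 * X⌋₊, nu X W r n * thH H n - VH W r H * (LPhi X * (1 / (Nat.totient W : ℝ)))| ≤
      Y * (E + (4 * Y * Real.log (4 * X) + 4 * Real.sqrt X * Real.log (4 * X))) := by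
  classical
  set N := ⌊3 * X⌋₊ with hN
  have hX0 : 0 < X := by linarith
  have hl : 0 ≤ Real.log (4 * X) := Real.log_nonneg (by linarith)
  have h1 : ∑ n ∈ Icc 1 N, nu X W r n * thH H n =
      ∑ h ∈ H, ∑ n ∈ Icc 1 N, nu X W r n * th (n + h) := by
    unfold thH
    simp_rw [Finset.mul_sum]
    exact Finset.sum_comm
  have h2 : (VH W r H : ℝ) * (LPhi X * (1 / (Nat.totient W : ℝ))) =
      ∑ h ∈ H, if (r + h).Coprime W then LPhi X * (1 / (Nat.totient W : ℝ)) else 0 := by
    unfold VH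
    rw [← Finset.sum_filter, Finset.sum_const, nsmul_eq_mul]
  rw [h1, h2, ← Finset.sum_sub_distrib]
  refine (Finset.abs_sum_le_sum_abs _ _).trans ?_
  have hE0 : 0 ≤ E := (abs_nonneg _).trans (hE 1 (Nat.coprime_one_left W))
  have h3 : ∀ h ∈ H, |∑ n ∈ Icc 1 N, nu X W r n * th (n + h) -
      (if (r + h).Coprime W then LPhi X * (1 / (Nat.totient W : ℝ)) else 0)| ≤
      E + (4 * Y * Real.log (4 * X) + 4 * Real.sqrt X * Real.log (4 * X)) := by
    intro h hh
    have hh := Finset.mem_Icc.1 (hH hh)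
    have hhY : (h : ℝ) ≤ Y := by exact_mod_cast hh.2
    have hsq : 0 ≤ 4 * Real.sqrt X * Real.log (4 * X) := by positivity
    by_cases hc : (r + h).Coprime W
    · rw [if_pos hc]
      have a1 := shift_bound X hX W r h (by linarith) (fun _ => (1 : ℝ)) 1 (fun _ => by simp)
      simp only [mul_one, one_mul] at a1
      have a2 := hE (r + h) hc
      rw [EPhi_eq] at a2
      have a3 : |∑ n ∈ Icc 1 N, nu X W r n * th (n + h) - LPhi X * (1 / (Nat.totient W : ℝ))| ≤
          ((4 * h) * Real.log (4 * X) + 4 * Real.sqrt X * Real.log (4 * X)) + E := by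
        have a4 : ∑ n ∈ (Icc 1 N).filter (fun n => n ≡ r + h [MOD W]),
            Phi (n / X) * ArithmeticFunction.vonMangoldt n =
            ∑ n ∈ Icc 1 N, (if n ≡ r + h [MOD W] then Phi (n / X) * ArithmeticFunction.vonMangoldt n else 0) := by
          rw [Finset.sum_filter]
        rw [a4] at a2
        rw [abs_le] at a1 a2 ⊢
        constructor
        · linarith [a1.1, a2.1]
        · linarith [a1.2, a2.2]
      refine a3.trans ?_
      have : (4 * h) * Real.log (4 * X) ≤ 4 * Y * Real.log (4 * X) :=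
        mul_le_mul_of_nonneg_right (by linarith) hl
      linarith
    · rw [if_neg hc, sub_zero]
      have hz : ∑ n ∈ Icc 1 N, nu X W r n * th (n + h) = 0 := by
        apply Finset.sum_eq_zero
        intro n hn
        unfold nu
        split_ifs with hmod
        · rcases le_or_gt (n : ℝ) X with hnX | hnX
          · rw [Phi_eq_zero_of_le (by positivity) (by rw [div_le_one hX0]; exact hnX), zero_mul]
          · unfold th
            split_ifs with hp
            · exfalso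
              obtain ⟨p, hpp, hp1, hp2⟩ := Nat.Prime.not_coprime_iff_dvd.1 hc
              have hmod2 : n + h ≡ r + h [MOD W] := Nat.ModEq.add_right _ hmod
              have hmod3 : n + h ≡ r + h [MOD p] := hmod2.of_dvd hp2
              have hdvd : p ∣ n + h := (Nat.ModEq.dvd_iff hmod3 dvd_rfl).2 hp1
              have heq : p = n + h := (Nat.prime_dvd_prime_iff_eq hpp hp).1 hdvd
              have := hW p hpp hp2
              rw [heq] at this
              push_cast at this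
              have : (0 : ℝ) ≤ h := by positivity
              linarith
            · rw [mul_zero]
        · rw [zero_mul]
      rw [hz, abs_zero]
      positivity
  refine (Finset.sum_le_sum h3).trans ?_
  rw [Finset.sum_const, nsmul_eq_mul]
  apply mul_le_mul_of_nonneg_right
  · have := Finset.card_le_card hH
    rw [Nat.card_Icc] at this
    exact_mod_cast (by omega : H.card ≤ Y)
  · positivity

set_option maxHeartbeats 4000000 in
/-- weighted sums over the rows -/
theorem rows_sumsH (ε : ℝ) (hε : 0 < ε) (hε1 : ε ≤ 1) (Z : ℕ) : ∃ X0 : ℝ, ∀ X : ℝ, X0 ≤ X →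
    ∃ (ps : ℕ) (S : Finset ℕ), GoodP Z ps ∧ GoodS X S ∧
      ∀ (z r Y : ℕ) (H : Finset ℕ), (z : ℝ) ≤ Real.log X / 1100 → (Y : ℝ) ≤ (Real.log X) ^ 3 → H ⊆ Icc 1 Y →
        (1 - ε / 4) * ((VH (WZ X z S ps) r H : ℝ) * (MPhi X / (WZ X z S ps).totient)) -
            40 * (MPhi X / (WZ X z S ps).totient) ≤
          ∑ n ∈ Icc 1 ⌊3 * X⌋₊, nu X (WZ X z S ps) r n * thH H n ∧
        ∑ n ∈ Icc 1 ⌊3 * X⌋₊, nu X (WZ X z S ps) r n * thH H n ≤
          (1 + ε / 4) * ((VH (WZ X z S ps) r H : ℝ) * (MPhi X / (WZ X z S ps).totient)) +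
            40 * (MPhi X / (WZ X z S ps).totient) ∧
        (1 - ε / 4) * (MPhi X / WZ X z S ps) ≤ ∑ n ∈ Icc 1 ⌊3 * X⌋₊, nu X (WZ X z S ps) r n ∧
        ∑ n ∈ Icc 1 ⌊3 * X⌋₊, nu X (WZ X z S ps) r n ≤ (1 + ε / 4) * (MPhi X / WZ X z S ps) := by
  obtain ⟨X1, hX1⟩ := bvrel_holds 3 Z
  have hlogtop : Tendsto Real.log atTop atTop := Real.tendsto_log_atTop
  have ev1 := lphi_mphi (ε / 80) (by positivity)
  have ev2 : ∀ᶠ X : ℝ in atTop, (Real.log X) ^ 3 * (4 * (Real.log X) ^ 3 * (2 * Real.log X) +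
      8 * Real.exp (Real.log X / 2) * (2 * Real.log X)) * Real.exp (Real.log X / 700) ≤ Real.exp (Real.log X) :=
    hlogtop.eventually ev_small2
  have ev3 : ∀ᶠ X : ℝ in atTop, (Real.log X) ^ 3 ≤ X / 2 := by
    have h1 := (Real.isLittleO_pow_log_id_atTop (n := 3)).bound (show (0 : ℝ) < 1 / 2 by norm_num)
    filter_upwards [h1, eventually_ge_atTop (1 : ℝ)] with X h2 h3
    rw [Real.norm_of_nonneg (pow_nonneg (Real.log_nonneg h3) 3), id, Real.norm_of_nonneg (by linarith)] at h2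
    linarith
  have ev4 : ∀ᶠ X : ℝ in atTop, 400 / ε * Real.exp (Real.log X / 700) ≤ X := by
    have h1 : Tendsto (fun L : ℝ => Real.exp (-(699 / 700) * L)) atTop (𝓝 0) := by
      apply Real.tendsto_exp_atBot.comp
      exact tendsto_id.const_mul_atTop_of_neg (by norm_num)
    have h2 : ∀ᶠ X : ℝ in atTop, Real.exp (-(699 / 700) * Real.log X) < ε / 400 :=
      hlogtop.eventually (h1.eventually_lt_const (by positivity))
    filter_upwards [h2, eventually_gt_atTop (0 : ℝ)] with X h3 h4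
    have h5 : Real.exp (Real.log X / 700) = X * Real.exp (-(699 / 700) * Real.log X) := by
      nth_rewrite 2 [← Real.exp_log h4]
      rw [← Real.exp_add]
      congr 1
      ring
    rw [h5]
    calc 400 / ε * (X * Real.exp (-(699 / 700) * Real.log X)) ≤ 400 / ε * (X * (ε / 400)) := by gcongr
      _ = X := by field_simp
  have hev := ((((ev1.and ev2).and ev3).and ev4).and (eventually_ge_atTop X1)).and
    ((eventually_ge_atTop (40 : ℝ)).and (hlogtop.eventually_ge_atTop (2 : ℝ)))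
  obtain ⟨X0, hX0⟩ := eventually_atTop.1 hev
  refine ⟨X0, fun X hX => ?_⟩
  obtain ⟨⟨⟨⟨⟨h1, h2⟩, h3⟩, h4⟩, h5⟩, h6, h7⟩ := hX0 X hX
  obtain ⟨ps, S, hps, hS, hbv⟩ := hX1 X h5
  refine ⟨ps, S, hps, hS, fun z r Y H hz hY hH => ?_⟩
  have hXpos : 0 < X := by linarith
  obtain ⟨W2, hW2, hco, hWprod, hWDle⟩ := pz_decomp X z S ps
  set W := WZ X z S ps with hW
  have hW0 : 0 < W := WZ_pos X z S ps
  have hWr : (0 : ℝ) < W := by exact_mod_cast hW0
  have hφ0 : (0 : ℝ) < W.totient := by exact_mod_cast Nat.totient_pos.2 hW0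
  have hφ2 : (0 : ℝ) < W2.totient := by exact_mod_cast Nat.totient_pos.2 hW2
  have hφle : (W.totient : ℝ) ≤ W := by exact_mod_cast Nat.totient_le W
  have hWle : (W : ℝ) ≤ Real.exp (Real.log X / 700) := by
    refine (WZ_le X z S ps).trans ?_
    apply Real.exp_le_exp.2
    have : 0 ≤ Real.log X := by linarith
    linarith
  set L := Real.log X with hL
  have hexpL : Real.exp L = X := Real.exp_log hXpos
  have hsqrt : Real.sqrt X = Real.exp (L / 2) := by
    rw [← hexpL, Real.sqrt_eq_iff_mul_self_eq (Real.exp_pos _).le (Real.exp_pos _).le, ← Real.exp_add]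
    congr 1; ring
  have hl4 : Real.log (4 * X) ≤ 2 * L := by
    rw [Real.log_mul (by norm_num) hXpos.ne']
    have : Real.log 4 ≤ 2 := by
      rw [show (4 : ℝ) = 2 ^ 2 by norm_num, Real.log_pow]
      have := Real.log_two_lt_d9
      push_cast; linarith
    linarith
  have hl40 : 0 ≤ Real.log (4 * X) := Real.log_nonneg (by linarith)
  set E0 := X / (((WW X S ps).totient : ℝ) * L ^ 3) with hE0
  have hEb0 := single_bound X (WW X S ps) ps 3 (by linarith) E0 hbv
  have hWp0 : ∀ p : ℕ, p.Prime → p ∣ WW X S ps → (p : ℝ) ≤ X := by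
    intro p hp hpW
    have h8 := (mem_PW.1 ((prime_dvd_WW hp).1 hpW)).1
    have h9 : (p : ℝ) ≤ yy X := by exact_mod_cast h8
    have h10 : (yy X : ℝ) ≤ L / 1000 := Nat.floor_le (by positivity)
    have h11 : L ≤ X := by
      have := Real.add_one_le_exp L
      linarith
    linarith
  have hWp : ∀ p : ℕ, p.Prime → p ∣ W → (p : ℝ) ≤ X := fun p hp hd =>
    hWp0 p hp (hd.trans ⟨W2, hWprod.symm⟩)
  have hWp2 : ∀ p : ℕ, p.Prime → p ∣ W2 → (p : ℝ) ≤ X := fun p hp hd =>
    hWp0 p hp (hd.trans ⟨W, by rw [← hWprod]; ring⟩)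
  set E := (W2.totient : ℝ) * E0 + 2 * Real.sqrt (3 * X) * Real.log (3 * X) with hE
  have hEb : ∀ b : ℕ, b.Coprime W → |EPhi X W b| ≤ E := by
    intro b hb
    apply EPhi_sub X (by linarith) W W2 hW0 hW2 hco hWp2 E0 _ b hb
    rw [hWprod]
    exact hEb0
  have hE0eq : (W2.totient : ℝ) * E0 = X / (W.totient * L ^ 3) := by
    rw [hE0, ← hWprod, Nat.totient_mul hco]
    push_cast
    field_simp
  have hmat := matrix_sumH X (by linarith) W r Y H hH (by linarith) hWp E hEb
  have hM1 := MPhi_ge X h6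
  set M := MPhi X with hM
  have hM0 : 0 < M := by linarith
  -- the error
  have h3X : 2 * Real.sqrt (3 * X) * Real.log (3 * X) ≤ 4 * Real.sqrt X * Real.log (4 * X) := by
    have a1 : Real.sqrt (3 * X) ≤ 2 * Real.sqrt X := by
      rw [show 2 * Real.sqrt X = Real.sqrt (4 * X) by
        rw [Real.sqrt_mul (by norm_num), show (4 : ℝ) = 2 ^ 2 by norm_num, Real.sqrt_sq (by norm_num)]]
      exact Real.sqrt_le_sqrt (by linarith)
    have a2 : Real.log (3 * X) ≤ Real.log (4 * X) := Real.log_le_log (by linarith) (by linarith)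
    have a3 : 0 ≤ Real.log (3 * X) := Real.log_nonneg (by linarith)
    calc 2 * Real.sqrt (3 * X) * Real.log (3 * X) ≤ 2 * (2 * Real.sqrt X) * Real.log (4 * X) := by gcongr
      _ = _ := by ring
  have herr : Y * (E + (4 * Y * Real.log (4 * X) + 4 * Real.sqrt X * Real.log (4 * X))) ≤ 40 * (M / W.totient) := by
    have hY0 : (0 : ℝ) ≤ Y := Nat.cast_nonneg _
    have b1 : Y * ((W2.totient : ℝ) * E0) ≤ X / W.totient := by
      rw [hE0eq]
      calc Y * (X / (W.totient * L ^ 3)) ≤ L ^ 3 * (X / (W.totient * L ^ 3)) := by gcongr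
        _ = X / W.totient := by field_simp
    have b2 : Y * (4 * Y * Real.log (4 * X) + 8 * Real.sqrt X * Real.log (4 * X)) ≤ X / W.totient := by
      rw [le_div_iff₀ hφ0]
      calc Y * (4 * Y * Real.log (4 * X) + 8 * Real.sqrt X * Real.log (4 * X)) * W.totient
          ≤ L ^ 3 * (4 * L ^ 3 * (2 * L) + 8 * Real.exp (L / 2) * (2 * L)) * Real.exp (L / 700) := by
            rw [hsqrt]
            have := hφle.trans hWle
            gcongr
        _ ≤ X := by rw [← hexpL]; exact h2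
    have b3 : X / W.totient ≤ 20 * (M / W.totient) := by
      rw [mul_div_assoc']
      gcongr
      linarith
    calc Y * (E + (4 * Y * Real.log (4 * X) + 4 * Real.sqrt X * Real.log (4 * X)))
        ≤ Y * (((W2.totient : ℝ) * E0 + 4 * Real.sqrt X * Real.log (4 * X)) +
            (4 * Y * Real.log (4 * X) + 4 * Real.sqrt X * Real.log (4 * X))) := by
          apply mul_le_mul_of_nonneg_left _ hY0
          rw [hE]
          linarith
      _ = Y * ((W2.totient : ℝ) * E0) + Y * (4 * Y * Real.log (4 * X) + 8 * Real.sqrt X * Real.log (4 * X)) := by ring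
      _ ≤ X / W.totient + X / W.totient := add_le_add b1 b2
      _ ≤ _ := by linarith
  have hLM : |LPhi X - M| ≤ ε / 4 * M := by
    refine h1.trans ?_
    nlinarith
  rw [abs_le] at hLM
  have hnu := sum_nu X (by linarith) W r hW0 (by
    have : (400 : ℝ) ≤ 400 / ε := by
      rw [le_div_iff₀ hε]; nlinarith
    nlinarith [Real.exp_pos (L / 700)])
  rw [abs_le] at hnu hmat
  set N1 := ∑ n ∈ Icc 1 ⌊3 * X⌋₊, nu X W r n with hN1
  set T1 := ∑ n ∈ Icc 1 ⌊3 * X⌋₊, nu X W r n * thH H n with hT1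
  have hMW : 5 ≤ ε / 4 * (M / W) := by
    have c1 : 400 / ε * W ≤ X := by
      refine le_trans ?_ h4
      gcongr
    have c2 : 400 * W ≤ ε * X := by
      calc 400 * (W : ℝ) = ε * (400 / ε * W) := by field_simp
        _ ≤ ε * X := by gcongr
    have c3 : 20 ≤ ε * (M / W) := by
      rw [mul_div_assoc', le_div_iff₀ hWr]
      nlinarith
    linarith
  have hMW' : M * (1 / (W : ℝ)) = M / W := by ring
  rw [hMW'] at hnu
  set V : ℝ := (VH W r H : ℝ) with hV
  have hV0 : 0 ≤ V := Nat.cast_nonneg _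
  have hK0 : 0 < M / W.totient := by positivity
  refine ⟨?_, ?_, by linarith [hnu.1], by linarith [hnu.2]⟩
  · have d1 : (1 - ε / 4) * (V * (M / W.totient)) ≤ V * (LPhi X * (1 / W.totient)) := by
      have : (1 - ε / 4) * M ≤ LPhi X := by linarith [hLM.1]
      calc (1 - ε / 4) * (V * (M / W.totient)) = V * (((1 - ε / 4) * M) * (1 / W.totient)) := by ring
        _ ≤ _ := by gcongr
    linarith [hmat.1]
  · have d1 : V * (LPhi X * (1 / W.totient)) ≤ (1 + ε / 4) * (V * (M / W.totient)) := by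
      have : LPhi X ≤ (1 + ε / 4) * M := by linarith [hLM.2]
      calc V * (LPhi X * (1 / W.totient)) ≤ V * (((1 + ε / 4) * M) * (1 / W.totient)) := by gcongr
        _ = _ := by ring
    linarith [hmat.2]

end Pool.Agent.T2H52.MG
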