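import Mathlib
import Pool.Agent.T2H52.MG.A1

/-! The shifts `Y + 1 - p` and the classes `s` of `n + Y + 1`. -/

set_option autoImplicit false

open Finset Filter Topology
open Pool.Agent.H378R2
open Pool.Agent.H510R2.Maier

namespace Pool.Agent.T2H52.MG

/-- the integers `t ≤ T` prime to `W` -/
def RR (W T : ℕ) : ℕ := ((Icc 1 T).filter (fun t => t.Coprime W)).card

/-- the odd primes up to `Y` -/
def PP (Y : ℕ) : Finset ℕ := (Icc 3 Y).filter Nat.Prime

/-- the shifts -/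
def HS (Y : ℕ) : Finset ℕ := (PP Y).image (fun p => Y + 1 - p)

/-- the class of the rows -/
def rs (W Y s : ℕ) : ℕ := s + W * (Y + 1) - (Y + 1)

theorem mem_PP {Y p : ℕ} : p ∈ PP Y ↔ (3 ≤ p ∧ p ≤ Y) ∧ p.Prime := by
  unfold PP; rw [mem_filter, mem_Icc]

theorem HS_sub (Y : ℕ) : HS Y ⊆ Icc 1 Y := by
  intro h hh
  obtain ⟨p, hp, rfl⟩ := mem_image.1 hh
  have := mem_PP.1 hp
  rw [mem_Icc]
  omega

theorem HS_inj (Y : ℕ) : Set.InjOn (fun p => Y + 1 - p) (PP Y : Set ℕ) := by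
  intro a ha b hb hab
  have h1 := mem_PP.1 (mem_coe.1 ha)
  have h2 := mem_PP.1 (mem_coe.1 hb)
  simp only at hab
  omega

theorem thH_HS (Y n : ℕ) : thH (HS Y) n = ∑ p ∈ PP Y, th (n + Y + 1 - p) := by
  unfold thH HS
  rw [Finset.sum_image (HS_inj Y)]
  apply Finset.sum_congr rfl
  intro p hp
  have := mem_PP.1 hp
  congr 1
  omega

theorem VH_HS (W Y s : ℕ) (hW : 0 < W) : VH W (rs W Y s) (HS Y) =
    ((PP Y).filter (fun p => (s + W * (Y + 1) - p).Coprime W)).card := by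
  unfold VH HS
  rw [Finset.filter_image, Finset.card_image_of_injOn]
  · congr 1
    ext p
    simp only [mem_filter]
    constructor
    · rintro ⟨h1, h2⟩
      refine ⟨h1, ?_⟩
      have h3 := mem_PP.1 h1
      have h4 : Y + 1 ≤ W * (Y + 1) := Nat.le_mul_of_pos_left _ hW
      have : rs W Y s + (Y + 1 - p) = s + W * (Y + 1) - p := by
        unfold rs; omega
      rwa [this] at h2
    · rintro ⟨h1, h2⟩
      refine ⟨h1, ?_⟩
      have h3 := mem_PP.1 h1
      have h4 : Y + 1 ≤ W * (Y + 1) := Nat.le_mul_of_pos_left _ hW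
      have : rs W Y s + (Y + 1 - p) = s + W * (Y + 1) - p := by
        unfold rs; omega
      rwa [this]
  · intro a ha b hb hab
    exact HS_inj Y (mem_coe.2 (mem_filter.1 ha).1) (mem_coe.2 (mem_filter.1 hb).1) hab

theorem cop_sub {K W t : ℕ} (hK : W ∣ K) (ht : t ≤ K) : (K - t).Coprime W ↔ t.Coprime W := by
  rw [← not_iff_not, Nat.Prime.not_coprime_iff_dvd, Nat.Prime.not_coprime_iff_dvd]
  constructor
  · rintro ⟨q, hq, h1, h2⟩
    exact ⟨q, hq, (Nat.dvd_sub_iff_right ht (h2.trans hK)).1 h1, h2⟩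
  · rintro ⟨q, hq, h1, h2⟩
    exact ⟨q, hq, (Nat.dvd_sub_iff_right ht (h2.trans hK)).2 h1, h2⟩

theorem cop_ge {W Y s p : ℕ} (h : p ≤ s) : (s + W * (Y + 1) - p).Coprime W ↔ (s - p).Coprime W := by
  have : s + W * (Y + 1) - p = (s - p) + W * (Y + 1) := by omega
  rw [this, Nat.coprime_add_mul_left_left]

theorem cop_lt {W Y s p : ℕ} (hW : 0 < W) (hp : p ≤ Y) (h : s < p) :
    (s + W * (Y + 1) - p).Coprime W ↔ (p - s).Coprime W := by
  have h4 : Y + 1 ≤ W * (Y + 1) := Nat.le_mul_of_pos_left _ hW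
  have : s + W * (Y + 1) - p = W * (Y + 1) - (p - s) := by omega
  rw [this]
  exact cop_sub (Dvd.intro _ rfl) (by omega)

theorem card_class (W Y p : ℕ) (hW : 1 < W) (hp1 : 1 ≤ p) (hp : p ≤ Y) :
    ((Icc 1 Y).filter (fun s => (s + W * (Y + 1) - p).Coprime W)).card = RR W (Y - p) + RR W (p - 1) := by
  classical
  unfold RR
  have h1 : (Icc 1 Y).filter (fun s => (s + W * (Y + 1) - p).Coprime W) =
      ((Icc 1 (Y - p)).filter (fun t => t.Coprime W)).image (fun t => p + t) ∪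
        ((Icc 1 (p - 1)).filter (fun t => t.Coprime W)).image (fun t => p - t) := by
    ext s
    rw [mem_filter, mem_Icc, mem_union, mem_image, mem_image]
    constructor
    · rintro ⟨⟨h1, h2⟩, h3⟩
      rcases lt_trichotomy s p with h | h | h
      · right
        refine ⟨p - s, mem_filter.2 ⟨mem_Icc.2 (by omega), (cop_lt (by omega) hp h).1 h3⟩, by omega⟩
      · exfalso
        rw [cop_ge h.ge, h, Nat.sub_self, Nat.coprime_zero_left] at h3
        omega
      · left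
        refine ⟨s - p, mem_filter.2 ⟨mem_Icc.2 (by omega), (cop_ge h.le).1 h3⟩, by omega⟩
    · rintro (⟨t, ht, rfl⟩ | ⟨t, ht, rfl⟩)
      · obtain ⟨h1, h2⟩ := mem_filter.1 ht
        rw [mem_Icc] at h1
        refine ⟨by omega, ?_⟩
        rw [cop_ge (by omega)]
        rwa [Nat.add_sub_cancel_left]
      · obtain ⟨h1, h2⟩ := mem_filter.1 ht
        rw [mem_Icc] at h1
        refine ⟨by omega, ?_⟩
        rw [cop_lt (by omega) hp (by omega)]
        have : p - (p - t) = t := by omega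
        rwa [this]
  rw [h1, card_union_of_disjoint, card_image_of_injOn, card_image_of_injOn]
  · intro a ha b hb hab
    have h2 := mem_Icc.1 (mem_filter.1 (mem_coe.1 ha)).1
    have h3 := mem_Icc.1 (mem_filter.1 (mem_coe.1 hb)).1
    simp only at hab
    omega
  · intro a ha b hb hab
    simp only at hab
    omega
  · rw [Finset.disjoint_left]
    intro s h2 h3
    obtain ⟨t, ht, h4⟩ := mem_image.1 h2
    obtain ⟨t', ht', h5⟩ := mem_image.1 h3
    have h6 := mem_Icc.1 (mem_filter.1 ht).1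
    have h7 := mem_Icc.1 (mem_filter.1 ht').1
    omega

/-- the sum over the classes -/
theorem sum_VH (W Y : ℕ) (hW : 1 < W) : ∑ s ∈ Icc 1 Y, VH W (rs W Y s) (HS Y) =
    ∑ p ∈ PP Y, (RR W (Y - p) + RR W (p - 1)) := by
  have h1 : ∀ s ∈ Icc 1 Y, VH W (rs W Y s) (HS Y) =
      ∑ p ∈ PP Y, (if (s + W * (Y + 1) - p).Coprime W then 1 else 0) := by
    intro s _
    rw [VH_HS W Y s (by omega), Finset.card_filter]
  rw [Finset.sum_congr rfl h1, Finset.sum_comm]
  apply Finset.sum_congr rfl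
  intro p hp
  have := mem_PP.1 hp
  rw [← Finset.card_filter]
  exact card_class W Y p hW (by omega) this.1.2

/-- the odd classes -/
theorem VH_odd (W Y s : ℕ) (hW0 : 0 < W) (hW : 2 ∣ W) (hs : ¬ Even s) : VH W (rs W Y s) (HS Y) = 0 := by
  rw [VH_HS W Y s hW0, Finset.card_eq_zero, Finset.filter_eq_empty_iff]
  intro p hp hcop
  have h1 := mem_PP.1 hp
  have h2 : ¬ Even p := by
    rw [Nat.not_even_iff_odd]
    exact h1.2.odd_of_ne_two (by omega)
  have h4 : Y + 1 ≤ W * (Y + 1) := Nat.le_mul_of_pos_left _ hW0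
  have h5 : 2 ∣ s + W * (Y + 1) - p := by
    obtain ⟨k, hk⟩ := hW
    rw [Nat.not_even_iff_odd] at hs h2
    obtain ⟨a, ha⟩ := hs
    obtain ⟨b, hb⟩ := h2
    have h6 : W * (Y + 1) = 2 * (k * (Y + 1)) := by rw [hk]; ring
    rw [h6] at h4 ⊢
    omega
  exact Nat.not_coprime_of_dvd_of_dvd (by norm_num) h5 hW hcop

/-- the congruence of `n + Y + 1` -/
theorem mod_rs {W Y s n : ℕ} (hW : 0 < W) (h : n ≡ rs W Y s [MOD W]) : n + Y + 1 ≡ s [MOD W] := by
  have h4 : Y + 1 ≤ W * (Y + 1) := Nat.le_mul_of_pos_left _ hW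
  have h1 : n + (Y + 1) ≡ rs W Y s + (Y + 1) [MOD W] := Nat.ModEq.add_right _ h
  have h2 : rs W Y s + (Y + 1) = s + W * (Y + 1) := by unfold rs; omega
  rw [h2] at h1
  have h3 : s + W * (Y + 1) ≡ s [MOD W] := by
    unfold Nat.ModEq
    rw [Nat.add_mul_mod_self_left]
  exact (by rw [add_assoc]; exact h1.trans h3)

end Pool.Agent.T2H52.MG
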