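import Mathlib
import Pool.Agent.H510R2.Maier.MA6

/-! The number of the primes up to `T`, uniformly for `T ≤ N`. -/

set_option autoImplicit false

open Finset Filter Topology
open Pool.Agent.H510R2.Maier

namespace Pool.Agent.T2H52.MG

theorem pi_near (ε : ℝ) (hε : 0 < ε) : ∀ᶠ T : ℕ in atTop,
    |(Nat.primeCounting T : ℝ) - T / Real.log T| ≤ ε * (T / Real.log T) := by
  have h1 := Pool.Agent.Helper601.PNT.pi_tendsto.comp (tendsto_natCast_atTop_atTop (R := ℝ))
  have h2 := h1.eventually (Metric.closedBall_mem_nhds (1 : ℝ) hε)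
  filter_upwards [h2, eventually_ge_atTop 2] with N h3 h4
  simp only [Function.comp, Nat.floor_natCast, Real.dist_eq] at h3
  have h5 : (2 : ℝ) ≤ N := by exact_mod_cast h4
  have h6 : 0 < Real.log N := Real.log_pos (by linarith)
  have h7 : (0 : ℝ) < N := by linarith
  have h8 : (Nat.primeCounting N : ℝ) - N / Real.log N =
      ((Nat.primeCounting N : ℝ) * Real.log N / N - 1) * (N / Real.log N) := by
    field_simp
  rw [h8, abs_mul, abs_of_nonneg (show (0 : ℝ) ≤ N / Real.log N by positivity)]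
  exact mul_le_mul_of_nonneg_right h3 (by positivity)

theorem pi_unif (δ : ℝ) (hδ : 0 < δ) : ∀ᶠ N : ℕ in atTop, ∀ T : ℕ, T ≤ N →
    |(Nat.primeCounting T : ℝ) - T / Real.log N| ≤ δ * (N / Real.log N) := by
  obtain ⟨ε, hε⟩ : ∃ ε : ℝ, ε = min δ 1 / 4 := ⟨_, rfl⟩
  obtain ⟨θ, hθ⟩ : ∃ θ : ℝ, θ = min δ 1 / 8 := ⟨_, rfl⟩
  have hm : 0 < min δ 1 := lt_min hδ one_pos
  have hm1 : min δ 1 ≤ 1 := min_le_right _ _
  have hmδ : min δ 1 ≤ δ := min_le_left _ _
  have hε0 : 0 < ε := by rw [hε]; positivity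
  have hθ0 : 0 < θ := by rw [hθ]; positivity
  have hθ1 : θ ≤ 1 / 8 := by rw [hθ]; linarith
  obtain ⟨N0, hN0⟩ := eventually_atTop.1 (pi_near ε hε0)
  have hlog := Real.tendsto_log_atTop.comp (tendsto_natCast_atTop_atTop (R := ℝ))
  filter_upwards [hlog.eventually_ge_atTop (2 * Real.log (2 / θ) / ε),
    (tendsto_natCast_atTop_atTop (R := ℝ)).eventually_ge_atTop ((N0 + 4) / θ), eventually_ge_atTop 3] with N h1 h2 h3
  intro T hT
  simp only [Function.comp] at h1
  rw [div_le_iff₀ hε0] at h1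
  rw [div_le_iff₀ hθ0] at h2
  have hN3 : (3 : ℝ) ≤ N := by exact_mod_cast h3
  have hNpos : (0 : ℝ) < N := by linarith
  have hlN : 0 < Real.log N := Real.log_pos (by linarith)
  have hTN : (T : ℝ) ≤ N := by exact_mod_cast hT
  have hT0 : (0 : ℝ) ≤ T := Nat.cast_nonneg _
  have hl2 : 0 < Real.log (2 / θ) := Real.log_pos (by rw [lt_div_iff₀ hθ0]; linarith)
  have hε1 : ε ≤ 1 / 4 := by rw [hε]; linarith
  have hlN2 : 2 * Real.log (2 / θ) ≤ Real.log N := by nlinarith
  have hNl : 0 < (N : ℝ) / Real.log N := by positivity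
  -- lower bounds for logarithms
  have key : ∀ x : ℝ, θ * N / 2 ≤ x → Real.log N - Real.log (2 / θ) ≤ Real.log x := by
    intro x hx
    have : Real.log (θ * N / 2) = Real.log N - Real.log (2 / θ) := by
      rw [show θ * N / 2 = N / (2 / θ) by field_simp, Real.log_div hNpos.ne' (by positivity)]
    rw [← this]
    exact Real.log_le_log (by positivity) hx
  rcases le_or_gt (T : ℝ) (θ * N) with hcase | hcase
  · have hfl : θ * N / 2 ≤ (⌊θ * N⌋₊ : ℝ) := by
      have := Nat.lt_floor_add_one (θ * N)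
      have h0 : (0 : ℝ) ≤ N0 := Nat.cast_nonneg _
      linarith
    have hfl0 : (0 : ℝ) < (⌊θ * N⌋₊ : ℝ) := lt_of_lt_of_le (by positivity) hfl
    have hge : N0 ≤ ⌊θ * N⌋₊ := by
      apply Nat.le_floor
      linarith
    have hp := hN0 _ hge
    have hlf := key _ hfl
    have hlf2 : Real.log N / 2 ≤ Real.log (⌊θ * N⌋₊ : ℝ) := by linarith
    have hTf : T ≤ ⌊θ * N⌋₊ := Nat.le_floor hcase
    have hmono : (Nat.primeCounting T : ℝ) ≤ Nat.primeCounting ⌊θ * N⌋₊ := by
      exact_mod_cast Nat.monotone_primeCounting hTf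
    have hub : ((⌊θ * N⌋₊ : ℝ)) / Real.log (⌊θ * N⌋₊ : ℝ) ≤ 2 * θ * (N / Real.log N) := by
      have h5 : (⌊θ * N⌋₊ : ℝ) ≤ θ * N := Nat.floor_le (by positivity)
      calc ((⌊θ * N⌋₊ : ℝ)) / Real.log (⌊θ * N⌋₊ : ℝ) ≤ (θ * N) / (Real.log N / 2) := by
            apply div_le_div₀ (by positivity) h5 (by positivity) hlf2
        _ = _ := by field_simp
    rw [abs_le] at hp ⊢
    have e1 : 0 ≤ (T : ℝ) / Real.log N := by positivity
    have e2 : (T : ℝ) / Real.log N ≤ θ * (N / Real.log N) := by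
      rw [mul_div_assoc']
      gcongr
    have e3 : (0 : ℝ) ≤ Nat.primeCounting T := Nat.cast_nonneg _
    have e4 : (Nat.primeCounting ⌊θ * N⌋₊ : ℝ) ≤ (1 + ε) * (2 * θ * (N / Real.log N)) := by
      calc (Nat.primeCounting ⌊θ * N⌋₊ : ℝ) ≤ (1 + ε) * ((⌊θ * N⌋₊ : ℝ) / Real.log (⌊θ * N⌋₊ : ℝ)) := by linarith [hp.2]
        _ ≤ _ := by gcongr
    constructor
    · nlinarith
    · have e5 : (1 + ε) * (2 * θ * (N / Real.log N)) ≤ δ * (N / Real.log N) := by
        rw [← mul_assoc]
        apply mul_le_mul_of_nonneg_right _ hNl.le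
        rw [hθ]
        nlinarith
      linarith
  · have hT1 : θ * N / 2 ≤ T := by
      have : 0 < θ * N := by positivity
      linarith
    have hTpos : (0 : ℝ) < T := lt_of_lt_of_le (by positivity) hT1
    have hge : N0 ≤ T := by
      have h0 : (N0 : ℝ) ≤ T := by linarith
      exact_mod_cast h0
    have hp := hN0 _ hge
    have hlT := key _ hT1
    have hlT2 : Real.log N / 2 ≤ Real.log (T : ℝ) := by linarith
    have hlT0 : 0 < Real.log (T : ℝ) := by linarith
    have hlTN : Real.log (T : ℝ) ≤ Real.log N := Real.log_le_log hTpos hTN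
    have e1 : (T : ℝ) / Real.log T - T / Real.log N ≤ ε * (N / Real.log N) := by
      have h5 : (T : ℝ) / Real.log T - T / Real.log N = T * ((Real.log N - Real.log T) / Real.log T) / Real.log N := by
        field_simp
      rw [h5, ← mul_div_assoc ε]
      apply div_le_div_of_nonneg_right _ hlN.le
      have h6 : (Real.log N - Real.log T) / Real.log T ≤ ε := by
        rw [div_le_iff₀ hlT0]
        nlinarith
      calc (T : ℝ) * ((Real.log N - Real.log T) / Real.log T) ≤ T * ε := by gcongr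
        _ ≤ ε * N := by nlinarith
    have e2 : 0 ≤ (T : ℝ) / Real.log T - T / Real.log N := by
      rw [sub_nonneg]
      gcongr
    have e3 : (T : ℝ) / Real.log N ≤ N / Real.log N := by gcongr
    have e4 : ε * (T / Real.log T) ≤ ε * ((1 + ε) * (N / Real.log N)) := by
      apply mul_le_mul_of_nonneg_left _ hε0.le
      linarith
    have e5 : ε * ((1 + ε) * (N / Real.log N)) + ε * (N / Real.log N) ≤ δ * (N / Real.log N) := by
      have : ε * ((1 + ε) * (N / Real.log N)) + ε * (N / Real.log N) = (ε * (2 + ε)) * (N / Real.log N) := by ring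
      rw [this]
      apply mul_le_mul_of_nonneg_right _ hNl.le
      nlinarith
    rw [abs_le] at hp ⊢
    constructor
    · linarith [hp.1]
    · linarith [hp.2]

end Pool.Agent.T2H52.MG
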