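import Mathlib
import Pool.Agent.H510R2.Maier.MB7
import Pool.Agent.T2H52.MG.A2
import Pool.Agent.T2H52.MG.A3

/-! The scales and the number of the integers prime to the modulus. -/

set_option autoImplicit false

open Finset Filter Topology
open Pool.Agent.H378R2
open Pool.Agent.H510R2.Maier

namespace Pool.Agent.T2H52.MG

/-- the scales: `z` is about `L ^ v`, `Y` is about `z ^ u` -/
structure Scale (u v : ℝ) (z Y : ℝ → ℕ) : Prop where
  u1 : 1 < u
  u2 : u ≤ 2
  v0 : 0 < v
  v1 : v ≤ 1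
  zt : Tendsto (fun L => Real.log (z L) / Real.log L) atTop (𝓝 v)
  Yt : Tendsto (fun L => Real.log (Y L) / Real.log (z L)) atTop (𝓝 u)

theorem nat_top_of_log {f : ℝ → ℕ} (h : Tendsto (fun L => Real.log (f L)) atTop atTop) : Tendsto f atTop atTop := by
  rw [tendsto_atTop]
  intro b
  filter_upwards [h.eventually_gt_atTop (Real.log b), h.eventually_gt_atTop 0] with L hL hL0
  by_contra hcon
  push Not at hcon
  rcases Nat.eq_zero_or_pos (f L) with h0 | h0
  · rw [h0] at hL0; simp at hL0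
  · have : Real.log (f L) ≤ Real.log b := Real.log_le_log (by exact_mod_cast h0) (by exact_mod_cast hcon.le)
    linarith

namespace Scale

variable {u v : ℝ} {z Y : ℝ → ℕ}

theorem logz (hs : Scale u v z Y) : Tendsto (fun L => Real.log (z L)) atTop atTop := by
  have h1 := hs.zt.pos_mul_atTop hs.v0 Real.tendsto_log_atTop
  refine h1.congr' ?_
  filter_upwards [eventually_gt_atTop (1 : ℝ)] with L hL
  have := Real.log_pos hL
  field_simp

theorem ztop (hs : Scale u v z Y) : Tendsto z atTop atTop := nat_top_of_log hs.logz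

theorem logY (hs : Scale u v z Y) : Tendsto (fun L => Real.log (Y L)) atTop atTop := by
  have h1 := hs.Yt.pos_mul_atTop (by linarith [hs.u1]) hs.logz
  refine h1.congr' ?_
  filter_upwards [hs.logz.eventually_gt_atTop 0] with L hL
  field_simp

theorem Ytop (hs : Scale u v z Y) : Tendsto Y atTop atTop := nat_top_of_log hs.logY

theorem Yz (hs : Scale u v z Y) : ∀ᶠ L in atTop, Real.log (Y L) ≤ 5 / 2 * Real.log (z L) := by
  have h2 := hs.u2
  filter_upwards [hs.Yt.eventually_lt_const (show u < 5 / 2 by linarith), hs.logz.eventually_gt_atTop 0] with L h3 h4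
  rw [div_lt_iff₀ h4] at h3
  exact h3.le

theorem zL (hs : Scale u v z Y) : ∀ᶠ L in atTop, Real.log (z L) ≤ 11 / 10 * Real.log L := by
  have h2 := hs.v1
  filter_upwards [hs.zt.eventually_lt_const (show v < 11 / 10 by linarith), eventually_gt_atTop (1 : ℝ)] with L h3 h4
  rw [div_lt_iff₀ (Real.log_pos h4)] at h3
  exact h3.le

theorem YL (hs : Scale u v z Y) : ∀ᶠ L in atTop, Real.log (Y L) ≤ 11 / 4 * Real.log L := by
  filter_upwards [hs.Yz, hs.zL] with L h1 h2
  linarith

/-- `z (log Y) ^ k` is small compared to `Y` -/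
theorem z_small (hs : Scale u v z Y) (δ : ℝ) (hδ : 0 < δ) : ∀ᶠ L in atTop,
    (z L : ℝ) ≤ δ * (Y L / Real.log (Y L)) := by
  have hu := hs.u1
  obtain ⟨κ, hκ⟩ : ∃ κ : ℝ, κ = (u - 1) / 2 := ⟨_, rfl⟩
  have hκ0 : 0 < κ := by rw [hκ]; linarith
  have e1 : ∀ᶠ L in atTop, (1 + κ) * Real.log (z L) ≤ Real.log (Y L) := by
    filter_upwards [hs.Yt.eventually_const_lt (show 1 + κ < u by rw [hκ]; linarith), hs.logz.eventually_gt_atTop 0] with L h3 h4
    rw [lt_div_iff₀ h4] at h3
    exact h3.le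
  have e2 : ∀ᶠ x : ℝ in atTop, Real.log x ≤ (δ / 3) * x ^ κ := by
    have h := (isLittleO_log_rpow_atTop hκ0).bound (show (0 : ℝ) < δ / 3 by positivity)
    filter_upwards [h, eventually_ge_atTop (1 : ℝ)] with x hx hx1
    rw [Real.norm_of_nonneg (Real.log_nonneg hx1), Real.norm_of_nonneg (by positivity)] at hx
    exact hx
  have hzr : Tendsto (fun L => (z L : ℝ)) atTop atTop := tendsto_natCast_atTop_atTop.comp hs.ztop
  filter_upwards [e1, hzr.eventually e2, hs.Yz, hs.logz.eventually_gt_atTop 0, hs.ztop.eventually_ge_atTop 2,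
    hs.Ytop.eventually_ge_atTop 2, hs.logY.eventually_gt_atTop 0] with L h1 h2 h3 h4 h5 h6 h7
  have hz : (2 : ℝ) ≤ z L := by exact_mod_cast h5
  have hz0 : (0 : ℝ) < z L := by linarith
  have hY0 : (0 : ℝ) < Y L := by
    have : (2 : ℝ) ≤ Y L := by exact_mod_cast h6
    linarith
  have h8 : (z L : ℝ) * (z L : ℝ) ^ κ ≤ Y L := by
    have h9 : (z L : ℝ) * (z L : ℝ) ^ κ = Real.exp ((1 + κ) * Real.log (z L)) := by
      rw [add_mul, Real.exp_add, one_mul, Real.exp_log hz0, Real.rpow_def_of_pos hz0, mul_comm κ]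
    rw [h9, ← Real.exp_log hY0]
    exact Real.exp_le_exp.2 h1
  rw [mul_div_assoc', le_div_iff₀ h7]
  calc (z L : ℝ) * Real.log (Y L) ≤ z L * (5 / 2 * (δ / 3 * (z L : ℝ) ^ κ)) := by
        apply mul_le_mul_of_nonneg_left _ hz0.le
        linarith
    _ = (5 / 6 * δ) * ((z L : ℝ) * (z L : ℝ) ^ κ) := by ring
    _ ≤ (5 / 6 * δ) * Y L := by gcongr
    _ ≤ δ * Y L := by nlinarith

theorem cube (hs : Scale u v z Y) : ∀ᶠ L in atTop, Y L < (z L + 1) ^ 3 := by
  filter_upwards [hs.Yz, hs.logz.eventually_gt_atTop 0, hs.ztop.eventually_ge_atTop 2, hs.Ytop.eventually_ge_atTop 2] with L h1 h2 h3 h4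
  have hz : (2 : ℝ) ≤ z L := by exact_mod_cast h3
  have hY : (2 : ℝ) ≤ Y L := by exact_mod_cast h4
  have h5 : (Y L : ℝ) ≤ (z L : ℝ) ^ 3 := by
    rw [← Real.exp_log (show (0 : ℝ) < Y L by linarith), ← Real.exp_log (show (0 : ℝ) < (z L : ℝ) ^ 3 by positivity)]
    apply Real.exp_le_exp.2
    rw [Real.log_pow]
    push_cast
    linarith
  have h6 : Y L ≤ z L ^ 3 := by exact_mod_cast h5
  have h7 : z L ^ 3 < (z L + 1) ^ 3 := Nat.pow_lt_pow_left (Nat.lt_succ_self _) (by norm_num)
  omega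

theorem PI_bd (hs : Scale u v z Y) : ∀ᶠ L in atTop, ∀ N : ℕ,
    ((PI (z L) N).card : ℝ) ≤ 6 * N / Real.log (Y L) := by
  obtain ⟨N0, hN0⟩ := eventually_atTop.1 (pi_ev 1 one_pos)
  filter_upwards [hs.Yz, hs.ztop.eventually_ge_atTop (max N0 2), hs.logY.eventually_gt_atTop 0,
    hs.logz.eventually_gt_atTop 0] with L h1 h2 h3 h4
  intro N
  rcases le_or_gt N (z L) with h5 | h5
  · rw [show PI (z L) N = ∅ by
      unfold PI; rw [Finset.Ioc_eq_empty (by omega)]; simp]
    simp only [card_empty, Nat.cast_zero]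
    positivity
  · have h6 := hN0 N (by have := le_max_left N0 2; omega)
    have h7 : ((PI (z L) N).card : ℝ) ≤ Nat.primeCounting N := by exact_mod_cast card_PI_le _ _
    have h8 : (2 : ℝ) ≤ z L := by exact_mod_cast (le_max_right N0 2).trans h2
    have h9 : (z L : ℝ) ≤ N := by exact_mod_cast h5.le
    have h10 : Real.log (z L) ≤ Real.log N := Real.log_le_log (by linarith) h9
    have h11 : 0 < Real.log N := by linarith
    refine h7.trans (h6.trans ?_)
    rw [mul_div_assoc', div_le_div_iff₀ h11 h3]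
    have h12 : (0 : ℝ) ≤ N := Nat.cast_nonneg _
    calc (1 + 1) * (N : ℝ) * Real.log (Y L) ≤ (1 + 1) * N * (3 * Real.log N) := by
          apply mul_le_mul_of_nonneg_left _ (by positivity)
          linarith
      _ = 6 * N * Real.log N := by ring

theorem R1_bd (hs : Scale u v z Y) (δ : ℝ) (hδ : 0 < δ) : ∀ᶠ L in atTop,
    ∑ p ∈ PI (z L) (Y L / (z L + 1)), (1 : ℝ) / p ≤ δ := by
  have hu := hs.u1
  have hzr : Tendsto (fun L => (z L : ℝ)) atTop atTop := tendsto_natCast_atTop_atTop.comp hs.ztop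
  have hz1 : Tendsto (fun L => Real.log ((z L : ℝ) + 1) / Real.log (z L)) atTop (𝓝 1) := by
    have h1 : Tendsto (fun x : ℝ => Real.log (x + 1) / Real.log x) atTop (𝓝 1) := by
      have h2 : Tendsto (fun x : ℝ => Real.log (1 + 1 / x) / Real.log x + 1) atTop (𝓝 (0 + 1)) := by
        apply Tendsto.add_const
        have h3 : Tendsto (fun x : ℝ => Real.log (1 + 1 / x)) atTop (𝓝 0) := by
          have h4 : Tendsto (fun x : ℝ => 1 + 1 / x) atTop (𝓝 1) := by
            have := (tendsto_const_nhds (x := (1 : ℝ))).add (tendsto_const_nhds.div_atTop tendsto_id (a := (1 : ℝ)))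
            simpa using this
          have := (Real.continuousAt_log one_ne_zero).tendsto.comp h4
          simpa [Function.comp_def] using this
        exact h3.div_atTop Real.tendsto_log_atTop
      rw [zero_add] at h2
      refine h2.congr' ?_
      filter_upwards [eventually_gt_atTop (1 : ℝ)] with x hx
      have h5 := Real.log_pos hx
      have h6 : x + 1 = x * (1 + 1 / x) := by field_simp
      rw [h6, Real.log_mul (by positivity) (by positivity)]
      field_simp
      ring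
    exact h1.comp hzr
  have hfl : Tendsto (fun L => Real.log ((Y L : ℝ) / (z L + 1)) / Real.log (z L)) atTop (𝓝 (u - 1)) := by
    have h1 := hs.Yt.sub hz1
    refine h1.congr' ?_
    filter_upwards [hs.Ytop.eventually_ge_atTop 1] with L h2
    have h3 : (1 : ℝ) ≤ Y L := by exact_mod_cast h2
    rw [Real.log_div (by positivity) (by positivity), sub_div]
  have hft : Tendsto (fun L => (Y L : ℝ) / (z L + 1)) atTop atTop := by
    have h1 : Tendsto (fun L => Real.log ((Y L : ℝ) / (z L + 1))) atTop atTop := by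
      have h2 := hfl.pos_mul_atTop (by linarith) hs.logz
      refine h2.congr' ?_
      filter_upwards [hs.logz.eventually_gt_atTop 0] with L hL
      field_simp
    have h3 := Real.tendsto_exp_atTop.comp h1
    refine h3.congr' ?_
    filter_upwards [hs.Ytop.eventually_ge_atTop 1] with L h2
    have h3 : (1 : ℝ) ≤ Y L := by exact_mod_cast h2
    simp only [Function.comp]
    rw [Real.exp_log (by positivity)]
  have h1 := R1_diff hft hzr (show 0 < u - 1 by linarith) hfl
  have h2 : Real.log (u - 1) ≤ 0 := Real.log_nonpos (by linarith) (by linarith [hs.u2])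
  filter_upwards [h1.eventually_lt_const (show Real.log (u - 1) < δ by linarith)] with L h3
  have h4 : ⌊(Y L : ℝ) / (z L + 1)⌋₊ = Y L / (z L + 1) := by
    have := Nat.floor_div_eq_div (K := ℝ) (Y L) (z L + 1)
    push_cast at this
    exact this
  rw [h4, Nat.floor_natCast] at h3
  rcases le_or_gt (z L) (Y L / (z L + 1)) with h5 | h5
  · rw [sum_PI_inv h5]
    exact h3.le
  · rw [show PI (z L) (Y L / (z L + 1)) = ∅ by
      unfold PI; rw [Finset.Ioc_eq_empty (by omega)]; simp]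
    simp [hδ.le]

theorem GG_bd (hs : Scale u v z Y) (δ : ℝ) (hδ : 0 < δ) : ∀ᶠ L in atTop,
    ∀ S : Finset ℕ, ∑ q ∈ S, (1 : ℝ) / q ≤ 6 / (Real.log L) ^ 2 → ∀ T : ℕ, T ≤ Y L →
      ((GG (z L) S T).card : ℝ) ≤ 1 + (PI (z L) T).card + δ * T / Real.log (Y L) := by
  have e1 := hs.R1_bd (δ / 12) (by positivity)
  have e2 := Real.tendsto_log_atTop.eventually_ge_atTop (36 / δ)
  filter_upwards [e1, e2, hs.PI_bd, eventually_gt_atTop (1 : ℝ), hs.cube, hs.YL, hs.logY.eventually_gt_atTop 0] with L h1 h2 h3 h4 h5 h6 h7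
  intro S hS T hT
  have hlog := Real.log_pos h4
  have hT0 : (0 : ℝ) ≤ T := Nat.cast_nonneg _
  have hG := GG_le (z L) S T (lt_of_le_of_lt hT h5)
  have hG' : ((GG (z L) S T).card : ℝ) ≤ 1 + (PI (z L) T).card +
      ∑ p ∈ PI (z L) (T / (z L + 1)), ((PI (z L) (T / p)).card : ℝ) +
      ∑ q ∈ S, ((T / q : ℕ) : ℝ) := by exact_mod_cast hG
  have hA : ∑ p ∈ PI (z L) (T / (z L + 1)), ((PI (z L) (T / p)).card : ℝ) ≤ (δ / 2) * T / Real.log (Y L) := by
    have hsub : PI (z L) (T / (z L + 1)) ⊆ PI (z L) (Y L / (z L + 1)) := by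
      intro p hp
      have h6 := mem_PI.1 hp
      exact mem_PI.2 ⟨⟨h6.1.1, h6.1.2.trans (Nat.div_le_div_right hT)⟩, h6.2⟩
    calc ∑ p ∈ PI (z L) (T / (z L + 1)), ((PI (z L) (T / p)).card : ℝ)
        ≤ ∑ p ∈ PI (z L) (T / (z L + 1)), 6 * (T : ℝ) / Real.log (Y L) * (1 / p) := by
          apply Finset.sum_le_sum
          intro p hp
          refine (h3 (T / p)).trans ?_
          have h6 : ((T / p : ℕ) : ℝ) ≤ T / p := Nat.cast_div_le
          calc 6 * ((T / p : ℕ) : ℝ) / Real.log (Y L) ≤ 6 * ((T : ℝ) / p) / Real.log (Y L) := by gcongr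
            _ = _ := by ring
      _ = 6 * (T : ℝ) / Real.log (Y L) * ∑ p ∈ PI (z L) (T / (z L + 1)), (1 : ℝ) / p := by rw [Finset.mul_sum]
      _ ≤ 6 * (T : ℝ) / Real.log (Y L) * (δ / 12) := by
          apply mul_le_mul_of_nonneg_left _ (by positivity)
          refine le_trans ?_ h1
          apply Finset.sum_le_sum_of_subset_of_nonneg hsub
          intro p _ _
          positivity
      _ = _ := by ring
  have hB : ∑ q ∈ S, ((T / q : ℕ) : ℝ) ≤ (δ / 2) * T / Real.log (Y L) := by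
    calc ∑ q ∈ S, ((T / q : ℕ) : ℝ) ≤ ∑ q ∈ S, (T : ℝ) * (1 / q) := by
          apply Finset.sum_le_sum
          intro q _
          refine Nat.cast_div_le.trans ?_
          rw [mul_one_div]
      _ = T * ∑ q ∈ S, (1 : ℝ) / q := by rw [Finset.mul_sum]
      _ ≤ T * (6 / (Real.log L) ^ 2) := by gcongr
      _ = T * ((6 / Real.log L) / Real.log L) := by field_simp
      _ ≤ T * ((δ / 6) / Real.log L) := by
          apply mul_le_mul_of_nonneg_left _ hT0
          apply div_le_div_of_nonneg_right _ hlog.le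
          rw [div_le_iff₀ hlog]
          rw [div_le_iff₀ hδ] at h2
          linarith
      _ ≤ T * ((δ / 2) / Real.log (Y L)) := by
          apply mul_le_mul_of_nonneg_left _ hT0
          rw [div_le_div_iff₀ hlog h7]
          nlinarith
      _ = _ := by ring
  calc ((GG (z L) S T).card : ℝ) ≤ _ := hG'
    _ ≤ 1 + (PI (z L) T).card + (δ / 2) * T / Real.log (Y L) + (δ / 2) * T / Real.log (Y L) := by gcongr
    _ = _ := by ring

end Scale

theorem small_terms (δ : ℝ) (hδ : 0 < δ) : ∀ᶠ N : ℕ in atTop,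
    (Nat.log 2 N : ℝ) + 82 ≤ δ * (N / Real.log N) := by
  have h1 := (Real.isLittleO_pow_log_id_atTop (n := 2)).bound (show (0 : ℝ) < δ / 168 by positivity)
  have hYr : Tendsto (fun N : ℕ => (N : ℝ)) atTop atTop := tendsto_natCast_atTop_atTop
  filter_upwards [hYr.eventually h1, hYr.eventually_ge_atTop (Real.exp 1)] with N h4 h7
  have hY0 : (0 : ℝ) < N := lt_of_lt_of_le (Real.exp_pos 1) h7
  have hlY : 1 ≤ Real.log N := by
    rw [Real.le_log_iff_exp_le hY0]; exact h7
  rw [id, Real.norm_of_nonneg (pow_nonneg (by linarith) 2), Real.norm_of_nonneg hY0.le] at h4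
  have h8 : (Nat.log 2 N : ℝ) ≤ 2 * Real.log N := by
    have h9 := Real.natLog_le_logb N 2
    have h10 : Real.logb 2 N ≤ 2 * Real.log N := by
      unfold Real.logb
      rw [div_le_iff₀ (Real.log_pos (by norm_num))]
      have := Real.log_two_gt_d9
      nlinarith
    have h11 : ((2 : ℕ) : ℝ) = 2 := by norm_num
    rw [h11] at h9
    linarith
  rw [mul_div_assoc', le_div_iff₀ (by linarith)]
  calc ((Nat.log 2 N : ℝ) + 82) * Real.log N ≤ (2 * Real.log N + 82 * Real.log N) * Real.log N := by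
        gcongr
        linarith
    _ = 84 * Real.log N ^ 2 := by ring
    _ ≤ 84 * (δ / 168 * N) := by gcongr
    _ ≤ _ := by nlinarith

theorem RR_HH {X : ℝ} {z : ℕ} (hz : z ≤ yy X) (S : Finset ℕ) (ps T : ℕ) :
    RR (WZ X z S ps) T ≤ (HH z S ps T).card := by
  unfold RR
  apply Finset.card_le_card
  intro h hh
  rw [Finset.mem_filter] at hh
  refine mem_HH.2 ⟨Finset.mem_Icc.1 hh.1, ?_⟩
  intro p hp hd
  by_contra hcon
  push Not at hcon
  have h1 : p ∈ PZ X z S ps := (mem_PZ hz).2 ⟨hcon.1, hp, hcon.2.1, hcon.2.2⟩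
  exact Nat.not_coprime_of_dvd_of_dvd hp.one_lt hd (prime_dvd_WZ h1) hh.2

/-- upper bound for the number of the integers prime to the modulus -/
theorem RR_upper {u v : ℝ} {z Y : ℝ → ℕ} (hs : Scale u v z Y) (δ : ℝ) (hδ : 0 < δ) : ∃ Z : ℕ, ∀ᶠ X : ℝ in atTop,
    ∀ (ps : ℕ) (S : Finset ℕ), GoodP Z ps → GoodS X S → z (Real.log X) ≤ yy X → ∀ T : ℕ, T ≤ Y (Real.log X) →
      (RR (WZ X (z (Real.log X)) S ps) T : ℝ) ≤
        T / Real.log (Y (Real.log X)) + δ * (Y (Real.log X) / Real.log (Y (Real.log X))) := by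
  refine ⟨⌈64 / δ⌉₊, ?_⟩
  have e1 := hs.GG_bd (min (δ / 4) 1) (by positivity)
  have e2 := hs.PI_bd
  have e3 := hs.Ytop.eventually (pi_unif (δ / 4) (by positivity))
  have e4 := hs.Ytop.eventually (small_terms (δ / 4) (by positivity))
  have ev := ((e1.and e2).and (e3.and e4)).and ((eventually_gt_atTop (1 : ℝ)).and (hs.logY.eventually_gt_atTop 0))
  filter_upwards [Real.tendsto_log_atTop.eventually ev, eventually_ge_atTop (1 : ℝ)] with X hX hX1
  obtain ⟨⟨⟨h1, h2⟩, h3, h4⟩, h5, h5'⟩ := hX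
  intro ps S hps hS hzy T hT
  have hS2 := hS.2
  set L := Real.log X with hL
  have hlog := Real.log_pos h5
  set ℓ := Real.log (Y L) with hℓ
  have hmin1 : min (δ / 4) 1 ≤ 1 := min_le_right _ _
  have hmin2 : min (δ / 4) 1 ≤ δ / 4 := min_le_left _ _
  have g1 : ∀ T : ℕ, T ≤ Y L → ((GG (z L) S T).card : ℝ) ≤ 1 + 8 / ℓ * T := by
    intro T hT
    have g2 := h1 S hS2 T hT
    have g3 := h2 T
    have hT0 : (0 : ℝ) ≤ T := Nat.cast_nonneg _
    have g4 : min (δ / 4) 1 * T / ℓ ≤ 1 * T / ℓ := by gcongr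
    have g5 : (0 : ℝ) ≤ 1 * T / ℓ := by positivity
    calc ((GG (z L) S T).card : ℝ) ≤ 1 + 6 * T / ℓ + 1 * T / ℓ + 1 * T / ℓ := by linarith
      _ = _ := by ring
  have hYℓ : 0 ≤ (Y L : ℝ) / ℓ := by positivity
  have hTY : (T : ℝ) ≤ Y L := by exact_mod_cast hT
  have g5 : ((GG (z L) S T).card : ℝ) ≤ 1 + T / ℓ + δ / 2 * (Y L / ℓ) := by
    have g2 := h1 S hS2 T hT
    have g3 : ((PI (z L) T).card : ℝ) ≤ Nat.primeCounting T := by exact_mod_cast card_PI_le _ _
    have g4 := (abs_le.1 (h3 T hT)).2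
    have g6 : min (δ / 4) 1 * T / ℓ ≤ δ / 4 * (Y L / ℓ) := by
      rw [mul_div_assoc]
      have : (T : ℝ) / ℓ ≤ Y L / ℓ := by gcongr
      have h0 : (0 : ℝ) ≤ T / ℓ := by positivity
      exact mul_le_mul hmin2 this h0 (by positivity)
    linarith
  have g6 : (RR (WZ X (z L) S ps) T : ℝ) ≤ (HH (z L) S ps T).card := by exact_mod_cast RR_HH hzy S ps T
  have hlog2 : (0 : ℝ) ≤ Nat.log 2 (Y L) := Nat.cast_nonneg _
  rcases hps with rfl | ⟨hps, hpZ⟩
  · have g7 : ((HH (z L) S 1 T).card : ℝ) ≤ (GG (z L) S T).card := by exact_mod_cast Finset.card_le_card (HH_one (z L) S T)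
    nlinarith
  · have g7 : ((HH (z L) S ps T).card : ℝ) ≤ (GG (z L) S T).card + (HH (z L) S ps (T / ps)).card := by
      exact_mod_cast HH_rec (z L) S ps T hps
    have hTps : T / ps ≤ Y L := (Nat.div_le_self _ _).trans hT
    have g8 := HH_bound (z L) S ps (Y L) hps (8 / ℓ) (by positivity) g1 (T / ps) hTps
    have g9 : (Nat.log 2 (T / ps) : ℝ) ≤ Nat.log 2 (Y L) := by
      exact_mod_cast Nat.log_mono_right hTps
    have g10 : 2 * (8 / ℓ) * ((T / ps : ℕ) : ℝ) ≤ δ / 4 * (Y L / ℓ) := by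
      have g11 : ((T / ps : ℕ) : ℝ) ≤ Y L / ps := by
        refine Nat.cast_div_le.trans ?_
        gcongr
      have g12 : 64 / δ ≤ ps := by
        refine (Nat.le_ceil _).trans ?_
        exact_mod_cast hpZ.le
      have g13 : (0 : ℝ) < ps := by exact_mod_cast hps.pos
      rw [div_le_iff₀ hδ] at g12
      calc 2 * (8 / ℓ) * ((T / ps : ℕ) : ℝ) ≤ 2 * (8 / ℓ) * (Y L / ps) := by gcongr
        _ = 16 / ps * (Y L / ℓ) := by field_simp; ring
        _ ≤ δ / 4 * (Y L / ℓ) := by
            apply mul_le_mul_of_nonneg_right _ hYℓ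
            rw [div_le_iff₀ g13]
            linarith
    linarith

/-- lower bound -/
theorem RR_lower {u v : ℝ} {z Y : ℝ → ℕ} (hs : Scale u v z Y) (δ : ℝ) (hδ : 0 < δ) : ∀ᶠ L : ℝ in atTop,
    ∀ (W : ℕ), (∀ p : ℕ, p.Prime → p ∣ W → p ≤ z L) → ∀ T : ℕ, T ≤ Y L →
      T / Real.log (Y L) - δ * (Y L / Real.log (Y L)) ≤ (RR W T : ℝ) := by
  filter_upwards [hs.Ytop.eventually (pi_unif (δ / 2) (by positivity)), hs.z_small (δ / 2) (by positivity)] with L h1 h2
  intro W hW T hT
  have h3 := (abs_le.1 (h1 T hT)).1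
  have h4 : Nat.primeCounting T ≤ RR W T + z L := by
    have h5 : (range (T + 1)).filter Nat.Prime ⊆ ((Icc 1 T).filter (fun t => t.Coprime W)) ∪ Icc 1 (z L) := by
      intro p hp
      rw [mem_filter, mem_range] at hp
      rw [mem_union, mem_filter, mem_Icc, mem_Icc]
      rcases le_or_gt p (z L) with h | h
      · right
        exact ⟨hp.2.one_lt.le, h⟩
      · left
        refine ⟨⟨hp.2.one_lt.le, by omega⟩, ?_⟩
        rw [hp.2.coprime_iff_not_dvd]
        intro hd
        have := hW p hp.2 hd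
        omega
    have h6 : Nat.primeCounting T = ((range (T + 1)).filter Nat.Prime).card := by
      unfold Nat.primeCounting Nat.primeCounting'
      rw [Nat.count_eq_card_filter_range]
    rw [h6]
    refine (card_le_card h5).trans ((card_union_le _ _).trans ?_)
    rw [Nat.card_Icc]
    unfold RR
    omega
  have h4' : (Nat.primeCounting T : ℝ) ≤ RR W T + z L := by exact_mod_cast h4
  linarith

end Pool.Agent.T2H52.MG
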