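import Mathlib

/-! The number of the primes `p ≤ y` for which `m - p` is prime, and its expected size. -/

set_option autoImplicit false

open Finset

namespace Pool.Agent.T2H52.MG

/-- the twin prime constant `∏_{p > 2} (1 - 1 / (p - 1) ^ 2)` -/
noncomputable def C₂ : ℝ := ⨅ z : ℕ, ∏ p ∈ (Icc 3 z).filter Nat.Prime, (1 - 1 / ((p : ℝ) - 1) ^ 2)

/-- the singular series `2 C₂ ∏_{p ∣ m, p > 2} (p - 1) / (p - 2)` of an even number `m` -/
noncomputable def sing (m : ℕ) : ℝ :=
  2 * C₂ * ∏ p ∈ m.primeFactors.filter (fun p => 2 < p), ((p : ℝ) - 1) / ((p : ℝ) - 2)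

/-- the number of the primes `p ≤ y` for which `m - p` is a prime -/
noncomputable def reps (m : ℕ) (y : ℝ) : ℕ :=
  ((Icc 1 ⌊y⌋₊).filter (fun p => p.Prime ∧ (m - p).Prime)).card

/-- the expected number `sing m * y / (log y * log m)` -/
noncomputable def expected (m : ℕ) (y : ℝ) : ℝ := sing m * (y / (Real.log y * Real.log m))

end Pool.Agent.T2H52.MG
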