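import Mathlib
import Pool.Agent.T2H52.MG.Defs

/-! The mean value of the singular series, truncated. -/

set_option autoImplicit false

open Finset Filter Topology

namespace Pool.Agent.T2H52.MG

/-- the local factor of the twin prime constant -/
noncomputable def cf (p : ℕ) : ℝ := 1 - 1 / ((p : ℝ) - 1) ^ 2

theorem cf_pos {p : ℕ} (hp : 3 ≤ p) : 0 < cf p := by
  unfold cf
  have h1 : (3 : ℝ) ≤ p := by exact_mod_cast hp
  have h2 : (1 : ℝ) < ((p : ℝ) - 1) ^ 2 := by nlinarith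
  rw [sub_pos, div_lt_one (by linarith)]
  exact h2

theorem cf_le (p : ℕ) : cf p ≤ 1 := by
  unfold cf
  have : 0 ≤ 1 / ((p : ℝ) - 1) ^ 2 := by positivity
  linarith

theorem prod_all (n : ℕ) : ∏ p ∈ Icc 3 (n + 2), cf p = ((n : ℝ) + 2) / (2 * (n + 1)) := by
  induction n with
  | zero => simp
  | succ n ih =>
    have h1 : Icc 3 (n + 1 + 2) = insert (n + 3) (Icc 3 (n + 2)) := by
      ext x; simp only [mem_Icc, mem_insert]; omega
    rw [h1, prod_insert (by simp), ih]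
    unfold cf
    push_cast
    have h2 : (n : ℝ) + 1 ≠ 0 := by positivity
    have h3 : (n : ℝ) + 2 ≠ 0 := by positivity
    have h4 : (n : ℝ) + 1 + 1 ≠ 0 := by positivity
    have h5 : (n : ℝ) + 3 - 1 = n + 2 := by ring
    rw [h5]
    field_simp
    ring

theorem half_le_prod (z : ℕ) : 1 / 2 ≤ ∏ p ∈ (Icc 3 z).filter Nat.Prime, cf p := by
  have h1 : ∏ p ∈ Icc 3 (z + 2), cf p ≤ ∏ p ∈ (Icc 3 z).filter Nat.Prime, cf p := by
    apply prod_le_prod_of_subset_of_le_one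
    · intro p hp
      rw [mem_filter, mem_Icc] at hp
      rw [mem_Icc]
      omega
    · intro p hp
      exact (cf_pos (mem_Icc.1 hp).1).le
    · intro p _ _
      exact cf_le p
  rw [prod_all] at h1
  refine le_trans ?_ h1
  rw [div_le_div_iff₀ (by norm_num) (by positivity)]
  linarith

theorem C₂_eq : C₂ = ⨅ z : ℕ, ∏ p ∈ (Icc 3 z).filter Nat.Prime, cf p := rfl

theorem bdd : BddBelow (Set.range (fun z : ℕ => ∏ p ∈ (Icc 3 z).filter Nat.Prime, cf p)) :=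
  ⟨1 / 2, by rintro _ ⟨z, rfl⟩; exact half_le_prod z⟩

theorem C₂_ge : 1 / 2 ≤ C₂ := by
  rw [C₂_eq]
  exact le_ciInf half_le_prod

theorem C₂_le (z : ℕ) : C₂ ≤ ∏ p ∈ (Icc 3 z).filter Nat.Prime, cf p := by
  rw [C₂_eq]
  exact ciInf_le bdd z

theorem C₂_le_one : C₂ ≤ 1 := by
  have := C₂_le 0
  simpa using this

theorem C₂_near (ε : ℝ) (hε : 0 < ε) : ∃ Z : ℕ, ∏ p ∈ (Icc 3 Z).filter Nat.Prime, cf p < C₂ + ε := by
  rw [C₂_eq]
  exact exists_lt_of_ciInf_lt (by linarith)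

/-- the product over the primes of `Q` -/
theorem prod_Q_ge {Q : Finset ℕ} {z : ℕ} (hQ : ∀ q ∈ Q, q.Prime ∧ 3 ≤ q ∧ q ≤ z) : C₂ ≤ ∏ q ∈ Q, cf q := by
  refine (C₂_le z).trans ?_
  apply prod_le_prod_of_subset_of_le_one
  · intro q hq
    have := hQ q hq
    rw [mem_filter, mem_Icc]
    exact ⟨this.2, this.1⟩
  · intro p hp
    exact (cf_pos (mem_Icc.1 (mem_filter.1 hp).1).1).le
  · intro p _ _
    exact cf_le p

theorem prod_Q_le {Q : Finset ℕ} {Z : ℕ} (hQ3 : ∀ q ∈ Q, 3 ≤ q) (hQ : ∀ q : ℕ, q.Prime → 3 ≤ q → q ≤ Z → q ∈ Q) :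
    ∏ q ∈ Q, cf q ≤ ∏ p ∈ (Icc 3 Z).filter Nat.Prime, cf p := by
  apply prod_le_prod_of_subset_of_le_one
  · intro q hq
    rw [mem_filter, mem_Icc] at hq
    exact hQ q hq.2 hq.1.1 hq.1.2
  · intro p hp
    exact (cf_pos (hQ3 p hp)).le
  · intro p _ _
    exact cf_le p

/-- the truncated product over the prime divisors -/
noncomputable def fQ (Q : Finset ℕ) (s : ℕ) : ℝ := ∏ q ∈ Q.filter (fun q => q ∣ s), (1 + 1 / ((q : ℝ) - 2))

theorem fQ_ge (Q : Finset ℕ) (hQ : ∀ q ∈ Q, 3 ≤ q) (s : ℕ) : 1 ≤ fQ Q s := by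
  unfold fQ
  apply Finset.one_le_prod
  intro q hq
  have h1 : (3 : ℝ) ≤ q := by exact_mod_cast hQ q (mem_filter.1 hq).1
  have : 0 ≤ 1 / ((q : ℝ) - 2) := div_nonneg zero_le_one (by linarith)
  linarith

theorem count_dvd (D : Finset ℕ) (hD : ∀ q ∈ D, q.Prime ∧ 3 ≤ q) (Y : ℕ) :
    (((Icc 1 Y).filter Even).filter (fun s => ∀ q ∈ D, q ∣ s)).card = Y / (2 * ∏ q ∈ D, q) := by
  have h1 : ((Icc 1 Y).filter Even).filter (fun s => ∀ q ∈ D, q ∣ s) = (Ioc 0 Y).filter (fun s => (2 * ∏ q ∈ D, q) ∣ s) := by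
    ext s
    rw [mem_filter, mem_filter, mem_filter, mem_Icc, mem_Ioc]
    have hco : Nat.Coprime 2 (∏ q ∈ D, q) := by
      apply Nat.Coprime.prod_right
      intro q hq
      exact (Nat.coprime_primes Nat.prime_two (hD q hq).1).2 (by have := (hD q hq).2; omega)
    constructor
    · rintro ⟨⟨h1, h2⟩, h3⟩
      refine ⟨by omega, ?_⟩
      apply Nat.Coprime.mul_dvd_of_dvd_of_dvd hco h2.two_dvd
      exact Finset.prod_primes_dvd s (fun q hq => (hD q hq).1.prime) h3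
    · rintro ⟨h1, h2⟩
      refine ⟨⟨by omega, even_iff_two_dvd.2 ((Dvd.intro _ rfl).trans h2)⟩, ?_⟩
      intro q hq
      exact (Finset.dvd_prod_of_mem _ hq).trans ((Dvd.intro_left _ rfl).trans h2)
  rw [h1, Nat.Ioc_filter_dvd_card_eq_div]

theorem prod_tel (n : ℕ) : ∏ q ∈ Icc 3 (n + 2), (1 + 1 / ((q : ℝ) - 2)) = (n : ℝ) + 1 := by
  induction n with
  | zero => simp
  | succ n ih =>
    have h1 : Icc 3 (n + 1 + 2) = insert (n + 3) (Icc 3 (n + 2)) := by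
      ext x; simp only [mem_Icc, mem_insert]; omega
    rw [h1, prod_insert (by simp), ih]
    push_cast
    have h5 : (n : ℝ) + 3 - 2 = n + 1 := by ring
    rw [h5]
    field_simp

theorem prod_Q_all {Q : Finset ℕ} {z : ℕ} (hQ : ∀ q ∈ Q, 3 ≤ q ∧ q ≤ z) :
    ∏ q ∈ Q, (1 + 1 / ((q : ℝ) - 2)) ≤ z + 1 := by
  have h1 : ∏ q ∈ Q, (1 + 1 / ((q : ℝ) - 2)) ≤ ∏ q ∈ Icc 3 (z + 2), (1 + 1 / ((q : ℝ) - 2)) := by
    apply Finset.prod_le_prod_of_subset_of_one_le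
    · intro q hq
      have := hQ q hq
      rw [mem_Icc]; omega
    · intro q hq
      have h1 : (3 : ℝ) ≤ q := by exact_mod_cast (hQ q hq).1
      have : 0 ≤ 1 / ((q : ℝ) - 2) := div_nonneg zero_le_one (by linarith)
      linarith
    · intro q hq _
      have h1 : (3 : ℝ) ≤ q := by exact_mod_cast (mem_Icc.1 hq).1
      have : 0 ≤ 1 / ((q : ℝ) - 2) := div_nonneg zero_le_one (by linarith)
      linarith
  rw [prod_tel] at h1
  exact h1

theorem avg_fQ {Q : Finset ℕ} {z : ℕ} (hQ : ∀ q ∈ Q, q.Prime ∧ 3 ≤ q ∧ q ≤ z) (Y : ℕ) :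
    |∑ s ∈ (Icc 1 Y).filter Even, fQ Q s - (Y : ℝ) / 2 * (∏ q ∈ Q, cf q)⁻¹| ≤ z + 1 := by
  have h1 : ∀ s : ℕ, fQ Q s = ∑ D ∈ Q.powerset, (∏ q ∈ D, 1 / ((q : ℝ) - 2)) * (if ∀ q ∈ D, q ∣ s then 1 else 0) := by
    intro s
    unfold fQ
    rw [Finset.prod_filter]
    have : ∀ q ∈ Q, (if q ∣ s then (1 + 1 / ((q : ℝ) - 2)) else 1) = 1 + (if q ∣ s then 1 / ((q : ℝ) - 2) else 0) := by
      intro q _
      split_ifs
      · rfl
      · simp
    rw [Finset.prod_congr rfl this, Finset.prod_one_add]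
    apply Finset.sum_congr rfl
    intro D _
    split_ifs with h
    · rw [mul_one]
      apply Finset.prod_congr rfl
      intro q hq
      rw [if_pos (h q hq)]
    · push Not at h
      obtain ⟨q, hq, hd⟩ := h
      rw [mul_zero]
      apply Finset.prod_eq_zero hq
      rw [if_neg hd]
  have h2 : ∑ s ∈ (Icc 1 Y).filter Even, fQ Q s =
      ∑ D ∈ Q.powerset, (∏ q ∈ D, 1 / ((q : ℝ) - 2)) * ((Y / (2 * ∏ q ∈ D, q) : ℕ) : ℝ) := by
    simp_rw [h1]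
    rw [Finset.sum_comm]
    apply Finset.sum_congr rfl
    intro D hD
    rw [← Finset.mul_sum]
    congr 1
    rw [← count_dvd D (fun q hq => ⟨(hQ q (mem_powerset.1 hD hq)).1, (hQ q (mem_powerset.1 hD hq)).2.1⟩) Y,
      Finset.card_filter]
    push_cast
    rfl
  have h3 : (Y : ℝ) / 2 * (∏ q ∈ Q, cf q)⁻¹ =
      ∑ D ∈ Q.powerset, (∏ q ∈ D, 1 / ((q : ℝ) - 2)) * ((Y : ℝ) / (2 * ((∏ q ∈ D, q : ℕ) : ℝ))) := by
    have h4 : (∏ q ∈ Q, cf q)⁻¹ = ∏ q ∈ Q, (1 + 1 / ((q : ℝ) * ((q : ℝ) - 2))) := by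
      rw [← Finset.prod_inv_distrib]
      apply Finset.prod_congr rfl
      intro q hq
      have h5 : (3 : ℝ) ≤ q := by exact_mod_cast (hQ q hq).2.1
      unfold cf
      have h6 : (q : ℝ) - 1 ≠ 0 := by linarith
      have h7 : (q : ℝ) - 2 ≠ 0 := by linarith
      have h8 : (q : ℝ) ≠ 0 := by linarith
      have h9 : 1 - 1 / ((q : ℝ) - 1) ^ 2 = (q * (q - 2)) / ((q : ℝ) - 1) ^ 2 := by
        field_simp
        ring
      rw [h9, inv_div]
      field_simp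
      ring
    rw [h4, Finset.prod_one_add, Finset.mul_sum]
    apply Finset.sum_congr rfl
    intro D hD
    have h5 : ∏ q ∈ D, 1 / ((q : ℝ) * ((q : ℝ) - 2)) = (∏ q ∈ D, 1 / ((q : ℝ) - 2)) * (((∏ q ∈ D, q : ℕ) : ℝ))⁻¹ := by
      push_cast
      rw [← Finset.prod_inv_distrib, ← Finset.prod_mul_distrib]
      apply Finset.prod_congr rfl
      intro q hq
      rw [one_div, mul_inv, one_div]
      ring
    rw [h5]
    have h6 : ((∏ q ∈ D, q : ℕ) : ℝ) ≠ 0 := by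
      have : 0 < ∏ q ∈ D, q := Finset.prod_pos fun q hq => (hQ q (mem_powerset.1 hD hq)).1.pos
      exact_mod_cast this.ne'
    field_simp
  rw [h2, h3, ← Finset.sum_sub_distrib]
  refine (Finset.abs_sum_le_sum_abs _ _).trans ?_
  have h4 : ∑ D ∈ Q.powerset, |(∏ q ∈ D, 1 / ((q : ℝ) - 2)) * ((Y / (2 * ∏ q ∈ D, q) : ℕ) : ℝ) -
      (∏ q ∈ D, 1 / ((q : ℝ) - 2)) * ((Y : ℝ) / (2 * ((∏ q ∈ D, q : ℕ) : ℝ)))| ≤
      ∑ D ∈ Q.powerset, ∏ q ∈ D, 1 / ((q : ℝ) - 2) := by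
    apply Finset.sum_le_sum
    intro D hD
    have h5 : 0 ≤ ∏ q ∈ D, 1 / ((q : ℝ) - 2) := by
      apply Finset.prod_nonneg
      intro q hq
      have h5 : (3 : ℝ) ≤ q := by exact_mod_cast (hQ q (mem_powerset.1 hD hq)).2.1
      exact div_nonneg zero_le_one (by linarith)
    rw [← mul_sub, abs_mul, abs_of_nonneg h5]
    apply mul_le_of_le_one_right h5
    have hpos : 0 < 2 * ∏ q ∈ D, q := by
      have : 0 < ∏ q ∈ D, q := Finset.prod_pos fun q hq => (hQ q (mem_powerset.1 hD hq)).1.pos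
      omega
    have h6 : (2 * ((∏ q ∈ D, q : ℕ) : ℝ)) = ((2 * ∏ q ∈ D, q : ℕ) : ℝ) := by push_cast; ring
    rw [h6, abs_le]
    have h7 : ((Y / (2 * ∏ q ∈ D, q) : ℕ) : ℝ) ≤ (Y : ℝ) / ((2 * ∏ q ∈ D, q : ℕ) : ℝ) := Nat.cast_div_le
    have h8 : (Y : ℝ) / ((2 * ∏ q ∈ D, q : ℕ) : ℝ) < ((Y / (2 * ∏ q ∈ D, q) : ℕ) : ℝ) + 1 := by
      rw [div_lt_iff₀ (by exact_mod_cast hpos)]
      have := Nat.lt_mul_div_succ Y hpos
      have h9 : (Y : ℝ) < ((2 * ∏ q ∈ D, q : ℕ) : ℝ) * (((Y / (2 * ∏ q ∈ D, q) : ℕ) : ℝ) + 1) := by exact_mod_cast this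
      linarith
    constructor <;> linarith
  refine h4.trans ?_
  rw [← Finset.prod_one_add]
  exact prod_Q_all fun q hq => (hQ q hq).2

end Pool.Agent.T2H52.MG
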