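import Mathlib
import Pool.Agent.T2H52.MG.A4
import Pool.Agent.T2H52.MG.A5

/-! The singular series in the rows, and the choice of the class of the rows. -/

set_option autoImplicit false

open Finset Filter Topology
open Pool.Agent.H378R2
open Pool.Agent.H510R2.Maier

namespace Pool.Agent.T2H52.MG

/-- the odd primes of the modulus -/
noncomputable def QZ (X : ℝ) (z : ℕ) (S : Finset ℕ) (ps : ℕ) : Finset ℕ := (PZ X z S ps).filter (fun q => 3 ≤ q)

theorem QZ_prop {X : ℝ} {z : ℕ} {S : Finset ℕ} {ps q : ℕ} (h : q ∈ QZ X z S ps) : q.Prime ∧ 3 ≤ q ∧ q ≤ z := by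
  obtain ⟨h1, h2⟩ := mem_filter.1 h
  exact ⟨PZ_prime h1, h2, PZ_le h1⟩

theorem two_C₂ : 1 ≤ 2 * C₂ := by have := C₂_ge; linarith

theorem sing_eq (m : ℕ) : sing m = 2 * C₂ * ∏ p ∈ m.primeFactors.filter (fun p => 2 < p), (1 + 1 / ((p : ℝ) - 2)) := by
  unfold sing
  congr 1
  apply Finset.prod_congr rfl
  intro p hp
  have h1 : (3 : ℝ) ≤ p := by exact_mod_cast (mem_filter.1 hp).2
  have h2 : (p : ℝ) - 2 ≠ 0 := by linarith
  field_simp
  ring

theorem fac_ge {q : ℕ} (h : 3 ≤ q) : 1 ≤ 1 + 1 / ((q : ℝ) - 2) := by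
  have h1 : (3 : ℝ) ≤ q := by exact_mod_cast h
  have : 0 ≤ 1 / ((q : ℝ) - 2) := div_nonneg zero_le_one (by linarith)
  linarith

theorem sing_ge {Q : Finset ℕ} (hQ : ∀ q ∈ Q, q.Prime ∧ 3 ≤ q) {m : ℕ} (hm : 0 < m) : 2 * C₂ * fQ Q m ≤ sing m := by
  rw [sing_eq]
  apply mul_le_mul_of_nonneg_left _ (by linarith [two_C₂])
  unfold fQ
  apply Finset.prod_le_prod_of_subset_of_one_le
  · intro q hq
    rw [mem_filter] at hq ⊢
    have := hQ q hq.1
    exact ⟨Nat.mem_primeFactors.2 ⟨this.1, hq.2, by omega⟩, by omega⟩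
  · intro q hq
    have := fac_ge (hQ q (mem_filter.1 hq).1).2
    linarith
  · intro q hq _
    exact fac_ge (by have := (mem_filter.1 hq).2; omega)

theorem sing_le {Q : Finset ℕ} (hQ : ∀ q ∈ Q, q.Prime ∧ 3 ≤ q) (m : ℕ) : sing m ≤ 2 * C₂ * fQ Q m *
    Real.exp (∑ p ∈ (m.primeFactors.filter (fun p => 2 < p)).filter (fun p => p ∉ Q), 3 / (p : ℝ)) := by
  classical
  rw [sing_eq, mul_assoc (2 * C₂)]
  apply mul_le_mul_of_nonneg_left _ (by linarith [two_C₂])
  rw [← Finset.prod_filter_mul_prod_filter_not (m.primeFactors.filter (fun p => 2 < p)) (fun p => p ∈ Q)]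
  apply mul_le_mul
  · unfold fQ
    apply Finset.prod_le_prod_of_subset_of_one_le
    · intro q hq
      obtain ⟨h1, h2⟩ := mem_filter.1 hq
      exact mem_filter.2 ⟨h2, Nat.dvd_of_mem_primeFactors (mem_filter.1 h1).1⟩
    · intro q hq
      obtain ⟨h1, h2⟩ := mem_filter.1 hq
      have := fac_ge (hQ q h2).2
      linarith
    · intro q hq _
      exact fac_ge (hQ q (mem_filter.1 hq).1).2
  · rw [Real.exp_sum]
    apply Finset.prod_le_prod
    · intro q hq
      have := fac_ge (q := q) (by have := (mem_filter.1 (mem_filter.1 hq).1).2; omega)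
      linarith
    · intro q hq
      have h3 : 3 ≤ q := by have := (mem_filter.1 (mem_filter.1 hq).1).2; omega
      have h1 : (3 : ℝ) ≤ q := by exact_mod_cast h3
      have h4 : 1 / ((q : ℝ) - 2) ≤ 3 / q := by
        rw [div_le_div_iff₀ (by linarith) (by linarith)]
        linarith
      have h5 := Real.add_one_le_exp (3 / (q : ℝ))
      linarith
  · apply Finset.prod_nonneg
    intro q hq
    have := fac_ge (q := q) (by have := (mem_filter.1 (mem_filter.1 hq).1).2; omega)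
    linarith
  · have := fQ_ge Q (fun q hq => (hQ q hq).2) m
    linarith

theorem fQ_mod {Q : Finset ℕ} {W m s : ℕ} (hQ : ∀ q ∈ Q, q ∣ W) (h : m ≡ s [MOD W]) : fQ Q m = fQ Q s := by
  unfold fQ
  congr 1
  ext q
  rw [mem_filter, mem_filter]
  constructor
  · rintro ⟨h1, h2⟩
    exact ⟨h1, (Nat.ModEq.dvd_iff (h.of_dvd (hQ q h1)) dvd_rfl).1 h2⟩
  · rintro ⟨h1, h2⟩
    exact ⟨h1, (Nat.ModEq.dvd_iff (h.of_dvd (hQ q h1)) dvd_rfl).2 h2⟩

theorem card_big (m z : ℕ) (hm : 0 < m) (hz : 2 ≤ z) :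
    ((m.primeFactors.filter (fun p => z < p)).card : ℝ) ≤ Real.log m / Real.log z := by
  have h1 : z ^ (m.primeFactors.filter (fun p => z < p)).card ≤ m := by
    calc z ^ (m.primeFactors.filter (fun p => z < p)).card
        ≤ ∏ p ∈ m.primeFactors.filter (fun p => z < p), p := by
          rw [← Finset.prod_const]
          apply Finset.prod_le_prod'
          intro p hp
          exact (mem_filter.1 hp).2.le
      _ ≤ ∏ p ∈ m.primeFactors, p := by
          apply Finset.prod_le_prod_of_subset_of_one_le'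
          · exact filter_subset _ _
          · intro p hp _
            exact (Nat.prime_of_mem_primeFactors hp).one_lt.le
      _ ≤ m := Nat.le_of_dvd hm (Nat.prod_primeFactors_dvd m)
  have hz' : (2 : ℝ) ≤ z := by exact_mod_cast hz
  have h2 : ((z : ℝ)) ^ (m.primeFactors.filter (fun p => z < p)).card ≤ m := by exact_mod_cast h1
  have h3 := Real.log_le_log (by positivity) h2
  rw [Real.log_pow] at h3
  rwa [le_div_iff₀ (Real.log_pos (by linarith))]

theorem extra {X : ℝ} {z Z : ℕ} {S : Finset ℕ} {ps : ℕ} (hzy : z ≤ yy X) (hz : 2 ≤ z) (hZ : 1 ≤ Z) (hps : GoodP Z ps)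
    {m : ℕ} (hm : 0 < m) :
    ∑ p ∈ (m.primeFactors.filter (fun p => 2 < p)).filter (fun p => p ∉ QZ X z S ps), 3 / (p : ℝ) ≤
      3 * ∑ q ∈ S, 1 / (q : ℝ) + 3 / Z + 3 * (Real.log m / Real.log z / z) := by
  classical
  have hz' : (2 : ℝ) ≤ z := by exact_mod_cast hz
  have hZ' : (1 : ℝ) ≤ Z := by exact_mod_cast hZ
  have h1 : (m.primeFactors.filter (fun p => 2 < p)).filter (fun p => p ∉ QZ X z S ps) ⊆
      (S ∪ (m.primeFactors.filter (fun p => p = ps))) ∪ m.primeFactors.filter (fun p => z < p) := by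
    intro p hp
    obtain ⟨h1, h2⟩ := mem_filter.1 hp
    obtain ⟨h3, h4⟩ := mem_filter.1 h1
    rw [mem_union, mem_union]
    by_contra hcon
    push Not at hcon
    obtain ⟨⟨h5, h6⟩, h7⟩ := hcon
    apply h2
    refine mem_filter.2 ⟨(mem_PZ hzy).2 ⟨?_, Nat.prime_of_mem_primeFactors h3, h5, ?_⟩, h4⟩
    · by_contra h8
      exact h7 (mem_filter.2 ⟨h3, not_le.1 h8⟩)
    · intro h8
      exact h6 (mem_filter.2 ⟨h3, h8⟩)
  have hnn : ∀ p : ℕ, 0 ≤ 3 / (p : ℝ) := fun p => by positivity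
  refine (Finset.sum_le_sum_of_subset_of_nonneg h1 (fun p _ _ => hnn p)).trans ?_
  have h2 : ∀ A B : Finset ℕ, ∑ p ∈ A ∪ B, 3 / (p : ℝ) ≤ ∑ p ∈ A, 3 / (p : ℝ) + ∑ p ∈ B, 3 / (p : ℝ) := by
    intro A B
    rw [← Finset.sum_union_inter]
    have : 0 ≤ ∑ p ∈ A ∩ B, 3 / (p : ℝ) := Finset.sum_nonneg fun p _ => hnn p
    linarith
  refine (h2 _ _).trans ?_
  have h3 := h2 S (m.primeFactors.filter (fun p => p = ps))
  have h4 : ∑ q ∈ S, 3 / (q : ℝ) = 3 * ∑ q ∈ S, 1 / (q : ℝ) := by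
    rw [Finset.mul_sum]
    apply Finset.sum_congr rfl
    intro q _
    ring
  have h5 : ∑ p ∈ m.primeFactors.filter (fun p => p = ps), 3 / (p : ℝ) ≤ 3 / Z := by
    rcases hps with h | ⟨h, h'⟩
    · have : m.primeFactors.filter (fun p => p = ps) = ∅ := by
        rw [Finset.filter_eq_empty_iff]
        intro p hp hpe
        have := (Nat.prime_of_mem_primeFactors hp).one_lt
        omega
      rw [this, Finset.sum_empty]
      positivity
    · have h6 : m.primeFactors.filter (fun p => p = ps) ⊆ {ps} := by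
        intro p hp
        rw [mem_singleton]
        exact (mem_filter.1 hp).2
      refine (Finset.sum_le_sum_of_subset_of_nonneg h6 (fun p _ _ => hnn p)).trans ?_
      rw [Finset.sum_singleton]
      have : (Z : ℝ) ≤ ps := by exact_mod_cast h'.le
      gcongr
  have h6 : ∑ p ∈ m.primeFactors.filter (fun p => z < p), 3 / (p : ℝ) ≤ 3 * (Real.log m / Real.log z / z) := by
    calc ∑ p ∈ m.primeFactors.filter (fun p => z < p), 3 / (p : ℝ)
        ≤ ∑ p ∈ m.primeFactors.filter (fun p => z < p), 3 / (z : ℝ) := by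
          apply Finset.sum_le_sum
          intro p hp
          have : (z : ℝ) ≤ p := by exact_mod_cast (mem_filter.1 hp).2.le
          gcongr
      _ = ((m.primeFactors.filter (fun p => z < p)).card : ℝ) * (3 / z) := by rw [Finset.sum_const, nsmul_eq_mul]
      _ ≤ (Real.log m / Real.log z) * (3 / z) := by
          apply mul_le_mul_of_nonneg_right (card_big m z hm hz) (by positivity)
      _ = _ := by ring
  linarith

/-- the number of the odd primes up to `Y` -/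
theorem card_PP (Y : ℕ) (hY : 2 ≤ Y) : (PP Y).card + 1 = Nat.primeCounting Y := by
  have h6 : Nat.primeCounting Y = ((range (Y + 1)).filter Nat.Prime).card := by
    unfold Nat.primeCounting Nat.primeCounting'
    rw [Nat.count_eq_card_filter_range]
  have h7 : (range (Y + 1)).filter Nat.Prime = insert 2 (PP Y) := by
    ext p
    rw [mem_filter, mem_range, mem_insert, mem_PP]
    constructor
    · rintro ⟨h1, h2⟩
      by_cases h3 : p = 2
      · exact Or.inl h3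
      · right
        have := h2.two_le
        exact ⟨by omega, h2⟩
    · rintro (h1 | h1)
      · rw [h1]; exact ⟨by omega, Nat.prime_two⟩
      · exact ⟨by omega, h1.2⟩
  rw [h6, h7, card_insert_of_notMem]
  intro h
  have := mem_PP.1 h
  omega

theorem scale_facts {u v : ℝ} {z Y : ℝ → ℕ} (hs : Scale u v z Y) (ε : ℝ) (hε : 0 < ε) : ∃ Z : ℕ, 3 ≤ Z ∧
    ∀ᶠ X : ℝ in atTop, ∀ (ps : ℕ) (S : Finset ℕ), GoodP Z ps → GoodS X S → z (Real.log X) ≤ yy X →
      (2 ∣ WZ X (z (Real.log X)) S ps) ∧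
      (∑ s ∈ Icc 1 (Y (Real.log X)), (VH (WZ X (z (Real.log X)) S ps)
          (rs (WZ X (z (Real.log X)) S ps) (Y (Real.log X)) s) (HS (Y (Real.log X))) : ℝ) ≤
        (1 + ε) * ((Y (Real.log X) : ℝ) * (Y (Real.log X) / Real.log (Y (Real.log X)) ^ 2))) ∧
      ((1 - ε) * ((Y (Real.log X) : ℝ) * (Y (Real.log X) / Real.log (Y (Real.log X)) ^ 2)) ≤
        ∑ s ∈ Icc 1 (Y (Real.log X)), (VH (WZ X (z (Real.log X)) S ps)
          (rs (WZ X (z (Real.log X)) S ps) (Y (Real.log X)) s) (HS (Y (Real.log X))) : ℝ)) ∧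
      ((1 - ε) * (Y (Real.log X) : ℝ) ≤
        ∑ s ∈ (Icc 1 (Y (Real.log X))).filter Even, 2 * C₂ * fQ (QZ X (z (Real.log X)) S ps) s) ∧
      (∑ s ∈ (Icc 1 (Y (Real.log X))).filter Even, 2 * C₂ * fQ (QZ X (z (Real.log X)) S ps) s ≤
        (1 + ε) * (Y (Real.log X) : ℝ)) := by
  obtain ⟨δ, hδ⟩ : ∃ δ : ℝ, δ = min ε 1 / 16 := ⟨_, rfl⟩
  have hm : 0 < min ε 1 := lt_min hε one_pos
  have hδ0 : 0 < δ := by rw [hδ]; positivity
  have hδ1 : δ ≤ 1 / 16 := by rw [hδ]; linarith [min_le_right ε 1]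
  have hδε : 16 * δ ≤ ε := by rw [hδ]; linarith [min_le_left ε 1]
  obtain ⟨Z1, hZ1⟩ := RR_upper hs δ hδ0
  obtain ⟨Z2, hZ2⟩ := C₂_near δ hδ0
  have eL := ((RR_lower hs δ hδ0).and (hs.Ytop.eventually (pi_unif δ hδ0))).and
    ((hs.z_small δ hδ0).and ((hs.ztop.eventually_ge_atTop (Z2 + 2)).and
      (hs.Ytop.eventually (small_terms δ hδ0))))
  have eL2 := (hs.Ytop.eventually_ge_atTop 3).and ((hs.logY.eventually_gt_atTop 1).and
    (Real.tendsto_log_atTop.eventually_ge_atTop (max (Z2 : ℝ) 2)))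
  refine ⟨Z1 + Z2 + 3, by omega, ?_⟩
  filter_upwards [hZ1, Real.tendsto_log_atTop.eventually eL, Real.tendsto_log_atTop.eventually eL2] with X h1 h2 h3
  intro ps S hps hS hzy
  obtain ⟨⟨a1, a2⟩, a3, a4, a5⟩ := h2
  obtain ⟨b1, b2, b3⟩ := h3
  set L := Real.log X with hL
  set ℓ := Real.log (Y L) with hℓ
  set W := WZ X (z L) S ps with hW
  have hps1 : GoodP Z1 ps := by
    rcases hps with h | ⟨h, h'⟩
    · exact Or.inl h
    · exact Or.inr ⟨h, by omega⟩
  have hℓ0 : 0 < ℓ := by linarith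
  have hY0 : (0 : ℝ) < Y L := by
    have : (3 : ℝ) ≤ Y L := by exact_mod_cast b1
    linarith
  have hW0 : 0 < W := WZ_pos X (z L) S ps
  -- the small primes divide `W`
  have hsmall : ∀ q : ℕ, q.Prime → q ≤ Z2 + 2 → q ∈ PZ X (z L) S ps := by
    intro q hq hqZ
    refine (mem_PZ hzy).2 ⟨by omega, hq, ?_, ?_⟩
    · intro hqS
      have h5 := (hS.1 q hqS).2.1
      have h6 : (max (Z2 : ℝ) 2) ≤ z2 X := by
        unfold z2
        refine le_trans ?_ (Nat.le_ceil _)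
        have h7 : 2 ≤ Real.log L := (le_max_right _ _).trans b3
        have h8 : Real.log L ≤ Real.log L ^ 3 := by nlinarith [sq_nonneg (Real.log L)]
        exact b3.trans h8
      have h7 : (Z2 : ℝ) + 2 < z2 X + 1 := by
        have h8 : 2 ≤ Real.log L := (le_max_right _ _).trans b3
        have h9 : (Z2 : ℝ) ≤ Real.log L := (le_max_left _ _).trans b3
        have h10 : Real.log L ^ 3 ≤ z2 X := Nat.le_ceil _
        nlinarith [sq_nonneg (Real.log L)]
      have h8 : Z2 + 2 < z2 X + 1 := by exact_mod_cast h7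
      omega
    · rcases hps with h | ⟨h, h'⟩
      · have := hq.one_lt
        omega
      · omega
  have h2W : 2 ∣ W := prime_dvd_WZ (hsmall 2 Nat.prime_two (by omega))
  have hW1 : 1 < W := by
    have := Nat.le_of_dvd hW0 h2W
    omega
  have hsum : (∑ s ∈ Icc 1 (Y L), (VH W (rs W (Y L) s) (HS (Y L)) : ℝ)) =
      ∑ p ∈ PP (Y L), ((RR W (Y L - p) : ℝ) + RR W (p - 1)) := by
    exact_mod_cast sum_VH W (Y L) hW1
  have hcard := card_PP (Y L) (by omega)
  have hcard' : ((PP (Y L)).card : ℝ) + 1 = Nat.primeCounting (Y L) := by exact_mod_cast hcard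
  have hpi := abs_le.1 (a2 (Y L) le_rfl)
  have hYℓ : 0 < (Y L : ℝ) / ℓ := by positivity
  have hbig : 82 ≤ δ * ((Y L : ℝ) / ℓ) := by
    have : (0 : ℝ) ≤ Nat.log 2 (Y L) := Nat.cast_nonneg _
    linarith
  have hsq : (Y L : ℝ) * (Y L / ℓ ^ 2) = (Y L / ℓ) * (Y L / ℓ) := by field_simp
  rw [hsq]
  refine ⟨h2W, ?_, ?_, ?_⟩
  · rw [hsum]
    have c1 : ∀ p ∈ PP (Y L), (RR W (Y L - p) : ℝ) + RR W (p - 1) ≤ (1 + 2 * δ) * (Y L / ℓ) := by
      intro p hp
      have hp' := mem_PP.1 hp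
      have c2 := h1 ps S hps1 hS hzy (Y L - p) (Nat.sub_le _ _)
      have c3 := h1 ps S hps1 hS hzy (p - 1) (by omega)
      have c4 : ((Y L - p : ℕ) : ℝ) / ℓ + ((p - 1 : ℕ) : ℝ) / ℓ ≤ Y L / ℓ := by
        rw [← add_div]
        apply div_le_div_of_nonneg_right _ hℓ0.le
        have : (Y L - p) + (p - 1) ≤ Y L := by omega
        exact_mod_cast this
      linarith
    have c2 : ((PP (Y L)).card : ℝ) ≤ (1 + δ) * (Y L / ℓ) := by linarith
    refine (Finset.sum_le_card_nsmul _ _ _ c1).trans ?_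
    rw [nsmul_eq_mul]
    calc ((PP (Y L)).card : ℝ) * ((1 + 2 * δ) * (Y L / ℓ)) ≤ ((1 + δ) * (Y L / ℓ)) * ((1 + 2 * δ) * (Y L / ℓ)) := by gcongr
      _ = ((1 + δ) * (1 + 2 * δ)) * (Y L / ℓ * (Y L / ℓ)) := by ring
      _ ≤ (1 + ε) * (Y L / ℓ * (Y L / ℓ)) := by
          apply mul_le_mul_of_nonneg_right _ (by positivity)
          nlinarith
  · rw [hsum]
    have c1 : ∀ p ∈ PP (Y L), (1 - 3 * δ) * (Y L / ℓ) ≤ (RR W (Y L - p) : ℝ) + RR W (p - 1) := by
      intro p hp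
      have hp' := mem_PP.1 hp
      have hWz : ∀ p : ℕ, p.Prime → p ∣ W → p ≤ z L := fun p hp hd => PZ_le ((dvd_WZ_iff hp).1 hd)
      have c2 := a1 W hWz (Y L - p) (Nat.sub_le _ _)
      have c3 := a1 W hWz (p - 1) (by omega)
      have c4 : (Y L : ℝ) / ℓ - 1 / ℓ ≤ ((Y L - p : ℕ) : ℝ) / ℓ + ((p - 1 : ℕ) : ℝ) / ℓ := by
        rw [← add_div, ← sub_div]
        apply div_le_div_of_nonneg_right _ hℓ0.le
        have : Y L ≤ (Y L - p) + (p - 1) + 1 := by omega
        have : (Y L : ℝ) ≤ ((Y L - p : ℕ) : ℝ) + ((p - 1 : ℕ) : ℝ) + 1 := by exact_mod_cast this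
        linarith
      have c5 : 1 / ℓ ≤ 1 := by rw [div_le_one hℓ0]; linarith
      linarith
    have c2 : (1 - 2 * δ) * (Y L / ℓ) ≤ ((PP (Y L)).card : ℝ) := by linarith [hpi.1]
    have c3 := Finset.card_nsmul_le_sum _ _ _ c1
    rw [nsmul_eq_mul] at c3
    refine le_trans ?_ c3
    have c4 : 0 ≤ (1 - 3 * δ) * (Y L / ℓ) := by
      apply mul_nonneg _ hYℓ.le
      linarith
    calc (1 - ε) * (Y L / ℓ * (Y L / ℓ)) ≤ ((1 - 2 * δ) * (1 - 3 * δ)) * (Y L / ℓ * (Y L / ℓ)) := by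
          apply mul_le_mul_of_nonneg_right _ (by positivity)
          nlinarith
      _ = ((1 - 2 * δ) * (Y L / ℓ)) * ((1 - 3 * δ) * (Y L / ℓ)) := by ring
      _ ≤ _ := by gcongr
  · have d1 := avg_fQ (Q := QZ X (z L) S ps) (z := z L) (fun q hq => QZ_prop hq) (Y L)
    have d2 := prod_Q_ge (Q := QZ X (z L) S ps) (z := z L) (fun q hq => QZ_prop hq)
    have d3 : ∏ q ∈ QZ X (z L) S ps, cf q ≤ C₂ + δ := by
      refine (prod_Q_le (Z := Z2) (fun q hq => (QZ_prop hq).2.1) ?_).trans hZ2.le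
      intro q hq h3 hqZ
      exact mem_filter.2 ⟨hsmall q hq (by omega), h3⟩
    set P := ∏ q ∈ QZ X (z L) S ps, cf q with hP
    have hC := C₂_ge
    have hC1 := C₂_le_one
    have hP0 : 0 < P := by linarith
    have d4 : (z L : ℝ) + 1 ≤ 2 * δ * Y L := by
      have e1 : (Y L : ℝ) / ℓ ≤ Y L := div_le_self hY0.le b2.le
      have e2 : δ * ((Y L : ℝ) / ℓ) ≤ δ * Y L := by gcongr
      linarith
    rw [abs_le] at d1
    rw [← Finset.mul_sum]
    set T := ∑ s ∈ (Icc 1 (Y L)).filter Even, fQ (QZ X (z L) S ps) s with hT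
    have e1 : C₂ * P⁻¹ ≤ 1 := by
      rw [← div_eq_mul_inv, div_le_one hP0]; exact d2
    have e2 : 1 - 2 * δ ≤ C₂ * P⁻¹ := by
      rw [← div_eq_mul_inv, le_div_iff₀ hP0]
      nlinarith
    have e3 : 2 * C₂ * ((Y L : ℝ) / 2 * P⁻¹) = (C₂ * P⁻¹) * Y L := by ring
    have e4 : (1 - 2 * δ) * Y L ≤ (C₂ * P⁻¹) * Y L := by gcongr
    have e5 : (C₂ * P⁻¹) * Y L ≤ 1 * Y L := by gcongr
    have e6 : 2 * C₂ * (T - (Y L : ℝ) / 2 * P⁻¹) ≤ 2 * C₂ * (2 * δ * Y L) := by
      apply mul_le_mul_of_nonneg_left _ (by linarith)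
      linarith
    have e7 : 2 * C₂ * (-(2 * δ * Y L)) ≤ 2 * C₂ * (T - (Y L : ℝ) / 2 * P⁻¹) := by
      apply mul_le_mul_of_nonneg_left _ (by linarith)
      linarith
    have e8 : 2 * C₂ * (2 * δ * Y L) ≤ 4 * δ * Y L := by
      have : 0 ≤ 2 * δ * Y L := by positivity
      nlinarith
    have e9 : 16 * δ * Y L ≤ ε * Y L := by gcongr
    constructor
    · nlinarith
    · nlinarith

end Pool.Agent.T2H52.MG
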