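import Mathlib
import Pool.Agent.T2H52.MG.A6

/-! Rows with few representations. -/

set_option autoImplicit false

open Finset Filter Topology
open Pool.Agent.H378R2
open Pool.Agent.H510R2.Maier

namespace Pool.Agent.T2H52.MG

/-- `e ^ γ` -/
noncomputable def EG : ℝ := Real.exp Real.eulerMascheroniConstant

theorem EG_pos : 0 < EG := Real.exp_pos _

theorem QQ_le_BEZ {X : ℝ} {z : ℕ} (S : Finset ℕ) (ps : ℕ) : QQ z ≤ BE (PZ X z S ps) := by
  unfold QQ BE
  apply Finset.prod_le_prod_of_subset_of_le_one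
  · intro p hp
    rw [Finset.mem_filter, Finset.mem_Icc]
    exact ⟨⟨(PZ_prime hp).one_lt.le, PZ_le hp⟩, PZ_prime hp⟩
  · intro p hp
    exact one_sub_inv_nonneg (Finset.mem_filter.1 hp).2
  · intro p _ _
    exact one_sub_inv_le

theorem BEZ_le {X : ℝ} {z : ℕ} (hzy : z ≤ yy X) (S : Finset ℕ) (ps Z : ℕ) (hZ : 1 ≤ Z) (hps : GoodP Z ps) (s : ℝ)
    (hs : ∑ q ∈ S, (1 : ℝ) / q ≤ s) : BE (PZ X z S ps) * (1 - s - 1 / Z) ≤ QQ z := by
  classical
  set A := PZ X z S ps with hA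
  set R := ((Icc 1 z).filter Nat.Prime).filter (fun p => p ∈ S ∨ p = ps) with hR
  have hAR : (Icc 1 z).filter Nat.Prime = A ∪ R := by
    ext p
    rw [Finset.mem_union, hA, hR, Finset.mem_filter, Finset.mem_filter, mem_PZ hzy, Finset.mem_filter, mem_Icc]
    constructor
    · rintro ⟨⟨h1, h2⟩, h3⟩
      by_cases h4 : p ∈ S ∨ p = ps
      · exact Or.inr ⟨⟨⟨h1, h2⟩, h3⟩, h4⟩
      · push Not at h4
        exact Or.inl ⟨h2, h3, h4.1, h4.2⟩
    · rintro (⟨h2, h3, _, _⟩ | ⟨h, _⟩)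
      · exact ⟨⟨h3.one_lt.le, h2⟩, h3⟩
      · exact h
  have hdis : Disjoint A R := by
    rw [Finset.disjoint_left]
    intro p hp hp'
    rw [hA, mem_PZ hzy] at hp
    rw [hR, Finset.mem_filter] at hp'
    rcases hp'.2 with h | h
    · exact hp.2.2.1 h
    · exact hp.2.2.2 h
  have hprod : QQ z = BE A * ∏ p ∈ R, (1 - 1 / (p : ℝ)) := by
    unfold QQ BE
    rw [hAR, Finset.prod_union hdis]
  have hBA : 0 < BE A := BE_pos fun p hp => PZ_prime hp
  have hZ' : (1 : ℝ) ≤ Z := by exact_mod_cast hZ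
  have hRs : 1 - s - 1 / Z ≤ ∏ p ∈ R, (1 - 1 / (p : ℝ)) := by
    have h1 := weier R (fun p => 1 / (p : ℝ)) (fun i _ => by positivity) (fun i hi => by
      have := (mem_filter.1 (Finset.mem_filter.1 hi).1).2.one_lt.le
      have h2 : (1 : ℝ) ≤ i := by exact_mod_cast this
      rw [div_le_one (by linarith)]
      exact h2)
    refine le_trans ?_ h1
    have h2 : ∑ p ∈ R, (1 : ℝ) / p ≤ s + 1 / Z := by
      have h3 : R ⊆ S ∪ R.filter (fun p => p = ps) := by
        intro p hp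
        rw [Finset.mem_union, Finset.mem_filter]
        rcases (mem_filter.1 hp).2 with h | h
        · exact Or.inl h
        · exact Or.inr ⟨hp, h⟩
      have h4 : ∑ p ∈ R.filter (fun p => p = ps), (1 : ℝ) / p ≤ 1 / Z := by
        rcases hps with h | ⟨h, h'⟩
        · have : R.filter (fun p => p = ps) = ∅ := by
            rw [Finset.filter_eq_empty_iff]
            intro p hp hpe
            have := (mem_filter.1 (mem_filter.1 hp).1).2.one_lt
            omega
          rw [this, Finset.sum_empty]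
          positivity
        · have h6 : R.filter (fun p => p = ps) ⊆ {ps} := by
            intro p hp
            rw [mem_singleton]
            exact (mem_filter.1 hp).2
          refine (Finset.sum_le_sum_of_subset_of_nonneg h6 (fun p _ _ => by positivity)).trans ?_
          rw [Finset.sum_singleton]
          have : (Z : ℝ) ≤ ps := by exact_mod_cast h'.le
          gcongr
      calc ∑ p ∈ R, (1 : ℝ) / p ≤ ∑ p ∈ S ∪ R.filter (fun p => p = ps), (1 : ℝ) / p :=
            Finset.sum_le_sum_of_subset_of_nonneg h3 fun _ _ _ => by positivity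
        _ ≤ ∑ p ∈ S, (1 : ℝ) / p + ∑ p ∈ R.filter (fun p => p = ps), (1 : ℝ) / p := by
            rw [← Finset.sum_union_inter]
            have : 0 ≤ ∑ p ∈ S ∩ R.filter (fun p => p = ps), (1 : ℝ) / p := Finset.sum_nonneg fun p _ => by positivity
            linarith
        _ ≤ s + 1 / Z := add_le_add hs h4
    linarith
  rw [hprod]
  exact mul_le_mul_of_nonneg_left hRs hBA.le

theorem choose_few (I : Finset ℕ) (V σ : ℕ → ℝ) (T y ε : ℝ) (hV : ∀ s ∈ I, 0 ≤ V s) (hT : 0 < T) (hy : 0 < y)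
    (hε : 0 < ε) (hε1 : ε < 1 / 2)
    (h1 : ∑ s ∈ I, V s ≤ (1 + ε) * (y * T)) (h2 : (1 - ε) * y ≤ ∑ s ∈ I.filter Even, σ s) :
    ∃ s ∈ I, Even s ∧ V s ≤ (1 + 4 * ε) * σ s * T := by
  by_contra hcon
  push Not at hcon
  have h3 : ∑ s ∈ I.filter Even, (1 + 4 * ε) * σ s * T ≤ ∑ s ∈ I.filter Even, V s :=
    Finset.sum_le_sum fun s hs => (hcon s (mem_filter.1 hs).1 (mem_filter.1 hs).2).le
  have h4 : ∑ s ∈ I.filter Even, V s ≤ ∑ s ∈ I, V s :=
    Finset.sum_le_sum_of_subset_of_nonneg (filter_subset _ _) fun s hs _ => hV s hs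
  have h5 : ∑ s ∈ I.filter Even, (1 + 4 * ε) * σ s * T = (1 + 4 * ε) * T * ∑ s ∈ I.filter Even, σ s := by
    rw [Finset.mul_sum]
    apply Finset.sum_congr rfl
    intro s _
    ring
  rw [h5] at h3
  have h6 : (1 + 4 * ε) * T * ((1 - ε) * y) ≤ (1 + 4 * ε) * T * ∑ s ∈ I.filter Even, σ s := by gcongr
  have h7 : (1 + ε) * (y * T) < (1 + 4 * ε) * T * ((1 - ε) * y) := by
    have h8 : (1 + 4 * ε) * T * ((1 - ε) * y) = ((1 + 4 * ε) * (1 - ε)) * (y * T) := by ring
    rw [h8]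
    apply mul_lt_mul_of_pos_right _ (by positivity)
    nlinarith
  linarith

theorem choose_many (I : Finset ℕ) (V σ : ℕ → ℝ) (T y ε : ℝ) (hV : ∀ s ∈ I, ¬ Even s → V s = 0) (hT : 0 < T) (hy : 0 < y)
    (hε : 0 < ε) (hε1 : ε ≤ 1 / 4)
    (h1 : (1 - ε) * (y * T) ≤ ∑ s ∈ I, V s) (h2 : ∑ s ∈ I.filter Even, σ s ≤ (1 + ε) * y) :
    ∃ s ∈ I, Even s ∧ (1 - 4 * ε) * σ s * T ≤ V s := by
  by_contra hcon
  push Not at hcon
  have h3 : ∑ s ∈ I.filter Even, V s ≤ ∑ s ∈ I.filter Even, (1 - 4 * ε) * σ s * T :=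
    Finset.sum_le_sum fun s hs => (hcon s (mem_filter.1 hs).1 (mem_filter.1 hs).2).le
  have h4 : ∑ s ∈ I.filter Even, V s = ∑ s ∈ I, V s := by
    apply Finset.sum_subset (filter_subset _ _)
    intro s hs hs'
    apply hV s hs
    intro he
    exact hs' (mem_filter.2 ⟨hs, he⟩)
  have h5 : ∑ s ∈ I.filter Even, (1 - 4 * ε) * σ s * T = (1 - 4 * ε) * T * ∑ s ∈ I.filter Even, σ s := by
    rw [Finset.mul_sum]
    apply Finset.sum_congr rfl
    intro s _
    ring
  rw [h5] at h3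
  have h6 : (1 - 4 * ε) * T * ∑ s ∈ I.filter Even, σ s ≤ (1 - 4 * ε) * T * ((1 + ε) * y) := by
    apply mul_le_mul_of_nonneg_left h2
    apply mul_nonneg _ hT.le
    linarith
  have h7 : (1 - 4 * ε) * T * ((1 + ε) * y) < (1 - ε) * (y * T) := by
    have h8 : (1 - 4 * ε) * T * ((1 + ε) * y) = ((1 - 4 * ε) * (1 + ε)) * (y * T) := by ring
    rw [h8]
    apply mul_lt_mul_of_pos_right _ (by positivity)
    nlinarith
  linarith

/-- the number of the odd primes `p ≤ Y` with `m - p` prime -/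
def cntG (Y m : ℕ) : ℕ := ((PP Y).filter (fun p => (m - p).Prime)).card

theorem cnt_le_thH (Y n : ℕ) (X : ℝ) (hX : 0 < X) (hn : X < n) :
    Real.log X * cntG Y (n + Y + 1) ≤ thH (HS Y) n := by
  rw [thH_HS]
  unfold cntG
  rw [Finset.card_filter]
  push_cast
  rw [Finset.mul_sum]
  apply Finset.sum_le_sum
  intro p hp
  have hp' := mem_PP.1 hp
  split_ifs with h
  · unfold th
    rw [if_pos h, mul_one]
    apply Real.log_le_log hX
    have : n ≤ n + Y + 1 - p := by omega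
    have : (n : ℝ) ≤ ((n + Y + 1 - p : ℕ) : ℝ) := by exact_mod_cast this
    linarith
  · rw [mul_zero]
    exact th_nonneg _

theorem thH_le_cnt (Y n : ℕ) (x : ℝ) (hn : (n : ℝ) + Y + 1 ≤ x) :
    thH (HS Y) n ≤ Real.log x * cntG Y (n + Y + 1) := by
  rw [thH_HS]
  unfold cntG
  rw [Finset.card_filter]
  push_cast
  rw [Finset.mul_sum]
  apply Finset.sum_le_sum
  intro p hp
  have hp' := mem_PP.1 hp
  unfold th
  split_ifs with h
  · rw [mul_one]
    have h1 : (0 : ℝ) < ((n + Y + 1 - p : ℕ) : ℝ) := by exact_mod_cast h.pos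
    apply Real.log_le_log h1
    have : n + Y + 1 - p ≤ n + Y + 1 := by omega
    have : ((n + Y + 1 - p : ℕ) : ℝ) ≤ (n : ℝ) + Y + 1 := by exact_mod_cast this
    linarith
  · simp

theorem Scale.ratio {u v : ℝ} {z Y : ℝ → ℕ} (hs : Scale u v z Y) (ε : ℝ) (hε : 0 < ε) : ∀ᶠ L in atTop,
    (1 / u - ε) * Real.log (Y L) ≤ Real.log (z L) ∧ Real.log (z L) ≤ (1 / u + ε) * Real.log (Y L) := by
  have hu := hs.u1
  have h1 := hs.Yt.inv₀ (by linarith)
  have h2 := h1.eventually_lt_const (show u⁻¹ < 1 / u + ε by rw [one_div]; linarith)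
  have h3 := h1.eventually_const_lt (show 1 / u - ε < u⁻¹ by rw [one_div]; linarith)
  filter_upwards [h2, h3, hs.logz.eventually_gt_atTop 0, hs.logY.eventually_gt_atTop 0] with L h4 h5 h6 h7
  rw [inv_div, div_lt_iff₀ h7] at h4
  rw [inv_div, lt_div_iff₀ h7] at h5
  exact ⟨h5.le, h4.le⟩

theorem big_quot (K : ℝ) : ∀ᶠ N : ℕ in atTop, K ≤ (N : ℝ) / Real.log N ^ 2 := by
  have h1 := (Real.isLittleO_pow_log_id_atTop (n := 2)).bound (show (0 : ℝ) < 1 / (|K| + 1) by positivity)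
  have hYr : Tendsto (fun N : ℕ => (N : ℝ)) atTop atTop := tendsto_natCast_atTop_atTop
  filter_upwards [hYr.eventually h1, hYr.eventually_ge_atTop (Real.exp 1)] with N h4 h7
  have hY0 : (0 : ℝ) < N := lt_of_lt_of_le (Real.exp_pos 1) h7
  have hlY : 1 ≤ Real.log N := by
    rw [Real.le_log_iff_exp_le hY0]; exact h7
  rw [id, Real.norm_of_nonneg (pow_nonneg (by linarith) 2), Real.norm_of_nonneg hY0.le] at h4
  have hl2 : 0 < Real.log N ^ 2 := by positivity
  rw [le_div_iff₀ hl2]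
  have hK : K ≤ |K| + 1 := by linarith [le_abs_self K]
  calc K * Real.log N ^ 2 ≤ (|K| + 1) * Real.log N ^ 2 := by gcongr
    _ ≤ (|K| + 1) * (1 / (|K| + 1) * N) := by gcongr
    _ = N := by field_simp

theorem Scale.QQ_bd {u v : ℝ} {z Y : ℝ → ℕ} (hs : Scale u v z Y) (ε : ℝ) (hε : 0 < ε) : ∀ᶠ L in atTop,
    (EG - ε) * Real.log (z L) ≤ (QQ (z L))⁻¹ ∧ (QQ (z L))⁻¹ ≤ (EG + ε) * Real.log (z L) := by
  have hzr : Tendsto (fun L => (z L : ℝ)) atTop atTop := tendsto_natCast_atTop_atTop.comp hs.ztop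
  have h1 := QQ_real.comp hzr
  have h2 := h1.eventually_lt_const (show Real.exp Real.eulerMascheroniConstant < EG + ε by unfold EG; linarith)
  have h3 := h1.eventually_const_lt (show EG - ε < Real.exp Real.eulerMascheroniConstant by unfold EG; linarith)
  filter_upwards [h2, h3, hs.logz.eventually_gt_atTop 0] with L h4 h5 h6
  simp only [Function.comp, Nat.floor_natCast] at h4 h5
  rw [div_lt_iff₀ h6] at h4
  rw [lt_div_iff₀ h6] at h5
  exact ⟨h5.le, h4.le⟩

set_option maxHeartbeats 4000000 in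
/-- many even numbers with few representations -/
theorem few_key {u v : ℝ} {z Y : ℝ → ℕ} (hs : Scale u v z Y) (D : ℝ) (hD : 1100 ≤ D)
    (hzD : ∀ᶠ L : ℝ in atTop, (z L : ℝ) ≤ L / D) (ε : ℝ) (hε : 0 < ε) (hε1 : ε ≤ 1 / 4) : ∀ᶠ X : ℝ in atTop,
    ∃ M : Finset ℕ, (∀ m ∈ M, Even m ∧ X < m ∧ (m : ℝ) ≤ 4 * X ∧
      Real.log X * cntG (Y (Real.log X)) m ≤ ((1 + ε) * (1 + 5 * ε) * (EG + ε) * (1 / u + ε)) *
        (sing m * (Y (Real.log X) / Real.log (Y (Real.log X))))) ∧
      ε / 200 * (X / Real.exp (3 / 2 * (Real.log X / D))) ≤ M.card := by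
  have hD0 : 0 < D := by linarith
  obtain ⟨Z, hZ3, hZ⟩ := scale_facts hs ε hε
  obtain ⟨X0, hX0⟩ := rows_sumsH (ε / 2) (by positivity) (by linarith) Z
  have hlt := Real.tendsto_log_atTop
  have e3 : ∀ᶠ X : ℝ in atTop, (Real.log X) ^ 3 ≤ X / 2 := by
    have h1 := (Real.isLittleO_pow_log_id_atTop (n := 3)).bound (show (0 : ℝ) < 1 / 2 by norm_num)
    filter_upwards [h1, eventually_ge_atTop (1 : ℝ)] with X h2 h3
    rw [Real.norm_of_nonneg (pow_nonneg (Real.log_nonneg h3) 3), id, Real.norm_of_nonneg (by linarith)] at h2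
    linarith
  filter_upwards [hZ, eventually_ge_atTop X0, hlt.eventually hzD, hlt.eventually hs.YL, eventually_ge_atTop (40 : ℝ),
    hlt.eventually_ge_atTop (1000000 : ℝ), hlt.eventually (hs.ratio ε hε), hlt.eventually (hs.QQ_bd ε hε),
    hlt.eventually (hs.Ytop.eventually (big_quot (80 / ε))), hlt.eventually (hs.logY.eventually_ge_atTop 1), e3,
    hlt.eventually (hs.Ytop.eventually_ge_atTop 3), hlt.eventually (hs.logz.eventually_gt_atTop 0)]
    with X g1 g2 g3 g4 g5 g6 g7 g8 g9 g10 g11 g12 g13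
  obtain ⟨ps, S, hps, hS, hr⟩ := hX0 X g2
  set L := Real.log X with hL
  have hXpos : 0 < X := by linarith
  have hLpos : 0 < L := by linarith
  have hzy : z L ≤ yy X := by
    unfold yy
    apply Nat.le_floor
    refine g3.trans ?_
    rw [← hL]
    gcongr
    linarith
  have hz1100 : (z L : ℝ) ≤ L / 1100 := g3.trans (by gcongr)
  obtain ⟨hW2, hV1, -, hσ1, -⟩ := g1 ps S hps hS hzy
  set W := WZ X (z L) S ps with hW
  set ℓ := Real.log (Y L) with hℓ
  have hℓ0 : 0 < ℓ := by linarith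
  have hY0 : (0 : ℝ) < Y L := by
    have : (3 : ℝ) ≤ Y L := by exact_mod_cast g12
    linarith
  have hT0 : 0 < (Y L : ℝ) / ℓ ^ 2 := by positivity
  obtain ⟨s, hsI, hse, hsV⟩ := choose_few (Icc 1 (Y L)) (fun s => (VH W (rs W (Y L) s) (HS (Y L)) : ℝ))
    (fun s => 2 * C₂ * fQ (QZ X (z L) S ps) s) (Y L / ℓ ^ 2) (Y L) ε (fun s _ => Nat.cast_nonneg _) hT0 hY0 hε
    (by linarith) hV1 hσ1
  set σ := 2 * C₂ * fQ (QZ X (z L) S ps) s with hσ
  have hσ1 : 1 ≤ σ := by
    have h1 := fQ_ge (QZ X (z L) S ps) (fun q hq => (QZ_prop hq).2.1) s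
    have h2 := two_C₂
    rw [hσ]
    nlinarith
  have hYL3 : (Y L : ℝ) ≤ L ^ 3 := by
    rw [← Real.exp_log hY0, ← Real.exp_log (show (0 : ℝ) < L ^ 3 by positivity)]
    apply Real.exp_le_exp.2
    rw [Real.log_pow]
    push_cast
    have : 0 ≤ Real.log L := Real.log_nonneg (by linarith)
    linarith
  obtain ⟨-, r2, r3, -⟩ := hr (z L) (rs W (Y L) s) (Y L) (HS (Y L)) hz1100 hYL3 (HS_sub (Y L))
  set r := rs W (Y L) s with hrdef
  set V : ℝ := (VH W r (HS (Y L)) : ℝ) with hV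
  have hV0 : 0 ≤ V := Nat.cast_nonneg _
  set B := BE (PZ X (z L) S ps) with hB
  have hB0 : 0 < B := BE_pos fun p hp => PZ_prime hp
  have hW0n : 0 < W := WZ_pos X (z L) S ps
  have hW0 : (0 : ℝ) < W := by exact_mod_cast hW0n
  have hφ : (W.totient : ℝ) = W * B := totient_WZ X (z L) S ps
  have hM1 := MPhi_ge X g5
  set M := MPhi X with hM
  have hM0 : 0 < M := by linarith
  set N1 := ∑ n ∈ Icc 1 ⌊3 * X⌋₊, nu X W r n with hN1
  set A := (V + 80) / B with hA
  have hA0 : 0 < A := by positivity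
  have hMW : 0 < M / W := by positivity
  have hT : ∑ n ∈ Icc 1 ⌊3 * X⌋₊, nu X W r n * thH (HS (Y L)) n ≤ (1 + ε / 2) * A * N1 := by
    refine r2.trans ?_
    have hMφ : 0 < M / W.totient := by rw [hφ]; positivity
    calc (1 + ε / 2 / 4) * (V * (M / W.totient)) + 40 * (M / W.totient)
        ≤ (1 + ε / 2 / 4) * ((V + 80) * (M / W.totient)) := by nlinarith
      _ = (1 + ε / 2 / 4) * A * (M / W) := by
          rw [hA, hφ]; field_simp
      _ ≤ ((1 + ε / 2) * (1 - ε / 2 / 4)) * A * (M / W) := by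
          have q1 : 1 + ε / 2 / 4 ≤ (1 + ε / 2) * (1 - ε / 2 / 4) := by nlinarith
          exact mul_le_mul_of_nonneg_right (mul_le_mul_of_nonneg_right q1 hA0.le) hMW.le
      _ = (1 + ε / 2) * A * ((1 - ε / 2 / 4) * (M / W)) := by ring
      _ ≤ (1 + ε / 2) * A * N1 := by
          apply mul_le_mul_of_nonneg_left r3
          positivity
  classical
  set g : ℕ → ℝ := fun n => if n ≡ r [MOD W] then thH (HS (Y L)) n else 2 * ((1 + ε) * A) with hg
  have hg0 : ∀ n, 0 ≤ g n := by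
    intro n
    rw [hg]
    simp only
    split_ifs
    · exact thH_nonneg _ _
    · positivity
  have hgs : ∑ n ∈ Icc 1 ⌊3 * X⌋₊, nu X W r n * g n = ∑ n ∈ Icc 1 ⌊3 * X⌋₊, nu X W r n * thH (HS (Y L)) n := by
    apply Finset.sum_congr rfl
    intro n _
    rw [hg]
    simp only
    split_ifs with h
    · rfl
    · unfold nu
      rw [if_neg h, zero_mul, zero_mul]
  have hcnt := count_few X hXpos W r g hg0 A ε N1 hA0 hε (by linarith) rfl (by rw [hgs]; exact hT)
  refine ⟨(rowset X (fun n => g n ≤ (1 + ε) * A)).image (fun n => n + Y L + 1), ?_, ?_⟩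
  · intro m hm
    obtain ⟨n, hn, rfl⟩ := mem_image.1 hm
    obtain ⟨m1, m2, m3, m4⟩ := mem_rowset.1 hn
    have hmod : n ≡ r [MOD W] := by
      by_contra hcon
      rw [hg] at m4
      simp only [if_neg hcon] at m4
      have : 0 < (1 + ε) * A := by positivity
      linarith
    have m5 : thH (HS (Y L)) n ≤ (1 + ε) * A := by
      rw [hg] at m4
      simpa only [if_pos hmod] using m4
    have hms : n + Y L + 1 ≡ s [MOD W] := mod_rs hW0n hmod
    have heven : Even (n + Y L + 1) := by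
      have h2 := hms.of_dvd hW2
      rw [even_iff_two_dvd]
      exact (Nat.ModEq.dvd_iff h2 dvd_rfl).2 hse.two_dvd
    have hnX : (X : ℝ) < ((n + Y L + 1 : ℕ) : ℝ) := by
      push_cast
      linarith
    refine ⟨heven, hnX, ?_, ?_⟩
    · push_cast
      have : (1 : ℝ) ≤ X / 2 := by linarith
      have h6 : (Y L : ℝ) ≤ X / 2 := hYL3.trans g11
      linarith
    · have c1 := (cnt_le_thH (Y L) n X hXpos m2).trans m5
      rw [← hL] at c1
      refine c1.trans ?_
      have hσs : σ ≤ sing (n + Y L + 1) := by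
        rw [hσ, ← fQ_mod (Q := QZ X (z L) S ps) (W := W) (fun q hq => prime_dvd_WZ (mem_filter.1 hq).1) hms]
        exact sing_ge (fun q hq => ⟨(QZ_prop hq).1, (QZ_prop hq).2.1⟩) (by omega)
      have c2 : 80 ≤ ε * σ * (Y L / ℓ ^ 2) := by
        have : 80 ≤ ε * (Y L / ℓ ^ 2) := by
          rw [div_le_iff₀ hε] at g9
          linarith
        calc (80 : ℝ) ≤ ε * (Y L / ℓ ^ 2) := this
          _ ≤ ε * (Y L / ℓ ^ 2) * σ := le_mul_of_one_le_right (by positivity) hσ1
          _ = _ := by ring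
      have c3 : V + 80 ≤ (1 + 5 * ε) * σ * (Y L / ℓ ^ 2) := by
        have : (1 + 5 * ε) * σ * (Y L / ℓ ^ 2) = (1 + 4 * ε) * σ * (Y L / ℓ ^ 2) + ε * σ * (Y L / ℓ ^ 2) := by ring
        rw [this]
        exact add_le_add hsV c2
      have c4 : B⁻¹ ≤ (EG + ε) * ((1 / u + ε) * ℓ) := by
        have h5 := QQ_le_BEZ (X := X) (z := z L) S ps
        have h6 := QQ_pos (z L)
        refine (inv_anti₀ h6 h5).trans (g8.2.trans ?_)
        have := EG_pos
        exact mul_le_mul_of_nonneg_left g7.2 (by linarith)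
      have hu0 : 0 < u := by linarith [hs.u1]
      calc (1 + ε) * A = (1 + ε) * ((V + 80) * B⁻¹) := by rw [hA, div_eq_mul_inv]
        _ ≤ (1 + ε) * (((1 + 5 * ε) * σ * (Y L / ℓ ^ 2)) * ((EG + ε) * ((1 / u + ε) * ℓ))) := by
            apply mul_le_mul_of_nonneg_left _ (by linarith)
            apply mul_le_mul c3 c4 (by positivity) (by positivity)
        _ = ((1 + ε) * (1 + 5 * ε) * (EG + ε) * (1 / u + ε)) * (σ * (Y L / ℓ)) := by
            field_simp
        _ ≤ ((1 + ε) * (1 + 5 * ε) * (EG + ε) * (1 / u + ε)) * (sing (n + Y L + 1) * (Y L / ℓ)) := by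
            have := EG_pos
            gcongr
  · rw [Finset.card_image_of_injective _ (fun a b hab => by simpa using hab)]
    refine le_trans ?_ hcnt
    have hWle := WZ_le X (z L) S ps
    rw [← hW] at hWle
    have hWle' : (W : ℝ) ≤ Real.exp (3 / 2 * (L / D)) := by
      refine hWle.trans (Real.exp_le_exp.2 ?_)
      linarith
    have q1 : X / 40 / W ≤ N1 := by
      refine le_trans ?_ r3
      have : 1 / 2 ≤ 1 - ε / 2 / 4 := by linarith
      calc X / 40 / W = 1 / 2 * (X / 20 / W) := by ring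
        _ ≤ (1 - ε / 2 / 4) * (M / W) := by gcongr
    calc ε / 200 * (X / Real.exp (3 / 2 * (L / D))) ≤ ε / 200 * (X / W) := by gcongr
      _ = ε / 5 * (X / 40 / W) := by ring
      _ ≤ ε / 4 * (X / 40 / W) := by
          have : 0 < X / 40 / W := by positivity
          nlinarith
      _ ≤ ε / 4 * N1 := by gcongr

end Pool.Agent.T2H52.MG
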