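import Mathlib
import Pool.Agent.T2H52.MG.A7

/-! Rows with many representations. -/

set_option autoImplicit false

open Finset Filter Topology
open Pool.Agent.H378R2
open Pool.Agent.H510R2.Maier

namespace Pool.Agent.T2H52.MG

theorem card_HS (Y : ℕ) : (HS Y).card ≤ Y := by
  have := Finset.card_le_card (HS_sub Y)
  rw [Nat.card_Icc] at this
  omega

theorem cntG_le (Y m : ℕ) : cntG Y m ≤ Y := by
  unfold cntG
  refine (Finset.card_filter_le _ _).trans ?_
  unfold PP
  refine (Finset.card_filter_le _ _).trans ?_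
  rw [Nat.card_Icc]
  omega

set_option maxHeartbeats 4000000 in
/-- many even numbers with many representations -/
theorem many_key {u v : ℝ} {z Y : ℝ → ℕ} (hs : Scale u v z Y) (D : ℝ) (hD : 1100 ≤ D)
    (hzD : ∀ᶠ L : ℝ in atTop, (z L : ℝ) ≤ L / D) (hzD2 : ∀ᶠ L : ℝ in atTop, L / (2 * D) ≤ (z L : ℝ))
    (ε : ℝ) (hε : 0 < ε) (hε1 : ε ≤ 1 / 8) : ∀ᶠ X : ℝ in atTop,
    ∃ M : Finset ℕ, (∀ m ∈ M, Even m ∧ X < m ∧ (m : ℝ) ≤ 4 * X ∧
      ((1 - ε) * (1 - 4 * ε) * ((1 - ε) * (EG - ε)) * (1 / u - ε) * (1 - ε)) *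
        (sing m * (Y (Real.log X) / Real.log (Y (Real.log X)))) ≤ Real.log (4 * X) * cntG (Y (Real.log X)) m) ∧
      ε / 200 * (X / (Real.exp (3 / 2 * (Real.log X / D)) * Real.log X ^ 4)) ≤ M.card := by
  have hD0 : 0 < D := by linarith
  obtain ⟨Z0, hZ3, hZ⟩ := scale_facts hs ε hε
  -- a larger threshold for the exceptional prime
  set Z : ℕ := Z0 + ⌈16 / ε⌉₊ with hZdef
  have hZZ : 16 / ε ≤ Z := by
    rw [hZdef]
    push_cast
    have := Nat.le_ceil (16 / ε)
    have h0 : (0 : ℝ) ≤ Z0 := Nat.cast_nonneg _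
    linarith
  obtain ⟨X0, hX0⟩ := rows_sumsH (ε / 2) (by positivity) (by linarith) Z
  have hlt := Real.tendsto_log_atTop
  have e3 : ∀ᶠ X : ℝ in atTop, (Real.log X) ^ 3 ≤ X / 2 := by
    have h1 := (Real.isLittleO_pow_log_id_atTop (n := 3)).bound (show (0 : ℝ) < 1 / 2 by norm_num)
    filter_upwards [h1, eventually_ge_atTop (1 : ℝ)] with X h2 h3
    rw [Real.norm_of_nonneg (pow_nonneg (Real.log_nonneg h3) 3), id, Real.norm_of_nonneg (by linarith)] at h2
    linarith
  have hu := hs.u1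
  have hu2 := hs.u2
  have eS : ∀ᶠ L : ℝ in atTop, 18 / Real.log L ^ 2 ≤ ε / 8 := by
    filter_upwards [Real.tendsto_log_atTop.eventually_ge_atTop (max 1 (144 / ε))] with L hL
    have h1 : 1 ≤ Real.log L := (le_max_left _ _).trans hL
    have h2 : 144 / ε ≤ Real.log L := (le_max_right _ _).trans hL
    rw [div_le_iff₀ hε] at h2
    rw [div_le_iff₀ (by positivity)]
    nlinarith
  filter_upwards [hZ, eventually_ge_atTop X0, hlt.eventually hzD, hlt.eventually hs.YL, eventually_ge_atTop (40 : ℝ),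
    hlt.eventually_ge_atTop (1000000 : ℝ), hlt.eventually (hs.ratio ε hε), hlt.eventually (hs.QQ_bd ε hε),
    hlt.eventually (hs.Ytop.eventually (big_quot (2000 / ε))), hlt.eventually (hs.logY.eventually_ge_atTop 1), e3,
    hlt.eventually (hs.Ytop.eventually_ge_atTop 3), hlt.eventually (hs.logz.eventually_ge_atTop (96 * D / ε)),
    hlt.eventually hzD2, hlt.eventually eS, hlt.eventually (hs.ztop.eventually_ge_atTop 2)]
    with X g1 g2 g3 g4 g5 g6 g7 g8 g9 g10 g11 g12 g13 g14 g15 g16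
  obtain ⟨ps, S, hps, hS, hr⟩ := hX0 X g2
  have hps0 : GoodP Z0 ps := by
    rcases hps with h | ⟨h, h'⟩
    · exact Or.inl h
    · exact Or.inr ⟨h, by omega⟩
  have hS2 := hS.2
  set L := Real.log X with hL
  have hXpos : 0 < X := by linarith
  have hLpos : 0 < L := by linarith
  have hzy : z L ≤ yy X := by
    unfold yy
    apply Nat.le_floor
    refine g3.trans ?_
    rw [← hL]
    gcongr
    linarith
  have hz1100 : (z L : ℝ) ≤ L / 1100 := g3.trans (by gcongr)
  obtain ⟨hW2, -, hV2, -, hσ2⟩ := g1 ps S hps0 hS hzy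
  set W := WZ X (z L) S ps with hW
  set ℓ := Real.log (Y L) with hℓ
  have hW0n : 0 < W := WZ_pos X (z L) S ps
  have hℓ0 : 0 < ℓ := by linarith
  have hY0 : (0 : ℝ) < Y L := by
    have : (3 : ℝ) ≤ Y L := by exact_mod_cast g12
    linarith
  have hT0 : 0 < (Y L : ℝ) / ℓ ^ 2 := by positivity
  obtain ⟨s, hsI, hse, hsV⟩ := choose_many (Icc 1 (Y L)) (fun s => (VH W (rs W (Y L) s) (HS (Y L)) : ℝ))
    (fun s => 2 * C₂ * fQ (QZ X (z L) S ps) s) (Y L / ℓ ^ 2) (Y L) ε
    (fun s _ hs => by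
      rw [VH_odd W (Y L) s hW0n hW2 hs, Nat.cast_zero]) hT0 hY0 hε
    (by linarith) hV2 hσ2
  set σ := 2 * C₂ * fQ (QZ X (z L) S ps) s with hσ
  have hσ1 : 1 ≤ σ := by
    have h1 := fQ_ge (QZ X (z L) S ps) (fun q hq => (QZ_prop hq).2.1) s
    have h2 := two_C₂
    rw [hσ]
    exact one_le_mul_of_one_le_of_one_le h2 h1
  have hYL3 : (Y L : ℝ) ≤ L ^ 3 := by
    rw [← Real.exp_log hY0, ← Real.exp_log (show (0 : ℝ) < L ^ 3 by positivity)]
    apply Real.exp_le_exp.2
    rw [Real.log_pow]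
    push_cast
    have : 0 ≤ Real.log L := Real.log_nonneg (by linarith)
    linarith
  obtain ⟨r1, -, r3, r4⟩ := hr (z L) (rs W (Y L) s) (Y L) (HS (Y L)) hz1100 hYL3 (HS_sub (Y L))
  set r := rs W (Y L) s with hrdef
  set V : ℝ := (VH W r (HS (Y L)) : ℝ) with hV
  set B := BE (PZ X (z L) S ps) with hB
  have hB0 : 0 < B := BE_pos fun p hp => PZ_prime hp
  have hB1 : B ≤ 1 := by
    rw [hB]
    unfold BE
    apply Finset.prod_le_one
    · intro p hp
      exact one_sub_inv_nonneg (PZ_prime hp)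
    · intro p _
      exact one_sub_inv_le
  have hW0 : (0 : ℝ) < W := by exact_mod_cast hW0n
  have hφ : (W.totient : ℝ) = W * B := totient_WZ X (z L) S ps
  have hM1 := MPhi_ge X g5
  set M := MPhi X with hM
  have hM0 : 0 < M := by linarith
  set N1 := ∑ n ∈ Icc 1 ⌊3 * X⌋₊, nu X W r n with hN1
  have hVbig : 1000 / ε ≤ V := by
    refine le_trans ?_ hsV
    have h1 : 1 / 2 ≤ 1 - 4 * ε := by linarith
    calc 1000 / ε = 1 / 2 * 1 * (2000 / ε) := by ring
      _ ≤ (1 - 4 * ε) * σ * (Y L / ℓ ^ 2) := by gcongr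
  have hVε : 1000 ≤ ε * V := by
    rw [div_le_iff₀ hε] at hVbig
    linarith
  have hV1 : 1 ≤ V := by
    refine le_trans ?_ hVbig
    rw [le_div_iff₀ hε]
    linarith
  set A := V / B with hA
  have hA0 : 0 < A := by positivity
  have hA1 : 1 ≤ A := by
    rw [hA, le_div_iff₀ hB0]
    linarith
  have hMW : 0 < M / W := by positivity
  have hN10 : 0 ≤ N1 := Finset.sum_nonneg fun n _ => nu_nonneg _ _ _ _
  have hT : (1 - ε / 2) * A * N1 ≤ ∑ n ∈ Icc 1 ⌊3 * X⌋₊, nu X W r n * thH (HS (Y L)) n := by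
    refine le_trans ?_ r1
    have hMφ : 0 < M / W.totient := by rw [hφ]; positivity
    calc (1 - ε / 2) * A * N1 ≤ (1 - ε / 2) * A * ((1 + ε / 2 / 4) * (M / W)) := by
          apply mul_le_mul_of_nonneg_left r4
          apply mul_nonneg _ hA0.le
          linarith
      _ = ((1 - ε / 2) * (1 + ε / 2 / 4)) * (V * (M / W.totient)) := by
          rw [hA, hφ]; field_simp
      _ ≤ (1 - ε / 4) * (V * (M / W.totient)) := by
          apply mul_le_mul_of_nonneg_right _ (by positivity)
          have h5 : (1 - ε / 2) * (1 + ε / 2 / 4) = 1 - 3 / 8 * ε - ε ^ 2 / 16 := by ring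
          have h6 : 0 ≤ ε ^ 2 := sq_nonneg ε
          rw [h5]
          linarith
      _ ≤ (1 - ε / 2 / 4) * (V * (M / W.totient)) - 40 * (M / W.totient) := by
          have h5 : 40 * (M / W.totient) ≤ (ε / 8 * V) * (M / W.totient) := by
            apply mul_le_mul_of_nonneg_right _ hMφ.le
            linarith
          have h6 : (1 - ε / 2 / 4) * (V * (M / W.totient)) - (1 - ε / 4) * (V * (M / W.totient)) =
            (ε / 8 * V) * (M / W.totient) := by ring
          linarith
  classical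
  set g : ℕ → ℝ := fun n => if n ≡ r [MOD W] then thH (HS (Y L)) n else 0 with hg
  have hgs : ∑ n ∈ Icc 1 ⌊3 * X⌋₊, nu X W r n * g n = ∑ n ∈ Icc 1 ⌊3 * X⌋₊, nu X W r n * thH (HS (Y L)) n := by
    apply Finset.sum_congr rfl
    intro n _
    rw [hg]
    simp only
    split_ifs with h
    · rfl
    · unfold nu
      rw [if_neg h, zero_mul, zero_mul]
  have hYX : (Y L : ℝ) ≤ X / 2 := hYL3.trans g11
  have hl4 : Real.log (4 * X) ≤ 2 * L := by
    rw [Real.log_mul (by norm_num) hXpos.ne']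
    have : Real.log 4 ≤ 2 := by
      rw [show (4 : ℝ) = 2 ^ 2 by norm_num, Real.log_pow]
      have := Real.log_two_lt_d9
      push_cast; linarith
    linarith
  have hl40 : 0 < Real.log (4 * X) := Real.log_pos (by linarith)
  have hthU : ∀ n : ℕ, (n : ℝ) < 3 * X → thH (HS (Y L)) n ≤ Real.log (4 * X) * cntG (Y L) (n + Y L + 1) := by
    intro n hn
    apply thH_le_cnt
    linarith
  have hgK : ∀ n : ℕ, X < n → (n : ℝ) < 3 * X → g n ≤ 2 * L ^ 4 := by
    intro n hn1 hn2
    rw [hg]
    simp only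
    split_ifs
    · refine (hthU n hn2).trans ?_
      have h1 : (cntG (Y L) (n + Y L + 1) : ℝ) ≤ Y L := by exact_mod_cast cntG_le _ _
      calc Real.log (4 * X) * cntG (Y L) (n + Y L + 1) ≤ (2 * L) * L ^ 3 := by
            apply mul_le_mul hl4 (h1.trans hYL3) (Nat.cast_nonneg _) (by positivity)
        _ = 2 * L ^ 4 := by ring
    · positivity
  have hcnt := count_many X hXpos W r g A ε N1 (2 * L ^ 4) hA1 hε (by linarith) hgK rfl (by rw [hgs]; exact hT)
  refine ⟨(rowset X (fun n => (1 - ε) * A ≤ g n)).image (fun n => n + Y L + 1), ?_, ?_⟩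
  · intro m hm
    obtain ⟨n, hn, rfl⟩ := mem_image.1 hm
    obtain ⟨m1, m2, m3, m4⟩ := mem_rowset.1 hn
    have hmod : n ≡ r [MOD W] := by
      by_contra hcon
      rw [hg] at m4
      simp only [if_neg hcon] at m4
      have : 0 < (1 - ε) * A := by
        apply mul_pos _ hA0
        linarith
      linarith
    have m5 : (1 - ε) * A ≤ thH (HS (Y L)) n := by
      rw [hg] at m4
      simpa only [if_pos hmod] using m4
    have hms : n + Y L + 1 ≡ s [MOD W] := mod_rs hW0n hmod
    have heven : Even (n + Y L + 1) := by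
      have h2 := hms.of_dvd hW2
      rw [even_iff_two_dvd]
      exact (Nat.ModEq.dvd_iff h2 dvd_rfl).2 hse.two_dvd
    have hnX : (X : ℝ) < ((n + Y L + 1 : ℕ) : ℝ) := by
      push_cast
      linarith
    have hmX : ((n + Y L + 1 : ℕ) : ℝ) ≤ 4 * X := by
      push_cast
      linarith
    refine ⟨heven, hnX, hmX, ?_⟩
    refine le_trans ?_ (m5.trans (hthU n m3))
    have hσs : (1 - ε) * sing (n + Y L + 1) ≤ σ := by
      have h1 := sing_le (Q := QZ X (z L) S ps) (fun q hq => ⟨(QZ_prop hq).1, (QZ_prop hq).2.1⟩) (n + Y L + 1)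
      rw [fQ_mod (Q := QZ X (z L) S ps) (W := W) (fun q hq => prime_dvd_WZ (mem_filter.1 hq).1) hms, ← hσ] at h1
      have h2 := extra (X := X) (z := z L) (Z := Z) (S := S) (ps := ps) hzy g16 (by omega) hps
        (m := n + Y L + 1) (by omega)
      set E := ∑ p ∈ ((n + Y L + 1).primeFactors.filter (fun p => 2 < p)).filter (fun p => p ∉ QZ X (z L) S ps), 3 / (p : ℝ) with hE
      have hE1 : E ≤ ε := by
        refine h2.trans ?_
        have a1 : 3 * ∑ q ∈ S, 1 / (q : ℝ) ≤ ε / 8 := by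
          calc 3 * ∑ q ∈ S, 1 / (q : ℝ) ≤ 3 * (6 / Real.log L ^ 2) := by gcongr
            _ = 18 / Real.log L ^ 2 := by ring
            _ ≤ ε / 8 := g15
        have a2 : 3 / (Z : ℝ) ≤ 3 * ε / 16 := by
          have hZ0 : (0 : ℝ) < Z := lt_of_lt_of_le (by positivity) hZZ
          rw [div_le_iff₀ hε] at hZZ
          rw [div_le_div_iff₀ hZ0 (by norm_num)]
          linarith
        have a3 : 3 * (Real.log ((n + Y L + 1 : ℕ) : ℝ) / Real.log (z L) / z L) ≤ ε / 8 := by
          have b1 : Real.log ((n + Y L + 1 : ℕ) : ℝ) ≤ 2 * L := (Real.log_le_log (by linarith) hmX).trans hl4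
          have b2 : 0 < 96 * D / ε := by positivity
          have b3 : 0 < Real.log (z L) := lt_of_lt_of_le b2 g13
          have b4 : (0 : ℝ) < L / (2 * D) := by positivity
          have b5 : 2 * L / (L / (2 * D)) = 4 * D := by field_simp; ring
          calc 3 * (Real.log ((n + Y L + 1 : ℕ) : ℝ) / Real.log (z L) / z L)
              ≤ 3 * (2 * L / (96 * D / ε) / (L / (2 * D))) := by gcongr
            _ = 3 * (4 * D) / (96 * D / ε) := by rw [← b5]; field_simp
            _ = ε / 8 := by field_simp; ring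
        linarith
      have h3 : (1 - ε) * Real.exp E ≤ 1 := by
        have h4 : 1 - ε ≤ Real.exp (-E) := by
          have := Real.add_one_le_exp (-E)
          linarith
        calc (1 - ε) * Real.exp E ≤ Real.exp (-E) * Real.exp E := by gcongr
          _ = 1 := by rw [← Real.exp_add, neg_add_cancel, Real.exp_zero]
      calc (1 - ε) * sing (n + Y L + 1) ≤ (1 - ε) * (σ * Real.exp E) := by
            apply mul_le_mul_of_nonneg_left h1
            linarith
        _ = σ * ((1 - ε) * Real.exp E) := by ring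
        _ ≤ σ * 1 := by gcongr
        _ = σ := mul_one _
    have c4 : ((1 - ε) * (EG - ε)) * ((1 / u - ε) * ℓ) ≤ B⁻¹ := by
      have h5 := BEZ_le hzy S ps Z (by omega) hps _ hS2
      have h6 := QQ_pos (z L)
      have h7 : 1 - ε ≤ 1 - 6 / Real.log L ^ 2 - 1 / Z := by
        have hZ0 : (0 : ℝ) < Z := lt_of_lt_of_le (by positivity) hZZ
        have h8 : 1 / (Z : ℝ) ≤ ε / 16 := by
          rw [div_le_iff₀ hε] at hZZ
          rw [div_le_div_iff₀ hZ0 (by norm_num)]
          linarith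
        have h9 : 6 / Real.log L ^ 2 ≤ ε / 8 := by
          refine le_trans ?_ g15
          gcongr
          norm_num
        linarith
      have h8 : B * (1 - ε) ≤ QQ (z L) := le_trans (by gcongr) h5
      have h9 : (1 - ε) * (QQ (z L))⁻¹ ≤ B⁻¹ := by
        rw [← div_eq_mul_inv, ← one_div, div_le_div_iff₀ h6 hB0]
        linarith
      refine le_trans ?_ h9
      rw [mul_assoc]
      apply mul_le_mul_of_nonneg_left _ (by linarith)
      refine le_trans ?_ g8.1
      have hE1 : 1 ≤ EG := by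
        unfold EG
        rw [← Real.exp_zero]
        exact Real.exp_le_exp.2 (by have := Real.one_half_lt_eulerMascheroniConstant; linarith)
      apply mul_le_mul_of_nonneg_left g7.1
      linarith
    have hE1 : 1 ≤ EG := by
      unfold EG
      rw [← Real.exp_zero]
      exact Real.exp_le_exp.2 (by have := Real.one_half_lt_eulerMascheroniConstant; linarith)
    have hu3 : 1 / 2 ≤ 1 / u := by
      apply one_div_le_one_div_of_le (by linarith) hu2
    have f1 : 0 ≤ 1 - ε := by linarith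
    have f2 : 0 ≤ 1 - 4 * ε := by linarith
    have f3 : 0 ≤ EG - ε := by linarith
    have f4 : 0 ≤ 1 / u - ε := by linarith
    calc ((1 - ε) * (1 - 4 * ε) * ((1 - ε) * (EG - ε)) * (1 / u - ε) * (1 - ε)) * (sing (n + Y L + 1) * (Y L / ℓ))
        = ((1 - ε) * (1 - 4 * ε) * ((1 - ε) * (EG - ε)) * (1 / u - ε)) * (((1 - ε) * sing (n + Y L + 1)) * (Y L / ℓ)) := by ring
      _ ≤ ((1 - ε) * (1 - 4 * ε) * ((1 - ε) * (EG - ε)) * (1 / u - ε)) * (σ * (Y L / ℓ)) := by gcongr
      _ = (1 - ε) * (((1 - 4 * ε) * σ * (Y L / ℓ ^ 2)) * (((1 - ε) * (EG - ε)) * ((1 / u - ε) * ℓ))) := by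
          field_simp
      _ ≤ (1 - ε) * (V * B⁻¹) := by
          apply mul_le_mul_of_nonneg_left _ f1
          apply mul_le_mul hsV c4 (by positivity) (by linarith)
      _ = (1 - ε) * A := by rw [hA, div_eq_mul_inv]
  · rw [Finset.card_image_of_injective _ (fun a b hab => by simpa using hab)]
    have hWle := WZ_le X (z L) S ps
    rw [← hW] at hWle
    have hWle' : (W : ℝ) ≤ Real.exp (3 / 2 * (L / D)) := by
      refine hWle.trans (Real.exp_le_exp.2 ?_)
      linarith
    have q1 : X / 40 / W ≤ N1 := by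
      refine le_trans ?_ r3
      have : 1 / 2 ≤ 1 - ε / 2 / 4 := by linarith
      calc X / 40 / W = 1 / 2 * (X / 20 / W) := by ring
        _ ≤ (1 - ε / 2 / 4) * (M / W) := by gcongr
    have q2 : ε / 2 * (X / 40 / Real.exp (3 / 2 * (L / D))) ≤
        2 * L ^ 4 * ((rowset X (fun n => (1 - ε) * A ≤ g n)).card : ℝ) := by
      refine le_trans ?_ hcnt
      apply mul_le_mul_of_nonneg_left _ (by positivity)
      refine le_trans ?_ q1
      gcongr
    have hL4 : 0 < L ^ 4 := by positivity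
    have hexp := Real.exp_pos (3 / 2 * (L / D))
    calc ε / 200 * (X / (Real.exp (3 / 2 * (L / D)) * L ^ 4))
        = (ε / 200 * (X / Real.exp (3 / 2 * (L / D)))) / L ^ 4 := by field_simp
      _ ≤ (2 * L ^ 4 * ((rowset X (fun n => (1 - ε) * A ≤ g n)).card : ℝ) / 2) / L ^ 4 := by
          apply div_le_div_of_nonneg_right _ hL4.le
          have : 0 < X / Real.exp (3 / 2 * (L / D)) := by positivity
          have h9 : ε / 2 * (X / 40 / Real.exp (3 / 2 * (L / D))) = ε / 80 * (X / Real.exp (3 / 2 * (L / D))) := by ring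
          rw [h9] at q2
          have h10 : ε / 200 * (X / Real.exp (3 / 2 * (L / D))) ≤ (ε / 80 * (X / Real.exp (3 / 2 * (L / D)))) / 2 := by
            have : 0 < ε * (X / Real.exp (3 / 2 * (L / D))) := by positivity
            linarith
          linarith
      _ = _ := by field_simp

end Pool.Agent.T2H52.MG
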