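import Mathlib
import Pool.Agent.T2H52.MG.A8

/-! The number of the representations `m = p + q` with a small prime `p`: irregularities. -/

set_option autoImplicit false

open Finset Filter Topology
open Pool.Agent.H378R2
open Pool.Agent.H510R2.Maier

namespace Pool.Agent.T2H52.MG

theorem freq_ar (η : ℝ) (hη : 0 < η) (c0 : ℝ) (hc0 : 0 < c0) (D : ℝ) (hD : 3 / η ≤ D) : ∀ᶠ X : ℝ in atTop,
    (4 * X) ^ (1 - η) ≤ c0 * (X / (Real.exp (3 / 2 * (Real.log X / D)) * (Real.log X) ^ 4)) := by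
  have hD0 : 0 < D := lt_of_lt_of_le (by positivity) hD
  have e1 := Real.isLittleO_log_id_atTop.bound (show (0 : ℝ) < η / 16 by positivity)
  have e1' := Real.tendsto_log_atTop.eventually e1
  have e2 := Real.tendsto_log_atTop.eventually_ge_atTop (4 / η * |(1 - η) * Real.log 4 - Real.log c0|)
  filter_upwards [e1', e2, Real.tendsto_log_atTop.eventually_gt_atTop (1 : ℝ), eventually_gt_atTop (1 : ℝ)] with X h1 h2 h3 h4
  have hX0 : 0 < X := by linarith
  set L := Real.log X with hL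
  have hlogL : 0 < Real.log L := Real.log_pos h3
  rw [Real.norm_of_nonneg hlogL.le, id, Real.norm_of_nonneg (by linarith)] at h1
  have h5 : c0 * (X / (Real.exp (3 / 2 * (L / D)) * L ^ 4)) =
      Real.exp (Real.log c0 + L - 3 / 2 * (L / D) - 4 * Real.log L) := by
    rw [Real.exp_sub, Real.exp_sub, Real.exp_add, Real.exp_log hc0, hL, Real.exp_log hX0, ← hL]
    have : Real.exp (4 * Real.log L) = L ^ 4 := by
      rw [show (4 : ℝ) * Real.log L = ((4 : ℕ) : ℝ) * Real.log L by norm_num, Real.exp_nat_mul, Real.exp_log (by linarith)]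
    rw [this]
    field_simp
  rw [h5, Real.rpow_def_of_pos (by positivity), Real.log_mul (by norm_num) hX0.ne', ← hL]
  apply Real.exp_le_exp.2
  have h6 : 3 / 2 * (L / D) ≤ η / 2 * L := by
    have h7 : 3 ≤ D * η := by
      rw [div_le_iff₀ hη] at hD
      exact hD
    rw [mul_div_assoc', div_le_iff₀ hD0]
    nlinarith
  have h7 : (1 - η) * Real.log 4 - Real.log c0 ≤ η / 4 * L := by
    refine (le_abs_self _).trans ?_
    have h8 : |(1 - η) * Real.log 4 - Real.log c0| = η / 4 * (4 / η * |(1 - η) * Real.log 4 - Real.log c0|) := by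
      field_simp
    rw [h8]
    gcongr
  nlinarith

/-- the functions `y`: `log y(t) / log t` tends to `A`, and `y` is nearly constant on `[t, t + 2]` -/
structure Adm (A : ℝ) (y : ℝ → ℝ) : Prop where
  lim : Tendsto (fun t => Real.log (y t) / Real.log t) atTop (𝓝 A)
  near : ∀ ε : ℝ, 0 < ε → ∀ᶠ t in atTop, ∀ t' : ℝ, t ≤ t' → t' ≤ t + 2 → |y t' - y t| ≤ ε * y t

namespace Adm

variable {A : ℝ} {y : ℝ → ℝ}

theorem logtop (h : Adm A y) (hA : 0 < A) : Tendsto (fun t => Real.log (y t)) atTop atTop := by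
  have h1 := h.lim.pos_mul_atTop hA Real.tendsto_log_atTop
  refine h1.congr' ?_
  filter_upwards [eventually_gt_atTop (1 : ℝ)] with L hL
  have := Real.log_pos hL
  field_simp

theorem pos (h : Adm A y) (hA : 0 < A) : ∀ᶠ t in atTop, 0 < y t := by
  filter_upwards [h.near 1 one_pos, (h.logtop hA).eventually_gt_atTop 0] with t h1 h2
  have h3 := h1 t le_rfl (by linarith)
  rw [sub_self, abs_zero, one_mul] at h3
  rcases h3.lt_or_eq with h4 | h4
  · exact h4
  · rw [← h4, Real.log_zero] at h2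
    exact absurd h2 (lt_irrefl _)

theorem top (h : Adm A y) (hA : 0 < A) : Tendsto y atTop atTop := by
  have h1 := Real.tendsto_exp_atTop.comp (h.logtop hA)
  refine h1.congr' ?_
  filter_upwards [h.pos hA] with t ht
  simp only [Function.comp]
  exact Real.exp_log ht

theorem logfloor (h : Adm A y) (hA : 0 < A) (c : ℝ) (hc : 0 < c) :
    Tendsto (fun t => Real.log ⌊c * y t⌋₊ / Real.log t) atTop (𝓝 A) := by
  have htop : Tendsto (fun t => c * y t) atTop atTop := (h.top hA).const_mul_atTop hc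
  have h1 := log_floor_div.comp htop
  have h2 : Tendsto (fun t => Real.log (c * y t) / Real.log t) atTop (𝓝 A) := by
    have h3 : Tendsto (fun t => Real.log c / Real.log t + Real.log (y t) / Real.log t) atTop (𝓝 (0 + A)) :=
      (tendsto_const_nhds.div_atTop Real.tendsto_log_atTop).add h.lim
    rw [zero_add] at h3
    refine h3.congr' ?_
    filter_upwards [h.pos hA] with t ht
    rw [Real.log_mul hc.ne' ht.ne', add_div]
  have h3 := h1.mul h2
  rw [one_mul] at h3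
  refine h3.congr' ?_
  filter_upwards [htop.eventually_gt_atTop 1] with t ht
  have := Real.log_pos ht
  simp only [Function.comp]
  field_simp

end Adm

theorem scale_of {A : ℝ} {y : ℝ → ℝ} (h : Adm A y) (v : ℝ) (hv0 : 0 < v) (hv1 : v ≤ 1) (hu1 : 1 < A / v) (hu2 : A / v ≤ 2)
    (D : ℝ) (hD : 1 ≤ D) (c : ℝ) (hc : 0 < c) :
    Scale (A / v) v (fun L => ⌊1 / D * L ^ v⌋₊) (fun L => ⌊c * y L⌋₊) := by
  have hA : 0 < A := by
    have := (one_lt_div hv0).1 hu1
    linarith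
  have hz := tlogfloor (1 / D) v (by positivity) hv0
  refine ⟨hu1, hu2, hv0, hv1, hz, ?_⟩
  have h1 := (h.logfloor hA c hc).div hz hv0.ne'
  refine h1.congr' ?_
  filter_upwards [eventually_gt_atTop (1 : ℝ)] with L hL
  have := Real.log_pos hL
  simp only [Pi.div_apply]
  field_simp

theorem log_near {X : ℝ} (hX : 0 < X) {m : ℕ} (h1 : X < m) (h2 : (m : ℝ) ≤ 4 * X) :
    Real.log X ≤ Real.log m ∧ Real.log m ≤ Real.log X + 2 := by
  refine ⟨Real.log_le_log hX h1.le, ?_⟩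
  have a1 : Real.log m ≤ Real.log (4 * X) := Real.log_le_log (by linarith) h2
  rw [Real.log_mul (by norm_num) hX.ne'] at a1
  have a2 : Real.log 4 ≤ 2 := by
    rw [show (4 : ℝ) = 2 ^ 2 by norm_num, Real.log_pow]
    have := Real.log_two_lt_d9
    push_cast; linarith
  linarith

theorem sing_pos (m : ℕ) : 0 < sing m := by
  rw [sing_eq]
  have h1 := two_C₂
  apply mul_pos (by linarith)
  apply Finset.prod_pos
  intro p hp
  have := fac_ge (q := p) (by have := (mem_filter.1 hp).2; omega)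
  linarith

theorem reps_le {m Y : ℕ} {y : ℝ} (hm : Even m) (hm4 : 4 < m) (hy : ⌊y⌋₊ ≤ Y) : reps m y ≤ cntG Y m := by
  unfold reps cntG
  apply Finset.card_le_card
  intro p hp
  rw [mem_filter, mem_Icc] at hp
  rw [mem_filter, mem_PP]
  have h2 : p ≠ 2 := by
    rintro rfl
    have h3 := hp.2.2
    have h4 : Even (m - 2) := by
      obtain ⟨k, hk⟩ := hm
      exact ⟨k - 1, by omega⟩
    have := (h3.even_iff).1 h4
    omega
  have := hp.2.1.two_le
  exact ⟨⟨⟨by omega, by omega⟩, hp.2.1⟩, hp.2.2⟩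

theorem le_reps {m Y : ℕ} {y : ℝ} (hy : Y ≤ ⌊y⌋₊) : cntG Y m ≤ reps m y := by
  unfold reps cntG
  apply Finset.card_le_card
  intro p hp
  rw [mem_filter, mem_PP] at hp
  rw [mem_filter, mem_Icc]
  exact ⟨by omega, hp.1.2, hp.2⟩

theorem choose_eps1 (κ : ℝ) (h : EG / 2 < κ) : ∃ ε : ℝ, 0 < ε ∧ ε ≤ 1 / 8 ∧
    ((1 + ε) * (1 + 5 * ε) * (EG + ε) * (1 / 2 + ε)) * (1 + ε) ^ 3 ≤ κ * (1 - ε) := by
  have h1 : Tendsto (fun ε : ℝ => ((1 + ε) * (1 + 5 * ε) * (EG + ε) * (1 / 2 + ε)) * (1 + ε) ^ 3 - κ * (1 - ε)) (𝓝[>] 0)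
      (𝓝 (((1 + 0) * (1 + 5 * 0) * (EG + 0) * (1 / 2 + 0)) * (1 + 0) ^ 3 - κ * (1 - 0))) := by
    apply Tendsto.mono_left _ nhdsWithin_le_nhds
    apply Continuous.tendsto
    fun_prop
  have h2 : ((1 + 0) * (1 + 5 * 0) * (EG + 0) * (1 / 2 + 0)) * (1 + 0) ^ 3 - κ * (1 - 0) < 0 := by
    norm_num
    linarith
  have h3 := h1.eventually_lt_const h2
  have h4 : ∀ᶠ ε : ℝ in 𝓝[>] 0, ε ∈ Set.Ioc (0 : ℝ) (1 / 8) := Ioc_mem_nhdsGT (by norm_num)
  obtain ⟨ε, h5, h6⟩ := (h3.and h4).exists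
  exact ⟨ε, h6.1, h6.2, by linarith⟩

theorem choose_eps2 (A κ : ℝ) (h : κ < EG / A) : ∃ ε : ℝ, 0 < ε ∧ ε ≤ 1 / 8 ∧
    κ * (1 + ε) ^ 3 ≤ ((1 - ε) * (1 - 4 * ε) * ((1 - ε) * (EG - ε)) * (1 / A - ε) * (1 - ε)) * (1 - ε) := by
  have h1 : Tendsto (fun ε : ℝ => ((1 - ε) * (1 - 4 * ε) * ((1 - ε) * (EG - ε)) * (1 / A - ε) * (1 - ε)) * (1 - ε) -
      κ * (1 + ε) ^ 3) (𝓝[>] 0)
      (𝓝 (((1 - 0) * (1 - 4 * 0) * ((1 - 0) * (EG - 0)) * (1 / A - 0) * (1 - 0)) * (1 - 0) - κ * (1 + 0) ^ 3)) := by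
    apply Tendsto.mono_left _ nhdsWithin_le_nhds
    apply Continuous.tendsto
    fun_prop
  have h2 : 0 < ((1 - 0) * (1 - 4 * 0) * ((1 - 0) * (EG - 0)) * (1 / A - 0) * (1 - 0)) * (1 - 0) - κ * (1 + 0) ^ 3 := by
    have : ((1 - 0) * (1 - 4 * 0) * ((1 - 0) * (EG - 0)) * (1 / A - 0) * (1 - 0)) * (1 - 0) - κ * (1 + 0) ^ 3 =
      EG / A - κ := by ring
    rw [this]
    linarith
  have h3 := h1.eventually_const_lt h2
  have h4 : ∀ᶠ ε : ℝ in 𝓝[>] 0, ε ∈ Set.Ioc (0 : ℝ) (1 / 8) := Ioc_mem_nhdsGT (by norm_num)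
  obtain ⟨ε, h5, h6⟩ := (h3.and h4).exists
  exact ⟨ε, h6.1, h6.2, by linarith⟩

open Classical in
/-- the number of the even `m ≤ x` with `P m` -/
noncomputable def evens (P : ℕ → Prop) (x : ℕ) : ℕ := ((Icc 1 x).filter (fun m => Even m ∧ P m)).card

theorem from_key (P : ℕ → Prop) (η c0 D : ℝ) (hη : 0 < η) (hc0 : 0 < c0) (hD : 3 / η ≤ D)
    (key : ∀ᶠ X : ℝ in atTop, ∃ M : Finset ℕ, (∀ m ∈ M, Even m ∧ (m : ℝ) ≤ 4 * X ∧ X < m ∧ P m) ∧
      c0 * (X / (Real.exp (3 / 2 * (Real.log X / D)) * Real.log X ^ 4)) ≤ M.card) :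
    ∀ᶠ x : ℕ in atTop, (x : ℝ) ^ (1 - η) ≤ evens P x := by
  classical
  have htend : Tendsto (fun x : ℕ => (x : ℝ) / 4) atTop atTop :=
    tendsto_natCast_atTop_atTop.atTop_div_const (by norm_num)
  filter_upwards [htend.eventually key, htend.eventually (freq_ar η hη c0 hc0 D hD), htend.eventually_ge_atTop 1] with x h1 h2 h3
  obtain ⟨M, hM, hc⟩ := h1
  have h6 : 4 * ((x : ℝ) / 4) = x := by ring
  rw [h6] at h2
  refine h2.trans (hc.trans ?_)
  unfold evens
  have : M ⊆ (Icc 1 x).filter (fun m => Even m ∧ P m) := by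
    intro m hm
    obtain ⟨a1, a2, a3, a4⟩ := hM m hm
    rw [h6] at a2
    rw [mem_filter, mem_Icc]
    refine ⟨⟨?_, by exact_mod_cast a2⟩, a1, a4⟩
    have : (1 : ℝ) < m := by linarith
    exact_mod_cast this.le
  exact_mod_cast Finset.card_le_card this

/-- **Few representations.** -/
theorem few {A : ℝ} {y : ℝ → ℝ} (hA1 : 1 < A) (hA2 : A ≤ 2) (h : Adm A y) (κ : ℝ) (hκ : EG / 2 < κ) (η : ℝ) (hη : 0 < η) :
    ∀ᶠ x : ℕ in atTop, (x : ℝ) ^ (1 - η) ≤
      evens (fun m => (reps m (y (Real.log m)) : ℝ) ≤ κ * expected m (y (Real.log m))) x := by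
  obtain ⟨ε, hε, hε1, hκε⟩ := choose_eps1 κ hκ
  have hA0 : 0 < A := by linarith
  set D : ℝ := max 1100 (3 / η) with hDdef
  have hD : 1100 ≤ D := le_max_left _ _
  have hD2 : 3 / η ≤ D := le_max_right _ _
  have hD0 : 0 < D := by linarith
  have hAv : A / (A / 2) = 2 := by field_simp
  have hs := scale_of h (A / 2) (by linarith) (by linarith) (by rw [hAv]; norm_num) (by rw [hAv]) D (by linarith)
    (1 + ε) (by linarith)
  rw [hAv] at hs
  have hzD : ∀ᶠ L : ℝ in atTop, ((⌊1 / D * L ^ (A / 2)⌋₊ : ℕ) : ℝ) ≤ L / D := by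
    filter_upwards [eventually_ge_atTop (1 : ℝ)] with L hL
    refine (Nat.floor_le (by positivity)).trans ?_
    have : L ^ (A / 2) ≤ L ^ (1 : ℝ) := Real.rpow_le_rpow_of_exponent_le hL (by linarith)
    rw [Real.rpow_one] at this
    calc 1 / D * L ^ (A / 2) ≤ 1 / D * L := by gcongr
      _ = L / D := by ring
  have hkey := few_key hs D hD hzD ε hε (by linarith)
  apply from_key _ η (ε / 200) D hη (by positivity) hD2
  have hlt := Real.tendsto_log_atTop
  filter_upwards [hkey, hlt.eventually (h.near ε hε), hlt.eventually (h.pos hA0), eventually_ge_atTop (40 : ℝ),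
    hlt.eventually (hs.logY.eventually_ge_atTop (1 / ε)), hlt.eventually_ge_atTop (2 / ε),
    hlt.eventually ((h.top hA0).eventually_ge_atTop 4), hlt.eventually_ge_atTop (1 : ℝ)] with X g1 g2 g3 g4 g5 g6 g7 g8
  obtain ⟨M, hM, hMc⟩ := g1
  set L := Real.log X with hL
  have hL0 : 0 < L := by linarith
  refine ⟨M, fun m hm => ?_, ?_⟩
  · obtain ⟨m1, m2, m3, m4⟩ := hM m hm
    refine ⟨m1, m3, m2, ?_⟩
    obtain ⟨l1, l2⟩ := log_near (by linarith) m2 m3
    rw [← hL] at l1 l2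
    set t := Real.log m with ht
    have hnear := abs_le.1 (g2 t l1 l2)
    set Y : ℕ := ⌊(1 + ε) * y L⌋₊ with hY
    set ℓ := Real.log (Y : ℝ) with hℓ
    have hyt1 : y t ≤ (1 + ε) * y L := by linarith [hnear.2]
    have hyt2 : (1 - ε) * y L ≤ y t := by linarith [hnear.1]
    have hYle : (Y : ℝ) ≤ (1 + ε) * y L := Nat.floor_le (by positivity)
    have hYgt : (1 + ε) * y L < Y + 1 := Nat.lt_floor_add_one _
    have hyL4 : 4 ≤ (1 + ε) * y L := by nlinarith
    have hY1 : (1 : ℝ) ≤ Y := by linarith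
    have hm4 : 4 < m := by
      have : (4 : ℝ) < m := by linarith
      exact_mod_cast this
    have hreps : (reps m (y t) : ℝ) ≤ cntG Y m := by
      exact_mod_cast reps_le m1 hm4 (Nat.floor_le_floor hyt1)
    have hyt0 : 1 < y t := by
      have : (1 - ε) * 4 ≤ (1 - ε) * y L := by
        apply mul_le_mul_of_nonneg_left g7
        linarith
      linarith
    have hlyt0 : 0 < Real.log (y t) := Real.log_pos hyt0
    have hlyt : Real.log (y t) ≤ (1 + ε) * ℓ := by
      have h1 : y t ≤ 2 * Y := by linarith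
      have h2 : Real.log (y t) ≤ Real.log (2 * Y) := Real.log_le_log (by linarith) h1
      rw [Real.log_mul (by norm_num) (by linarith)] at h2
      have h3 : Real.log 2 ≤ 1 := by have := Real.log_two_lt_d9; linarith
      have h4 : 1 ≤ ε * ℓ := by
        rw [div_le_iff₀ hε] at g5
        linarith
      linarith
    have hℓ0 : 0 < ℓ := lt_of_lt_of_le (by positivity) g5
    have hlm : t ≤ (1 + ε) * L := by
      have h4 : 2 ≤ ε * L := by
        rw [div_le_iff₀ hε] at g6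
        linarith
      linarith
    have ht0 : 0 < t := by linarith
    have hexp : sing m * (Y / (ℓ * L)) * (1 - ε) ≤ (1 + ε) ^ 3 * expected m (y t) := by
      unfold expected
      rw [← ht]
      have h1 : (1 - ε) * Y ≤ (1 + ε) * y t := by
        calc (1 - ε) * (Y : ℝ) ≤ (1 - ε) * ((1 + ε) * y L) := by
              apply mul_le_mul_of_nonneg_left hYle
              linarith
          _ = (1 + ε) * ((1 - ε) * y L) := by ring
          _ ≤ (1 + ε) * y t := by gcongr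
      have h2 : (1 - ε) * Y / (ℓ * L) ≤ (1 + ε) ^ 3 * (y t / (Real.log (y t) * t)) := by
        rw [← mul_div_assoc, div_le_div_iff₀ (by positivity) (by positivity)]
        calc (1 - ε) * Y * (Real.log (y t) * t) ≤ ((1 + ε) * y t) * (((1 + ε) * ℓ) * ((1 + ε) * L)) := by
              apply mul_le_mul h1 _ (by positivity) (by positivity)
              apply mul_le_mul hlyt hlm ht0.le (by positivity)
          _ = (1 + ε) ^ 3 * y t * (ℓ * L) := by ring
      calc sing m * (Y / (ℓ * L)) * (1 - ε) = sing m * ((1 - ε) * Y / (ℓ * L)) := by ring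
        _ ≤ sing m * ((1 + ε) ^ 3 * (y t / (Real.log (y t) * t))) := by
            apply mul_le_mul_of_nonneg_left h2 (sing_pos m).le
        _ = _ := by ring
    have hE0 : 0 ≤ expected m (y t) := by
      unfold expected
      have := sing_pos m
      rw [← ht]
      positivity
    have hcnt : (cntG Y m : ℝ) ≤ ((1 + ε) * (1 + 5 * ε) * (EG + ε) * (1 / 2 + ε)) * (sing m * (Y / (ℓ * L))) := by
      have h1 : L * (cntG Y m : ℝ) ≤ L * (((1 + ε) * (1 + 5 * ε) * (EG + ε) * (1 / 2 + ε)) * (sing m * (Y / (ℓ * L)))) := by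
        refine m4.trans (le_of_eq ?_)
        field_simp
      exact le_of_mul_le_mul_left h1 hL0
    refine hreps.trans ?_
    have hF0 : 0 ≤ (1 + ε) * (1 + 5 * ε) * (EG + ε) * (1 / 2 + ε) := by
      have := EG_pos
      positivity
    have h1ε : 0 < 1 - ε := by linarith
    have hfin : (1 - ε) * (cntG Y m : ℝ) ≤ (1 - ε) * (κ * expected m (y t)) := by
      calc (1 - ε) * (cntG Y m : ℝ)
          ≤ (1 - ε) * (((1 + ε) * (1 + 5 * ε) * (EG + ε) * (1 / 2 + ε)) * (sing m * (Y / (ℓ * L)))) := by gcongr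
        _ = ((1 + ε) * (1 + 5 * ε) * (EG + ε) * (1 / 2 + ε)) * (sing m * (Y / (ℓ * L)) * (1 - ε)) := by ring
        _ ≤ ((1 + ε) * (1 + 5 * ε) * (EG + ε) * (1 / 2 + ε)) * ((1 + ε) ^ 3 * expected m (y t)) := by gcongr
        _ = (((1 + ε) * (1 + 5 * ε) * (EG + ε) * (1 / 2 + ε)) * (1 + ε) ^ 3) * expected m (y t) := by ring
        _ ≤ (κ * (1 - ε)) * expected m (y t) := by gcongr
        _ = _ := by ring
    exact le_of_mul_le_mul_left hfin h1ε
  · refine le_trans ?_ hMc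
    have hexp := Real.exp_pos (3 / 2 * (L / D))
    have hL4 : 1 ≤ L ^ 4 := one_le_pow₀ g8
    have hX0 : 0 < X := by linarith
    apply mul_le_mul_of_nonneg_left _ (by positivity)
    apply div_le_div_of_nonneg_left hX0.le hexp
    exact le_mul_of_one_le_right hexp.le hL4

/-- **Many representations.** -/
theorem many {A : ℝ} {y : ℝ → ℝ} (hA1 : 1 < A) (hA2 : A ≤ 2) (h : Adm A y) (κ : ℝ) (hκ : κ < EG / A) (η : ℝ) (hη : 0 < η) :
    ∀ᶠ x : ℕ in atTop, (x : ℝ) ^ (1 - η) ≤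
      evens (fun m => κ * expected m (y (Real.log m)) ≤ (reps m (y (Real.log m)) : ℝ)) x := by
  obtain ⟨ε, hε, hε1, hκε⟩ := choose_eps2 A κ hκ
  have hA0 : 0 < A := by linarith
  set D : ℝ := max 1100 (3 / η) with hDdef
  have hD : 1100 ≤ D := le_max_left _ _
  have hD2 : 3 / η ≤ D := le_max_right _ _
  have hD0 : 0 < D := by linarith
  have hAv : A / 1 = A := by ring
  have hs := scale_of h 1 one_pos le_rfl (by rw [hAv]; exact hA1) (by rw [hAv]; exact hA2) D (by linarith)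
    (1 - ε) (by linarith)
  rw [hAv] at hs
  have hzD : ∀ᶠ L : ℝ in atTop, ((⌊1 / D * L ^ (1 : ℝ)⌋₊ : ℕ) : ℝ) ≤ L / D := by
    filter_upwards [eventually_ge_atTop (1 : ℝ)] with L hL
    refine (Nat.floor_le (by positivity)).trans ?_
    rw [Real.rpow_one]
    exact le_of_eq (by ring)
  have hzD2 : ∀ᶠ L : ℝ in atTop, L / (2 * D) ≤ ((⌊1 / D * L ^ (1 : ℝ)⌋₊ : ℕ) : ℝ) := by
    filter_upwards [eventually_ge_atTop (2 * D)] with L hL
    have h1 : 1 / D * L ^ (1 : ℝ) < (⌊1 / D * L ^ (1 : ℝ)⌋₊ : ℝ) + 1 := Nat.lt_floor_add_one _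
    rw [Real.rpow_one] at h1 ⊢
    have h2 : 1 ≤ L / (2 * D) := by
      rw [le_div_iff₀ (by positivity)]
      linarith
    have h3 : 1 / D * L = L / (2 * D) + L / (2 * D) := by field_simp; ring
    linarith
  have hkey := many_key hs D hD hzD hzD2 ε hε hε1
  apply from_key _ η (ε / 200) D hη (by positivity) hD2
  have hlt := Real.tendsto_log_atTop
  filter_upwards [hkey, hlt.eventually (h.near ε hε), hlt.eventually (h.pos hA0), eventually_ge_atTop (40 : ℝ),
    hlt.eventually (hs.logY.eventually_ge_atTop 1), hlt.eventually_ge_atTop (2 / ε),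
    hlt.eventually ((h.top hA0).eventually_ge_atTop (4 / ε)), hlt.eventually_ge_atTop (1 : ℝ)] with X g1 g2 g3 g4 g5 g6 g7 g8
  obtain ⟨M, hM, hMc⟩ := g1
  set L := Real.log X with hL
  have hL0 : 0 < L := by linarith
  refine ⟨M, fun m hm => ?_, hMc⟩
  obtain ⟨m1, m2, m3, m4⟩ := hM m hm
  refine ⟨m1, m3, m2, ?_⟩
  obtain ⟨l1, l2⟩ := log_near (by linarith) m2 m3
  rw [← hL] at l1 l2
  set t := Real.log m with ht
  have hnear := abs_le.1 (g2 t l1 l2)
  set Y : ℕ := ⌊(1 - ε) * y L⌋₊ with hY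
  set ℓ := Real.log (Y : ℝ) with hℓ
  have hyt1 : y t ≤ (1 + ε) * y L := by linarith [hnear.2]
  have hyt2 : (1 - ε) * y L ≤ y t := by linarith [hnear.1]
  have h1ε : 0 < 1 - ε := by linarith
  have hYle : (Y : ℝ) ≤ (1 - ε) * y L := Nat.floor_le (by positivity)
  have hYgt : (1 - ε) * y L < Y + 1 := Nat.lt_floor_add_one _
  have hyL : 4 ≤ ε * y L := by
    rw [div_le_iff₀ hε] at g7
    linarith
  have hyL4 : 32 ≤ y L := by nlinarith
  have hYbig : 1 ≤ ε * Y := by
    have : (1 - ε) * (ε * y L) ≤ ε * (Y + 1) := by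
      calc (1 - ε) * (ε * y L) = ε * ((1 - ε) * y L) := by ring
        _ ≤ ε * (Y + 1) := by gcongr
    nlinarith
  have hY1 : (1 : ℝ) ≤ Y := by nlinarith
  have hreps : (cntG Y m : ℝ) ≤ reps m (y t) := by
    exact_mod_cast le_reps (Nat.floor_le_floor hyt2)
  have hYyt : (Y : ℝ) ≤ y t := hYle.trans hyt2
  have hℓ0 : 0 < ℓ := by linarith
  have hlyt : ℓ ≤ Real.log (y t) := Real.log_le_log (by linarith) hYyt
  have hlyt0 : 0 < Real.log (y t) := by linarith
  have ht0 : 0 < t := by linarith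
  have hlX : Real.log (4 * X) ≤ (1 + ε) * L := by
    have h4 : 2 ≤ ε * L := by
      rw [div_le_iff₀ hε] at g6
      linarith
    rw [Real.log_mul (by norm_num) (by linarith)]
    have a2 : Real.log 4 ≤ 2 := by
      rw [show (4 : ℝ) = 2 ^ 2 by norm_num, Real.log_pow]
      have := Real.log_two_lt_d9
      push_cast; linarith
    linarith
  have hexp : (1 - ε) * expected m (y t) ≤ (1 + ε) ^ 2 * (sing m * (Y / (ℓ * L))) := by
    unfold expected
    rw [← ht]
    have h1 : (1 - ε) * y t ≤ (1 + ε) ^ 2 * Y := by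
      calc (1 - ε) * y t ≤ (1 - ε) * ((1 + ε) * y L) := by gcongr
        _ = (1 + ε) * ((1 - ε) * y L) := by ring
        _ ≤ (1 + ε) * (Y + 1) := by gcongr
        _ ≤ (1 + ε) * (Y + ε * Y) := by gcongr
        _ = (1 + ε) ^ 2 * Y := by ring
    have h2 : (1 - ε) * (y t / (Real.log (y t) * t)) ≤ (1 + ε) ^ 2 * (Y / (ℓ * L)) := by
      rw [← mul_div_assoc, ← mul_div_assoc]
      apply div_le_div₀ (by positivity) h1 (by positivity)
      apply mul_le_mul hlyt l1 hL0.le hlyt0.le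
    calc (1 - ε) * (sing m * (y t / (Real.log (y t) * t))) = sing m * ((1 - ε) * (y t / (Real.log (y t) * t))) := by ring
      _ ≤ sing m * ((1 + ε) ^ 2 * (Y / (ℓ * L))) := mul_le_mul_of_nonneg_left h2 (sing_pos m).le
      _ = _ := by ring
  have hE0 : 0 ≤ expected m (y t) := by
    unfold expected
    have := sing_pos m
    have : 0 < y t := by linarith
    rw [← ht]
    positivity
  set F := (1 - ε) * (1 - 4 * ε) * ((1 - ε) * (EG - ε)) * (1 / A - ε) * (1 - ε) with hF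
  have hEG1 : 1 ≤ EG := by
    unfold EG
    rw [← Real.exp_zero]
    exact Real.exp_le_exp.2 (by have := Real.one_half_lt_eulerMascheroniConstant; linarith)
  have hA3 : 1 / 2 ≤ 1 / A := one_div_le_one_div_of_le hA0 hA2
  have hF0 : 0 ≤ F := by
    rw [hF]
    have f2 : 0 ≤ 1 - 4 * ε := by linarith
    have f3 : 0 ≤ EG - ε := by linarith
    have f4 : 0 ≤ 1 / A - ε := by linarith
    positivity
  have hcnt : F * (sing m * (Y / (ℓ * L))) ≤ (1 + ε) * (cntG Y m : ℝ) := by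
    have h1 : L * (F * (sing m * (Y / (ℓ * L)))) ≤ L * ((1 + ε) * (cntG Y m : ℝ)) := by
      calc L * (F * (sing m * (Y / (ℓ * L)))) = F * (sing m * (Y / ℓ)) := by field_simp
        _ ≤ Real.log (4 * X) * cntG Y m := m4
        _ ≤ ((1 + ε) * L) * cntG Y m := by gcongr
        _ = _ := by ring
    exact le_of_mul_le_mul_left h1 hL0
  have hfin : (1 + ε) ^ 3 * (κ * expected m (y t)) ≤ (1 + ε) ^ 3 * (cntG Y m : ℝ) := by
    calc (1 + ε) ^ 3 * (κ * expected m (y t)) = (κ * (1 + ε) ^ 3) * expected m (y t) := by ring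
      _ ≤ (F * (1 - ε)) * expected m (y t) := by gcongr
      _ = F * ((1 - ε) * expected m (y t)) := by ring
      _ ≤ F * ((1 + ε) ^ 2 * (sing m * (Y / (ℓ * L)))) := by gcongr
      _ = (1 + ε) ^ 2 * (F * (sing m * (Y / (ℓ * L)))) := by ring
      _ ≤ (1 + ε) ^ 2 * ((1 + ε) * (cntG Y m : ℝ)) := by gcongr
      _ = _ := by ring
  exact (le_of_mul_le_mul_left hfin (by positivity)).trans hreps

end Pool.Agent.T2H52.MG
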