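import Mathlib
import Pool.Agent.T2H52.MG.A9

/-! The functions `C t ^ A (log t) ^ B`. -/

set_option autoImplicit false

open Finset Filter Topology

namespace Pool.Agent.T2H52.MG

theorem adm_pow (A B C : ℝ) (hA : 0 < A) (hC : 0 < C) : Adm A (fun t => C * t ^ A * Real.log t ^ B) := by
  constructor
  · have h1 : Tendsto (fun t : ℝ => Real.log C / Real.log t + A + B * (Real.log (Real.log t) / Real.log t)) atTop
        (𝓝 (0 + A + B * 0)) := by
      apply Tendsto.add
      · exact (tendsto_const_nhds.div_atTop Real.tendsto_log_atTop).add tendsto_const_nhds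
      · apply Tendsto.const_mul
        have h2 : Tendsto (fun x : ℝ => Real.log x / x) atTop (𝓝 0) := Real.isLittleO_log_id_atTop.tendsto_div_nhds_zero
        exact h2.comp Real.tendsto_log_atTop
    rw [zero_add, mul_zero, add_zero] at h1
    refine h1.congr' ?_
    filter_upwards [eventually_gt_atTop (Real.exp 1)] with t ht
    have ht0 : 0 < t := (Real.exp_pos 1).trans ht
    have hl : 1 < Real.log t := by
      rw [Real.lt_log_iff_exp_lt ht0]; exact ht
    have hl0 : 0 < Real.log t := by linarith
    rw [Real.log_mul (by positivity) (by positivity), Real.log_mul hC.ne' (by positivity), Real.log_rpow ht0,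
      Real.log_rpow hl0]
    field_simp
  · intro ε hε
    obtain ⟨K, hK⟩ : ∃ K : ℝ, K = 2 * (A + |B|) := ⟨_, rfl⟩
    have hK0 : 0 < K := by
      rw [hK]
      have := abs_nonneg B
      linarith
    filter_upwards [eventually_gt_atTop (Real.exp 1), eventually_ge_atTop (2 * K / ε), eventually_ge_atTop K] with t ht h1 h2
    intro t' h3 h4
    have ht0 : 0 < t := (Real.exp_pos 1).trans ht
    have ht0' : 0 < t' := by linarith
    have hl : 1 < Real.log t := by
      rw [Real.lt_log_iff_exp_lt ht0]; exact ht
    have hl0 : 0 < Real.log t := by linarith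
    have hll' : Real.log t ≤ Real.log t' := Real.log_le_log ht0 h3
    have hl0' : 0 < Real.log t' := by linarith
    set a := Real.log (t' / t) with ha
    set b := Real.log (Real.log t' / Real.log t) with hb
    have ha1 : 0 ≤ a := Real.log_nonneg (by rw [le_div_iff₀ ht0]; linarith)
    have ha2 : a ≤ 2 / t := by
      have h5 := Real.log_le_sub_one_of_pos (show 0 < t' / t by positivity)
      refine h5.trans ?_
      rw [div_sub_one ht0.ne']
      gcongr
      linarith
    have hb1 : 0 ≤ b := Real.log_nonneg (by rw [le_div_iff₀ hl0]; linarith)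
    have hb2 : b ≤ 2 / t := by
      have h5 := Real.log_le_sub_one_of_pos (show 0 < Real.log t' / Real.log t by positivity)
      refine h5.trans ?_
      rw [div_sub_one hl0.ne']
      have h6 : Real.log t' - Real.log t = a := by
        rw [ha, Real.log_div ht0'.ne' ht0.ne']
      rw [h6, div_le_iff₀ hl0]
      have : 0 ≤ 2 / t := by positivity
      nlinarith
    have hr : C * t' ^ A * Real.log t' ^ B = (C * t ^ A * Real.log t ^ B) * Real.exp (A * a + B * b) := by
      have h5 : t' ^ A = t ^ A * Real.exp (A * a) := by
        rw [Real.rpow_def_of_pos ht0, Real.rpow_def_of_pos ht0', ← Real.exp_add, ha, Real.log_div ht0'.ne' ht0.ne']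
        congr 1
        ring
      have h6 : Real.log t' ^ B = Real.log t ^ B * Real.exp (B * b) := by
        rw [Real.rpow_def_of_pos hl0, Real.rpow_def_of_pos hl0', ← Real.exp_add, hb, Real.log_div hl0'.ne' hl0.ne']
        congr 1
        ring
      rw [h5, h6, Real.exp_add]
      ring
    rw [hr]
    have hx : |A * a + B * b| ≤ K / t := by
      calc |A * a + B * b| ≤ |A * a| + |B * b| := abs_add_le _ _
        _ = A * a + |B| * b := by rw [abs_mul, abs_mul, abs_of_pos hA, abs_of_nonneg ha1, abs_of_nonneg hb1]
        _ ≤ A * (2 / t) + |B| * (2 / t) := by gcongr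
        _ = K / t := by rw [hK]; ring
    have hx1 : |A * a + B * b| ≤ 1 := by
      refine hx.trans ?_
      rw [div_le_one ht0]
      exact h2
    have he := Real.abs_exp_sub_one_le hx1
    have hpos : 0 < C * t ^ A * Real.log t ^ B := by positivity
    have h7 : (C * t ^ A * Real.log t ^ B) * Real.exp (A * a + B * b) - C * t ^ A * Real.log t ^ B =
        (Real.exp (A * a + B * b) - 1) * (C * t ^ A * Real.log t ^ B) := by ring
    rw [h7, abs_mul, abs_of_pos hpos]
    apply mul_le_mul_of_nonneg_right _ hpos.le
    have h8 : 2 * K / t ≤ ε := by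
      rw [div_le_iff₀ hε] at h1
      rw [div_le_iff₀ ht0]
      linarith
    calc |Real.exp (A * a + B * b) - 1| ≤ 2 * |A * a + B * b| := he
      _ ≤ 2 * (K / t) := by gcongr
      _ = 2 * K / t := by ring
      _ ≤ ε := h8

end Pool.Agent.T2H52.MG
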